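import Pool.Agent.MP_66cee2_co.B.Spec
import Pool.Agent.MP_66cee2_co.H59.Boch

/-
Explicit base: the spectral measure of a bounded positive definite function.
-/

namespace Pool.Agent.MP_66cee2_co.B

open MeasureTheory

theorem sBo : SBo := by
  intro d H A h
  obtain ⟨μ, h1, h2, h3⟩ := H59.bochner H A h.int h.bd h.even h.pos
  refine ⟨μ, h1, inferInstance, by simpa using h2, fun φ hφ => ?_⟩
  rw [integral_zero_measure, sub_zero]
  simp only [mul_comm (φ _)]
  exact h3 φ hφ

end Pool.Agent.MP_66cee2_co.B
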