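import Pool.Agent.MP_66cee2_co.B.Spec
import Pool.Agent.MP_66cee2_co.H12.Apx

/-
Explicit base: polynomial approximation of the exponential.
-/

namespace Pool.Agent.MP_66cee2_co.B

theorem sCh : SCh := by
  intro l a x ha hx
  obtain ⟨r, h1, h2⟩ := H12.approxExp l a x ha hx
  exact ⟨r, h1, fun v hv => by rw [neg_mul]; exact h2 v hv.1 hv.2⟩

end Pool.Agent.MP_66cee2_co.B
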