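import Pool.Agent.MP_66cee2_co.B.Spec

namespace Pool.Agent.MP_66cee2_co.B

open MeasureTheory Set Metric Filter Pool.Agent.MP_66cee2_co.X

namespace ConvX

theorem bdd_int {X : Type*} [MeasurableSpace X] (μ : Measure X) [IsFiniteMeasure μ] {f : X → ℝ}
    (hf : Measurable f) (C : ℝ) (h0 : ∀ x, 0 ≤ f x) (h1 : ∀ x, f x ≤ C) : Integrable f μ :=
  Integrable.of_bound hf.aestronglyMeasurable C
    (Eventually.of_forall fun x => by rw [Real.norm_eq_abs, abs_of_nonneg (h0 x)]; exact h1 x)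

theorem G_le {d : ℕ} {a : ℝ} (ha : 0 < a) (w : E d) :
    G d a w ≤ (a / Real.pi) ^ ((d : ℝ) / 2) := by
  unfold G
  have h1 : Real.exp (-a * ‖w‖ ^ 2) ≤ 1 := by
    rw [Real.exp_le_one_iff]; nlinarith [sq_nonneg ‖w‖]
  have h2 : 0 ≤ (a / Real.pi) ^ ((d : ℝ) / 2) := by positivity
  nlinarith

/-- one centre: the weighted measure -/
theorem step {d : ℕ} (μ : Measure (E d)) [IsFiniteMeasure μ] (g : E d → ℝ) (gm : Measurable g)
    (C : ℝ) (g0 : ∀ x, 0 ≤ g x) (g1 : ∀ x, g x ≤ C) (k : E d × E d → ℝ) (hk : Measurable k)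
    (hk0 : ∀ p, 0 ≤ k p) (hk1 : ∀ p, k p ≤ 1) (c N : ℝ)
    (hloc : ∀ ν : Measure (E d), IsFiniteMeasure ν →
      c * ν.real univ ^ 2 ≤ N * ∫ x, ∫ y, k (x, y) ∂ν ∂ν) :
    c * (∫ x, g x ∂μ) ^ 2 ≤ N * ∫ p, g p.1 * g p.2 * k p ∂(μ.prod μ) := by
  have gi : Integrable g μ := bdd_int _ gm C g0 g1
  have hC : 0 ≤ C := (g0 0).trans (g1 0)
  have h := hloc _ (isFiniteMeasure_withDensity_ofReal gi.2)
  have wd : ∀ f : E d → ℝ,
      ∫ x, f x ∂(μ.withDensity fun x => ENNReal.ofReal (g x)) = ∫ x, g x * f x ∂μ := by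
    intro f
    rw [integral_withDensity_eq_integral_toReal_smul gm.ennreal_ofReal
      (Eventually.of_forall fun _ => ENNReal.ofReal_lt_top)]
    simp_rw [ENNReal.toReal_ofReal (g0 _), smul_eq_mul]
  have hm : (μ.withDensity fun x => ENNReal.ofReal (g x)).real univ = ∫ x, g x ∂μ := by
    have := wd fun _ => 1
    simpa using this
  rw [hm] at h
  simp_rw [wd] at h
  have m1 : Measurable fun p : E d × E d => g p.1 := gm.comp measurable_fst
  have m2 : Measurable fun p : E d × E d => g p.2 := gm.comp measurable_snd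
  have Fz : Integrable (fun p : E d × E d => g p.1 * g p.2 * k p) (μ.prod μ) :=
    bdd_int _ ((m1.mul m2).mul hk) (C * C * 1)
      (fun p => mul_nonneg (mul_nonneg (g0 _) (g0 _)) (hk0 _))
      (fun p => mul_le_mul (mul_le_mul (g1 _) (g1 _) (g0 _) hC) (hk1 _) (hk0 _) (mul_nonneg hC hC))
  rw [integral_prod _ Fz]
  refine h.trans (le_of_eq ?_)
  congr 1
  refine integral_congr_ae (Eventually.of_forall fun x => ?_)
  simp only
  rw [← integral_const_mul]
  simp_rw [mul_assoc]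

theorem conv {d : ℕ} (μ : Measure (E d)) [IsFiniteMeasure μ] (g g' : E d → ℝ) (gc : Continuous g)
    (gc' : Continuous g') (C C' : ℝ) (g0 : ∀ x, 0 ≤ g x) (g1 : ∀ x, g x ≤ C)
    (g0' : ∀ x, 0 ≤ g' x) (g1' : ∀ x, g' x ≤ C')
    (hcv : ∀ x y, Integrable (fun z => g (x - z) * g (y - z)) ∧
      ∫ z, g (x - z) * g (y - z) = g' (x - y))
    (k : E d × E d → ℝ) (hk : Measurable k)
    (hk0 : ∀ p, 0 ≤ k p) (hk1 : ∀ p, k p ≤ 1) (c N : ℝ) (hc : 0 ≤ c)
    (hloc : ∀ ν : Measure (E d), IsFiniteMeasure ν →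
      c * ν.real univ ^ 2 ≤ N * ∫ x, ∫ y, k (x, y) ∂ν ∂ν) :
    c * ∫ z, (∫ x, g (x - z) ∂μ) ^ 2 ≤ N * ∫ x, ∫ y, g' (x - y) * k (x, y) ∂μ ∂μ := by
  have c1 : Continuous fun q : E d × (E d × E d) => g (q.2.1 - q.1) * g (q.2.2 - q.1) := by
    fun_prop
  have c2 : Continuous fun p : E d × E d => g' (p.1 - p.2) := by fun_prop
  have Fm : Measurable fun q : E d × (E d × E d) => g (q.2.1 - q.1) * g (q.2.2 - q.1) * k q.2 :=
    c1.measurable.mul (hk.comp measurable_snd)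
  have Ki : Integrable (fun p : E d × E d => g' (p.1 - p.2) * k p) (μ.prod μ) :=
    bdd_int _ (c2.measurable.mul hk) (C' * 1) (fun p => mul_nonneg (g0' _) (hk0 _))
      (fun p => mul_le_mul (g1' _) (hk1 _) (hk0 _) ((g0' 0).trans (g1' 0)))
  have inner : ∀ p : E d × E d, ∫ z, g (p.1 - z) * g (p.2 - z) * k p = g' (p.1 - p.2) * k p := by
    intro p
    rw [integral_mul_const, (hcv _ _).2]
  have Fi : Integrable (fun q : E d × (E d × E d) => g (q.2.1 - q.1) * g (q.2.2 - q.1) * k q.2)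
      ((volume : Measure (E d)).prod (μ.prod μ)) := by
    rw [integrable_prod_iff' Fm.aestronglyMeasurable]
    refine ⟨Eventually.of_forall fun p => (hcv p.1 p.2).1.mul_const (k p), ?_⟩
    refine Ki.congr (Eventually.of_forall fun p => ?_)
    simp only
    rw [← inner p]
    refine integral_congr_ae (Eventually.of_forall fun z => ?_)
    simp only
    rw [Real.norm_eq_abs, abs_of_nonneg (mul_nonneg (mul_nonneg (g0 _) (g0 _)) (hk0 _))]
  have sw : ∫ z, ∫ p, g (p.1 - z) * g (p.2 - z) * k p ∂(μ.prod μ)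
      = ∫ p, (∫ z, g (p.1 - z) * g (p.2 - z) * k p) ∂(μ.prod μ) :=
    integral_integral_swap (f := fun (z : E d) (p : E d × E d) => g (p.1 - z) * g (p.2 - z) * k p) Fi
  calc c * ∫ z, (∫ x, g (x - z) ∂μ) ^ 2
      = ∫ z, c * (∫ x, g (x - z) ∂μ) ^ 2 := (integral_const_mul _ _).symm
    _ ≤ ∫ z, N * ∫ p, g (p.1 - z) * g (p.2 - z) * k p ∂(μ.prod μ) := by
        refine integral_mono_of_nonneg (Eventually.of_forall fun z => mul_nonneg hc (sq_nonneg _))
          (Fi.integral_prod_left.const_mul N) (Eventually.of_forall fun z => ?_)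
        have gz : Continuous fun x => g (x - z) := by fun_prop
        exact step μ (fun x => g (x - z)) gz.measurable C (fun _ => g0 _) (fun _ => g1 _) k hk hk0 hk1
          c N hloc
    _ = N * ∫ p, g' (p.1 - p.2) * k p ∂(μ.prod μ) := by
        rw [integral_const_mul, sw]
        simp_rw [inner]
    _ = _ := by rw [integral_prod _ Ki]

end ConvX

theorem sConv : SGauss → SGConv → SHk → SPsi → SLoc → SConv := by
  intro hG hC hH hP hL
  obtain ⟨c, hc, hL⟩ := hL
  obtain ⟨pc, p0, p1, -, -⟩ := hP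
  refine ⟨c, hc, fun d n Y β a hY ha => ?_⟩
  have h2a : 0 < 2 * a := by positivity
  obtain ⟨gc, g0, -⟩ := hG d (2 * a) h2a
  obtain ⟨gc', g0', -⟩ := hG d a ha
  have hfin : IsFiniteMeasure ((volume : Measure (E d)).restrict Y) :=
    ⟨by rw [Measure.restrict_apply_univ]; exact hY.bdd.measure_lt_top⟩
  have hk : Measurable fun p : E d × E d => psi (‖β p.1 - β p.2‖ ^ 2) :=
    pc.measurable.comp
      ((((hY.meas.comp measurable_fst).sub (hY.meas.comp measurable_snd)).norm).pow_const 2)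
  have hu := (hH d n Y β psi hY pc (fun s hs => by
    rw [abs_of_nonneg (p0 s)]; exact (p1 s hs).1)).2.2.2.2 (G d a) gc'
  rw [hu]
  have hs : ∀ x y : E d, G d a (y - x) = G d a (x - y) := by
    intro x y
    unfold G
    rw [norm_sub_rev]
  simp_rw [hs]
  exact ConvX.conv (volume.restrict Y) (G d (2 * a)) (G d a) gc gc' _ _ (fun x => (g0 x).le)
    (ConvX.G_le h2a) (fun x => (g0' x).le) (ConvX.G_le ha) (hC d a ha)
    (fun p => psi (‖β p.1 - β p.2‖ ^ 2)) hk (fun p => p0 _) (fun p => (p1 _ (sq_nonneg _)).1)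
    c (n + 2) hc.le (fun ν hν => hL d n ν β hY.meas)

end Pool.Agent.MP_66cee2_co.B
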