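import Pool.Agent.MP_66cee2_co.B.DatL
import Pool.Agent.MP_66cee2_co.D.CaseB
import Pool.Agent.MP_66cee2_co.XI.Main
import Pool.Agent.MP_66cee2_co.XI.Apx
import Pool.Agent.MP_66cee2_co.XI.DatE
import Pool.Agent.MP_66cee2_co.XI.Hol

/-
The four pieces and their data.
-/

namespace Pool.Agent.MP_66cee2_co.B

open MeasureTheory Set Filter Metric Topology Pool.Agent.MP_66cee2_co.X
  Pool.Agent.MP_66cee2_co.XI Pool.Agent.MP_66cee2_co.D.CaseBx

theorem sCov : SLevB → SSgn → SNoP → SCov := by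
  intro hLev hSgn hNoP d n p P u R hd hp hP hu hR
  have hRem := sRem sNull
  have hEdge := sEdge hRem sCoef (XI.sSig sNull)
  have hHol := sHol hRem sCoef
  have hd2 : 2 ≤ d := by omega
  have hU : UF u := XI.JetField.uf hu
  obtain ⟨w, D, j, r, r', hw, hj, hr, hr', hcov⟩ := hLev d n p P u R (by omega) hu hR
  set K := 4 * D + p + 1 with hK
  set Z : Fin 4 → Set (E d) := fun c => Pc u D K j (Cl c j w) with hZ
  have hZc : ∀ c, IsClosed (Z c) := fun c => isClosed_pc sClo u D K j c w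
  have hAc : ∀ c, IsClosed (Den (Z c) r) := fun c => (sDen d _).1 (hZc c) r
  set Y : Fin 4 → Set (E d) := fun c => Den (Den (Z c) r) r' ∩ ball 0 R with hY
  have hYm : ∀ c, MeasurableSet (Y c) := fun c =>
    ((sDen d _).1 (hAc c) r').measurableSet.inter measurableSet_ball
  have hYb : ∀ c, Bornology.IsBounded (Y c) := fun c => isBounded_ball.subset inter_subset_right
  have key : ∀ (c : Fin 4) (V : E d → Ix n → ℝ), Flat (Z c) V p →
      ((∀ x, V x sI = 0) ∨ ∃ g : E d → E n, V = fun x => lift (g x)) →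
      ∃ β : E d → E n, Pre (Y c) β ∧ Van (Y c) β p ∧ Y c ⊆ ball 0 R := by
    intro c V hV h
    obtain ⟨β, hβ, e⟩ := hSgn d n p (Z c) V hp (hZc c) hV h
    obtain ⟨B, hB⟩ := sApx d n p (Z c) V r hr hV
    refine ⟨β, ⟨hYm c, hYb c, hβ⟩, ⟨B, fun x hx y hy => ?_⟩, inter_subset_right⟩
    rw [e x hx.1.1.1 y hy.1.1.1]
    exact hB x hx.1.1 y hy.1.1
  obtain ⟨⟨V₀, hV₀, hV₀'⟩, hno⟩ := sDatE hEdge hHol sOne d n u hd2 hU D p j K hp hj (by omega) w hw
  obtain ⟨g, hg⟩ := sDatL hEdge hHol sOne d n u hd2 hU D p j K hp hj (by omega) w hw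
  rw [← cl_zero] at hV₀
  rw [← cl_one] at hno
  rw [← cl_two] at hg
  have k0 := key 0 V₀ hV₀ (Or.inl hV₀')
  have k1 := key 1 _ (MainA.flat_const p hno) (Or.inr ⟨fun _ => 0, rfl⟩)
  have k2 := key 2 _ hg (Or.inr ⟨g, rfl⟩)
  have hZ3 : Z 3 = Pc u D K j (Cl2 j) := by simp only [hZ, cl_three]
  by_cases h : ∀ x ∈ Den (Z 3) r, ∀ x₁ ∈ Den (Z 3) r, ∀ x₂ ∈ Den (Z 3) r, ‖x₁ - x‖ = 1 →
      ‖x₂ - x‖ = 1 → x₁ ≠ x₂ → x₁ - x = -(x₂ - x)
  · obtain ⟨η, hη, e⟩ := hNoP d _ r' (hAc 3).measurableSet hr'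
      (pair_null hd2 (hAc 3).measurableSet h)
    have k3 : ∃ β : E d → E n, Pre (Y 3) β ∧ Van (Y 3) β p ∧ Y 3 ⊆ ball 0 R := by
      refine ⟨fun _ => 0, ⟨hYm 3, hYb 3, measurable_const⟩,
        ⟨(η ^ p)⁻¹, fun x hx y hy => ?_⟩, inter_subset_right⟩
      have := pow_le_pow_left₀ hη.le (e x hx.1 y hy.1) p
      rw [sub_self, norm_zero, ← div_eq_inv_mul, le_div_iff₀ (by positivity)]
      simpa using this
    have all : ∀ c, ∃ β : E d → E n, Pre (Y c) β ∧ Van (Y c) β p ∧ Y c ⊆ ball 0 R := by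
      intro c
      fin_cases c
      exacts [k0, k1, k2, k3]
    choose β hβ using all
    exact Or.inr ⟨Y, β, hβ, hcov⟩
  · push Not at h
    rw [hZ3] at h
    obtain ⟨x, hx, x₁, h1, x₂, h2, n1, n2, n3, n4⟩ := h
    obtain ⟨T, c, hT⟩ := posI d n u hd2 hU D K j r (by omega) hj hr x hx x₁ h1 x₂ h2
      n1 n2 n3 n4
    refine Or.inl ⟨aff T c, fun x y => ?_, endI d n hd2 P u hP hu T c hT⟩
    simp only [aff, add_sub_add_right_eq_sub, ← map_sub, LinearIsometry.norm_map]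

end Pool.Agent.MP_66cee2_co.B
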