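import Pool.Agent.MP_66cee2_co.B.Spec

/-
Elementary facts on the cosine transform of a polynomial density.
-/

namespace Pool.Agent.MP_66cee2_co.B

open MeasureTheory Set Filter Polynomial

theorem D1x.abs_le_one {u : ℝ} (hu : u ∈ uIoc (-1 : ℝ) 1) : |u| ≤ 1 := by
  rw [uIoc_of_le (by norm_num)] at hu
  exact abs_le.2 ⟨hu.1.le, hu.2⟩

theorem D1x.deriv (ρ : ℝ[X]) (s : ℝ) : HasDerivAt (Phi ρ)
    (∫ u in (-1 : ℝ)..1, -Real.sin (s * u) * u * ρ.eval u) s := by
  have hc : Continuous fun u : ℝ => ρ.eval u := ρ.continuous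
  refine (intervalIntegral.hasDerivAt_integral_of_dominated_loc_of_deriv_le (μ := volume)
    (F := fun s u => Real.cos (s * u) * ρ.eval u)
    (F' := fun s u => -Real.sin (s * u) * u * ρ.eval u) (bound := fun u => |ρ.eval u|)
    (s := univ) Filter.univ_mem ?_ ?_ ?_ ?_ ?_ ?_).2
  · exact Filter.Eventually.of_forall fun x =>
      (Continuous.aestronglyMeasurable (by fun_prop))
  · exact Continuous.intervalIntegrable (by fun_prop) _ _
  · exact Continuous.aestronglyMeasurable (by fun_prop)
  · refine Filter.Eventually.of_forall fun u hu x _ => ?_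
    rw [Real.norm_eq_abs, abs_mul, abs_mul, abs_neg]
    exact mul_le_of_le_one_left (abs_nonneg _)
      (mul_le_one₀ (Real.abs_sin_le_one _) (abs_nonneg _) (D1x.abs_le_one hu))
  · exact hc.abs.intervalIntegrable _ _
  · refine Filter.Eventually.of_forall fun u _ x _ => ?_
    exact ((hasDerivAt_mul_const u (x := x)).cos).mul_const (ρ.eval u)

theorem D1x.parts (ρ : ℝ[X]) (h1 : ρ.eval 1 = 0) (h2 : ρ.eval (-1) = 0) (s : ℝ) :
    Phi (derivative (X * ρ)) s +
      s * ∫ u in (-1 : ℝ)..1, -Real.sin (s * u) * u * ρ.eval u = 0 := by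
  have hc : Continuous fun u : ℝ => ρ.eval u := ρ.continuous
  have hc' : Continuous fun u : ℝ => (derivative (X * ρ)).eval u := Polynomial.continuous _
  have h := intervalIntegral.integral_eq_sub_of_hasDerivAt (a := (-1 : ℝ)) (b := 1)
    (f := fun u => Real.cos (s * u) * (X * ρ).eval u)
    (f' := fun u => Real.cos (s * u) * (derivative (X * ρ)).eval u +
      s * (-Real.sin (s * u) * u * ρ.eval u))
    (fun u _ => by
      have h3 := (((hasDerivAt_id u).const_mul s).cos).mul ((X * ρ).hasDerivAt u)
      refine HasDerivAt.congr_deriv h3 ?_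
      simp only [id, eval_mul, eval_X]
      ring)
    (Continuous.intervalIntegrable (by fun_prop) _ _)
  rw [intervalIntegral.integral_add (Continuous.intervalIntegrable (by fun_prop) _ _)
    (Continuous.intervalIntegrable (by fun_prop) _ _), intervalIntegral.integral_const_mul] at h
  simp only [eval_mul, eval_X, h1, h2, mul_zero, sub_zero] at h
  exact h

theorem sD1 : SD1 := by
  intro ρ
  have hc : Continuous fun u : ℝ => ρ.eval u := ρ.continuous
  refine ⟨continuous_iff_continuousAt.2 fun s => (D1x.deriv ρ s).continuousAt,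
    ⟨∫ u in (-1 : ℝ)..1, |ρ.eval u|, fun s => ?_⟩, fun σ c s => ⟨?_, ?_⟩, fun h1 h2 k t ht => ?_⟩
  · rw [← Real.norm_eq_abs]
    refine intervalIntegral.norm_integral_le_of_norm_le (by norm_num)
      (Eventually.of_forall fun u _ => ?_) (hc.abs.intervalIntegrable _ _)
    rw [Real.norm_eq_abs, abs_mul]
    exact mul_le_of_le_one_left (abs_nonneg _) (Real.abs_cos_le_one _)
  · have hs : Continuous fun u : ℝ => σ.eval u := σ.continuous
    unfold Phi
    rw [← intervalIntegral.integral_add (Continuous.intervalIntegrable (by fun_prop) _ _)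
      (Continuous.intervalIntegrable (by fun_prop) _ _)]
    simp only [eval_add, mul_add]
  · unfold Phi
    rw [← intervalIntegral.integral_const_mul]
    simp only [eval_smul, smul_eq_mul, mul_left_comm]
  · have h3 := (D1x.deriv ρ (k * t)).comp t ((hasDerivAt_id t).const_mul k)
    refine HasDerivAt.congr_deriv h3 ?_
    have h4 := D1x.parts ρ h1 h2 (k * t)
    rw [eq_div_iff ht]
    linarith

end Pool.Agent.MP_66cee2_co.B
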