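import Pool.Agent.MP_66cee2_co.B.Spec

/-
The density bound.
-/

namespace Pool.Agent.MP_66cee2_co.B

open MeasureTheory Set Filter Metric Topology Pool.Agent.MP_66cee2_co.X
open scoped ENNReal

theorem dens_half {d : ℕ} (g : E d → ℝ) (hi : Integrable g) (h1 : ∫ w, g w = 1) :
    ∃ L : ℝ, 0 < L ∧ 1 / 2 ≤ ∫ w in ball (0 : E d) L, g w := by
  have hm : Monotone fun n : ℕ => ball (0 : E d) ((n : ℝ) + 1) := by
    intro m n h
    exact ball_subset_ball (by exact_mod_cast Nat.succ_le_succ h)
  have hU : (⋃ n : ℕ, ball (0 : E d) ((n : ℝ) + 1)) = univ := iUnion_ball_nat_succ 0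
  have ht := tendsto_setIntegral_of_monotone (μ := volume) (f := g)
    (fun n : ℕ => (measurableSet_ball : MeasurableSet (ball (0 : E d) ((n : ℝ) + 1)))) hm
    (by rw [hU]; exact hi.integrableOn)
  rw [hU, Measure.restrict_univ, h1] at ht
  obtain ⟨n, hn⟩ := (ht.eventually (lt_mem_nhds (by norm_num : (1 / 2 : ℝ) < 1))).exists
  exact ⟨n + 1, by positivity, hn.le⟩

theorem dens_rad (d : ℕ) (L : ℝ) (hL : 0 < L) :
    ∃ R : ℝ, 0 < R ∧
      volume.real (ball (0 : E d) (R + L)) ≤ 2 * volume.real (ball (0 : E d) R) := by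
  have hc : ContinuousAt (fun δ : ℝ => (1 + δ) ^ d) 0 := by fun_prop
  have he : ∀ᶠ δ : ℝ in 𝓝 0, (1 + δ) ^ d < 2 :=
    hc.eventually (gt_mem_nhds (by simp))
  obtain ⟨δ, hδ, hδ0⟩ := ((he.filter_mono nhdsWithin_le_nhds).and
    (self_mem_nhdsWithin : Ioi (0 : ℝ) ∈ 𝓝[>] 0)).exists
  have hδ1 : 0 < δ := hδ0
  have hR : 0 < L / δ := by positivity
  refine ⟨L / δ, hR, ?_⟩
  have e : L / δ + L = (1 + δ) * (L / δ) := by field_simp
  rw [e, Measure.real, Measure.addHaar_ball_mul_of_pos _ _ (by positivity : 0 < 1 + δ),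
    ENNReal.toReal_mul, ENNReal.toReal_ofReal (by positivity)]
  have hd : Module.finrank ℝ (E d) = d := by simp
  rw [hd]
  exact mul_le_mul_of_nonneg_right hδ.le ENNReal.toReal_nonneg

theorem dens_shift {d : ℕ} (g : E d → ℝ) (hi : Integrable g) (h0 : ∀ w, 0 ≤ g w) (R L : ℝ)
    (x : E d) (hx : x ∈ ball (0 : E d) R) :
    ∫ w in ball (0 : E d) L, g w ≤ ∫ z in ball (0 : E d) (R + L), g (x - z) := by
  rw [← integral_indicator measurableSet_ball, ← integral_indicator measurableSet_ball,
    ← integral_sub_left_eq_self ((ball (0 : E d) L).indicator g) volume x]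
  refine integral_mono ((hi.indicator measurableSet_ball).comp_sub_left x)
    ((hi.comp_sub_left x).indicator measurableSet_ball) fun z => ?_
  by_cases hz : x - z ∈ ball (0 : E d) L
  · have hz' : z ∈ ball (0 : E d) (R + L) := by
      rw [mem_ball_zero_iff] at hx hz ⊢
      have : z = x - (x - z) := by abel
      calc ‖z‖ = ‖x - (x - z)‖ := by rw [← this]
        _ ≤ ‖x‖ + ‖x - z‖ := norm_sub_le _ _
        _ < R + L := add_lt_add hx hz
    simp only [indicator_of_mem hz, indicator_of_mem hz', le_refl]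
  · simp only [indicator_of_notMem hz]
    exact indicator_nonneg (fun y _ => h0 _) z

theorem dens_int {d : ℕ} (g : E d → ℝ) (hc : Continuous g) (hi : Integrable g)
    (Y : Set (E d)) (hY : volume Y ≠ ∞) :
    Integrable (Function.uncurry fun z x : E d => g (x - z))
      ((volume : Measure (E d)).prod (volume.restrict Y)) := by
  have : IsFiniteMeasure ((volume : Measure (E d)).restrict Y) := isFiniteMeasure_restrict.2 hY
  have hcc : Continuous (Function.uncurry fun z x : E d => g (x - z)) :=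
    hc.comp (continuous_snd.sub continuous_fst)
  rw [integrable_prod_iff' hcc.aestronglyMeasurable]
  refine ⟨Eventually.of_forall fun x => hi.comp_sub_left x, ?_⟩
  have : (fun x : E d => ∫ z, ‖(Function.uncurry fun z x : E d => g (x - z)) (z, x)‖) =
      fun _ => ∫ w, ‖g w‖ := by
    funext x
    exact integral_sub_left_eq_self (fun w => ‖g w‖) volume x
  rw [this]
  exact integrable_const _

theorem dens_one {d : ℕ} (g : E d → ℝ) (hc : Continuous g) (hi : Integrable g)
    (h0 : ∀ w, 0 ≤ g w) (h1 : ∫ w, g w = 1) (R L t : ℝ) (ht : 0 ≤ t)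
    (hL : 1 / 2 ≤ ∫ w in ball (0 : E d) L, g w) (Y : Set (E d)) (hm : MeasurableSet Y)
    (hY : Y ⊆ ball 0 R) :
    t * volume.real Y - t ^ 2 * volume.real (ball (0 : E d) (R + L)) ≤
      ∫ z, (∫ x in Y, g (x - z)) ^ 2 := by
  have hfin : volume Y ≠ ∞ := ((measure_mono hY).trans_lt measure_ball_lt_top).ne
  have : IsFiniteMeasure ((volume : Measure (E d)).restrict Y) := isFiniteMeasure_restrict.2 hfin
  have : IsFiniteMeasure ((volume : Measure (E d)).restrict (ball (0 : E d) (R + L))) :=
    isFiniteMeasure_restrict.2 measure_ball_lt_top.ne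
  have hI := dens_int g hc hi Y hfin
  have hf : Integrable fun z : E d => ∫ x in Y, g (x - z) := hI.integral_prod_left
  have hf0 : ∀ z : E d, 0 ≤ ∫ x in Y, g (x - z) := fun z => integral_nonneg fun x => h0 _
  have hf1 : ∀ z : E d, ∫ x in Y, g (x - z) ≤ 1 := fun z => by
    rw [← h1, ← integral_sub_right_eq_self g z]
    exact setIntegral_le_integral (hi.comp_sub_right z) (Eventually.of_forall fun x => h0 _)
  have hf2 : Integrable fun z : E d => (∫ x in Y, g (x - z)) ^ 2 := by
    refine hf.mono' (hf.aestronglyMeasurable.pow 2) (Eventually.of_forall fun z => ?_)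
    rw [Real.norm_of_nonneg (sq_nonneg _)]
    nlinarith [hf0 z, hf1 z]
  have hI' : Integrable (Function.uncurry fun z x : E d => g (x - z))
      (((volume : Measure (E d)).restrict (ball 0 (R + L))).prod (volume.restrict Y)) := by
    rw [Measure.restrict_prod_eq_prod_univ]
    exact hI.integrableOn
  have hsw := integral_integral_swap hI'
  have hlow : 1 / 2 * volume.real Y ≤ ∫ x in Y, ∫ z in ball (0 : E d) (R + L), g (x - z) := by
    have h := setIntegral_mono_on (μ := volume) (s := Y) (f := fun _ => (1 / 2 : ℝ))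
      (g := fun x => ∫ z in ball (0 : E d) (R + L), g (x - z)) (integrable_const _)
      hI'.integral_prod_right hm fun x hx => hL.trans (dens_shift g hi h0 R L x (hY hx))
    rw [setIntegral_const, smul_eq_mul] at h
    linarith
  have h3 : ∫ z in ball (0 : E d) (R + L), (∫ x in Y, g (x - z)) ^ 2 ≤
      ∫ z, (∫ x in Y, g (x - z)) ^ 2 :=
    setIntegral_le_integral hf2 (Eventually.of_forall fun z => sq_nonneg _)
  have h4 : ∫ z in ball (0 : E d) (R + L), (2 * t * (∫ x in Y, g (x - z)) - t ^ 2) ≤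
      ∫ z in ball (0 : E d) (R + L), (∫ x in Y, g (x - z)) ^ 2 := by
    refine integral_mono ((hf.integrableOn.const_mul _).sub (integrable_const _))
      hf2.integrableOn fun z => ?_
    nlinarith [sq_nonneg ((∫ x in Y, g (x - z)) - t)]
  rw [integral_sub (hf.integrableOn.const_mul _) (integrable_const _), integral_const_mul,
    setIntegral_const, smul_eq_mul, hsw] at h4
  nlinarith [mul_le_mul_of_nonneg_left hlow ht]

theorem sDens : SGauss → SDens := by
  intro hG d a ha
  obtain ⟨hc, hp, hi, h1, -⟩ := hG d a ha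
  obtain ⟨L, hL0, hL⟩ := dens_half _ hi h1
  obtain ⟨R, hR0, hR⟩ := dens_rad d L hL0
  refine ⟨R, hR0, fun Y hY hU => ?_⟩
  have h2 : volume.real (⋃ c, Y c) ≤ ∑ c, volume.real (Y c) := measureReal_iUnion_fintype_le Y
  have h3 := Finset.sum_le_sum fun c (_ : c ∈ (Finset.univ : Finset (Fin 4))) =>
    dens_one _ hc hi (fun w => (hp w).le) h1 R L (1 / 32) (by norm_num) hL (Y c) (hY c).1 (hY c).2
  rw [Finset.sum_sub_distrib, ← Finset.mul_sum, Finset.sum_const, Finset.card_univ,
    Fintype.card_fin, nsmul_eq_mul] at h3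
  push_cast at h3
  linarith

end Pool.Agent.MP_66cee2_co.B
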