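import Pool.Agent.MP_66cee2_co.B.Spec
import Pool.Agent.MP_66cee2_co.H75.Der

/-
Flatness of the ball integral at radius one kills all even polynomial densities of low degree.
-/

namespace Pool.Agent.MP_66cee2_co.B

open MeasureTheory Set Filter Polynomial Pool.Agent.MP_66cee2_co.X

theorem Derx.phi_rho (m : ℕ) (s : ℝ) : Phi (rho m) s = H75.Ph m s := by
  simp only [Phi, rho, H75.Ph, eval_pow, eval_sub, eval_one, eval_X]

theorem Derx.av {d : ℕ} (μ : Measure (E d)) (m : ℕ) (t : ℝ) :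
    H75.Av μ (fun _ => 1) (fun ξ => ‖ξ‖) m t = t ^ (2 * m + 1) * IP μ (rho m) t := by
  rw [H75.Av_eq]
  simp only [IP, Derx.phi_rho, one_mul]

theorem Derx.ip {d : ℕ} (μ : Measure (E d)) [IsFiniteMeasure μ] (l : ℕ) (r : ℝ[X]) (c : ℕ → ℝ)
    (hc : ∀ s : ℝ, ∫ u in (-1 : ℝ)..1, Real.cos (s * u) * r.eval (u ^ 2) =
      ∑ i ∈ Finset.range (l + 1), c i * H75.Ph i s) :
    IP μ (r.comp (X ^ 2)) 1 = ∑ i ∈ Finset.range (l + 1), c i * IP μ (rho i) 1 := by
  have hi : ∀ i, Integrable (fun ξ : E d => c i * H75.Ph i (‖ξ‖ * 1)) μ := fun i => by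
    have := (H75.int_pt μ (fun _ => 1) (fun ξ => ‖ξ‖) (integrable_const _)
      continuous_norm.aestronglyMeasurable i 1).const_mul (c i)
    simpa only [one_mul] using this
  simp only [IP, Derx.phi_rho]
  simp only [Phi, eval_comp, eval_pow, eval_X, hc]
  rw [integral_finsetSum _ fun i _ => hi i]
  exact Finset.sum_congr rfl fun i _ => integral_const_mul _ _

theorem sDer : SDer := by
  intro l d μ₁ μ₂ _ _ C hO r hr
  have hn : ∀ μ : Measure (E d), AEStronglyMeasurable (fun ξ : E d => ‖ξ‖) μ := fun μ =>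
    continuous_norm.aestronglyMeasurable
  have hv := H75.van (fun m t => H75.Av μ₁ (fun _ => 1) (fun ξ => ‖ξ‖) m t -
      H75.Av μ₂ (fun _ => 1) (fun ξ => ‖ξ‖) m t) l C 1 one_pos
    (fun m t => by
      have := (H75.hasDerivAt_Av μ₁ _ _ (integrable_const (1 : ℝ)) (hn μ₁) m t).sub
        (H75.hasDerivAt_Av μ₂ _ _ (integrable_const (1 : ℝ)) (hn μ₂) m t)
      rw [← mul_sub] at this
      exact this)
    ((H75.continuous_Av μ₁ _ _ (integrable_const (1 : ℝ)) (hn μ₁) 0).sub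
      (H75.continuous_Av μ₂ _ _ (integrable_const (1 : ℝ)) (hn μ₂) 0)).continuousAt
    (fun t ht => by
      simp only [Derx.av, one_pow, one_mul]
      rw [← mul_sub]
      exact hO t ⟨ht.1, by linarith [ht.2]⟩)
  obtain ⟨c, hc⟩ := H75.poly_eq l r hr
  rw [Derx.ip μ₁ l r c hc, Derx.ip μ₂ l r c hc]
  refine Finset.sum_congr rfl fun i hi => ?_
  have := hv i (by have := Finset.mem_range.1 hi; omega)
  simp only [Derx.av, one_pow, one_mul] at this
  rw [sub_eq_zero.1 this]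

end Pool.Agent.MP_66cee2_co.B
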