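import Pool.Agent.MP_66cee2_co.B.Spec

/-
The flat bound.
-/

namespace Pool.Agent.MP_66cee2_co.B

open MeasureTheory Set Filter Metric Topology Polynomial Pool.Agent.MP_66cee2_co.X
open scoped RealInnerProductSpace

namespace FBx

theorem est (h1 : SD1) {d : ℕ} (μ : Measure (E d)) [IsFiniteMeasure μ] (ρ : ℝ[X]) {a s m : ℝ}
    (ha : 0 < a) (hm : ∀ k : ℝ, |s * Phi ρ k - Real.exp (-k ^ 2 / (4 * a))| ≤ m) :
    |s * IP μ ρ 1 - ∫ ξ, Real.exp (-‖ξ‖ ^ 2 / (4 * a)) ∂μ| ≤ m * μ.real univ := by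
  obtain ⟨hc, ⟨M, hM⟩, -⟩ := h1 ρ
  have i1 : Integrable (fun ξ : E d => Phi ρ (‖ξ‖ * 1)) μ :=
    (integrable_const M).mono' (hc.comp (continuous_norm.mul_const 1)).aestronglyMeasurable
      (ae_of_all _ fun ξ => hM _)
  have i2 : Integrable (fun ξ : E d => Real.exp (-‖ξ‖ ^ 2 / (4 * a))) μ := by
    refine (integrable_const (1 : ℝ)).mono' (Continuous.aestronglyMeasurable (by fun_prop))
      (ae_of_all _ fun ξ => ?_)
    rw [Real.norm_of_nonneg (Real.exp_pos _).le, Real.exp_le_one_iff]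
    exact div_nonpos_of_nonpos_of_nonneg (neg_nonpos.2 (sq_nonneg _)) (by positivity)
  unfold IP
  rw [← integral_const_mul, ← integral_sub (i1.const_mul s) i2, ← Real.norm_eq_abs]
  refine norm_integral_le_of_norm_le_const (ae_of_all _ fun ξ => ?_)
  rw [mul_one]
  exact hm _

end FBx

theorem sFB : SGauss → SRep → SBall → SVan → SD1 → SDer → SFB := by
  intro hG hR hB hV h1 hD l n Y β a m r hP hVan ha hr hm
  obtain ⟨μ₁, μ₂, f1, f2, mass, weak⟩ := hR _ n Y β hP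
  obtain ⟨v, hv, hb⟩ := hB l
  obtain ⟨C, hC⟩ := hV _ n (l + 2) Y β hP hVan
  have key : ∀ t : ℝ, 0 < t →
      ∫ w, (ball (0 : E (2 * l + 3)) t).indicator (fun _ => (1 : ℝ)) w * Hk Y β psi w =
        v * (t ^ (2 * l + 3) * (IP μ₁ (rho (l + 1)) t - IP μ₂ (rho (l + 1)) t)) := by
    intro t ht
    rw [weak _ ((integrable_indicator_iff measurableSet_ball).2
      (integrableOn_const measure_ball_lt_top.ne))]
    simp only [hb t ht, integral_const_mul, IP]
    ring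
  have hder := hD l _ μ₁ μ₂ (C / v) (fun t ht => by
    have h := hC t ht
    rw [key t (by linarith [ht.1]), key 1 one_pos, one_pow, one_mul, ← mul_sub, abs_mul,
      abs_of_pos hv] at h
    rw [div_mul_eq_mul_div, le_div_iff₀' hv]
    exact h) r hr
  obtain ⟨-, -, gi, -, gc⟩ := hG (2 * l + 3) a ha
  have e1 := abs_le.1 (FBx.est h1 μ₁ _ ha hm)
  have e2 := abs_le.1 (FBx.est h1 μ₂ _ ha hm)
  have hm0 : 0 ≤ m := (abs_nonneg _).trans (hm 0)
  rw [weak _ gi]
  simp only [gc]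
  rw [hder] at e1
  have h3 := mul_le_mul_of_nonneg_left mass hm0
  nlinarith [e1.1, e2.2]

end Pool.Agent.MP_66cee2_co.B
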