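import Pool.Agent.MP_66cee2_co.B.Spec

/-
Explicit base: the convolution of two Gaussians.
-/

namespace Pool.Agent.MP_66cee2_co.B

open MeasureTheory Pool.Agent.MP_66cee2_co.X

namespace GConvx

theorem sq_id {d : ℕ} (x y z : E d) :
    ‖x - z‖ ^ 2 + ‖y - z‖ ^ 2 = 2 * ‖z - (1 / 2 : ℝ) • (x + y)‖ ^ 2 + ‖x - y‖ ^ 2 / 2 := by
  simp only [EuclideanSpace.real_norm_sq_eq, PiLp.sub_apply, PiLp.smul_apply, PiLp.add_apply,
    smul_eq_mul, Finset.mul_sum, Finset.sum_div, ← Finset.sum_add_distrib]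
  exact Finset.sum_congr rfl fun i _ => by ring

theorem gauss (d : ℕ) (b : ℝ) (hb : 0 < b) (m : E d) :
    ∫ z : E d, Real.exp (-b * ‖z - m‖ ^ 2) = (Real.pi / b) ^ ((d : ℝ) / 2) := by
  rw [integral_sub_right_eq_self (fun z : E d => Real.exp (-b * ‖z‖ ^ 2)) m,
    GaussianFourier.integral_rexp_neg_mul_sq_norm hb]
  simp

theorem prod_eq (d : ℕ) (a : ℝ) (x y z : E d) :
    G d (2 * a) (x - z) * G d (2 * a) (y - z) =
      ((2 * a / Real.pi) ^ ((d : ℝ) / 2) * (2 * a / Real.pi) ^ ((d : ℝ) / 2) *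
        Real.exp (-a * ‖x - y‖ ^ 2)) *
        Real.exp (-(4 * a) * ‖z - (1 / 2 : ℝ) • (x + y)‖ ^ 2) := by
  have h := sq_id x y z
  have e : Real.exp (-(2 * a) * ‖x - z‖ ^ 2) * Real.exp (-(2 * a) * ‖y - z‖ ^ 2) =
      Real.exp (-a * ‖x - y‖ ^ 2) *
        Real.exp (-(4 * a) * ‖z - (1 / 2 : ℝ) • (x + y)‖ ^ 2) := by
    rw [← Real.exp_add, ← Real.exp_add]
    congr 1
    linear_combination (-(2 * a)) * h
  unfold G
  linear_combination
    ((2 * a / Real.pi) ^ ((d : ℝ) / 2) * (2 * a / Real.pi) ^ ((d : ℝ) / 2)) * e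

end GConvx

open GConvx in
theorem sGConv : SGConv := by
  intro d a ha x y
  have h4 : 0 < 4 * a := by positivity
  have hp := Real.pi_pos
  have hg := gauss d (4 * a) h4 ((1 / 2 : ℝ) • (x + y))
  have hi : Integrable fun z : E d =>
      Real.exp (-(4 * a) * ‖z - (1 / 2 : ℝ) • (x + y)‖ ^ 2) := by
    apply Integrable.of_integral_ne_zero
    rw [hg]
    positivity
  simp only [prod_eq]
  refine ⟨hi.const_mul _, ?_⟩
  rw [integral_const_mul, hg]
  have e : (2 * a / Real.pi) ^ ((d : ℝ) / 2) * (2 * a / Real.pi) ^ ((d : ℝ) / 2) *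
      (Real.pi / (4 * a)) ^ ((d : ℝ) / 2) = (a / Real.pi) ^ ((d : ℝ) / 2) := by
    rw [← Real.mul_rpow (by positivity) (by positivity),
      ← Real.mul_rpow (by positivity) (by positivity)]
    congr 1
    field_simp
    ring
  unfold G
  linear_combination Real.exp (-a * ‖x - y‖ ^ 2) * e

end Pool.Agent.MP_66cee2_co.B
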