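import Pool.Agent.MP_66cee2_co.B.Spec
import Pool.Agent.MP_66cee2_co.H12.Gau

/-
Explicit base: the Gaussian as a cosine transform on the interval.
-/

namespace Pool.Agent.MP_66cee2_co.B

open MeasureTheory Set Polynomial

theorem ga1_tail (a k : ℝ) (a0 : 0 < a) :
    |(∫ u in (-1 : ℝ)..1, Real.cos (k * u) * Real.exp (-(a * u ^ 2))) -
      √(Real.pi / a) * Real.exp (-k ^ 2 / (4 * a))| ≤ 2 * Real.exp (-a) / a := by
  have hi := H12.int_cos_gauss a k a0
  have nb : ∀ u t : ℝ, -(a * u ^ 2) ≤ t →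
      ‖Real.cos (k * u) * Real.exp (-(a * u ^ 2))‖ ≤ Real.exp t := fun u t h => by
    rw [Real.norm_eq_abs, abs_mul, abs_of_pos (Real.exp_pos _)]
    exact (mul_le_of_le_one_left (Real.exp_pos _).le (Real.abs_cos_le_one _)).trans
      (Real.exp_le_exp.2 h)
  have h1 := norm_integral_le_of_norm_le (μ := volume.restrict (Iic (-1 : ℝ)))
    (f := fun u : ℝ => Real.cos (k * u) * Real.exp (-(a * u ^ 2)))
    (integrableOn_exp_mul_Iic a0 (-1)) (ae_restrict_of_forall_mem measurableSet_Iic fun u hu =>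
      nb u _ (by
        have h : u ≤ -1 := hu
        nlinarith [mul_nonneg a0.le (mul_nonneg_of_nonpos_of_nonpos (a := u) (b := u + 1)
          (by linarith) (by linarith))]))
  have h2 := norm_integral_le_of_norm_le (μ := volume.restrict (Ioi (1 : ℝ)))
    (f := fun u : ℝ => Real.cos (k * u) * Real.exp (-(a * u ^ 2)))
    (integrableOn_exp_mul_Ioi (neg_lt_zero.2 a0) 1)
    (ae_restrict_of_forall_mem measurableSet_Ioi fun u hu =>
      nb u _ (by
        have h : 1 < u := hu
        nlinarith [mul_nonneg a0.le (mul_nonneg (a := u) (b := u - 1)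
          (by linarith) (by linarith))]))
  rw [integral_exp_mul_Iic a0, Real.norm_eq_abs, mul_neg_one] at h1
  rw [integral_exp_mul_Ioi (neg_lt_zero.2 a0), Real.norm_eq_abs, mul_one, neg_div_neg_eq] at h2
  rw [← H12.cos_gauss a k a0, intervalIntegral.integral_of_le (by norm_num),
    ← integral_add_compl (s := Ioc (-1 : ℝ) 1) measurableSet_Ioc hi, sub_add_cancel_left, abs_neg,
    compl_Ioc, setIntegral_union (Iic_disjoint_Ioi (by norm_num)) measurableSet_Ioi
      hi.integrableOn hi.integrableOn, mul_div_assoc]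
  exact (abs_add_le _ _).trans (by linarith)

theorem sGa1 : SGa1 := by
  intro a e r a0 hr k
  have h1 := ga1_tail a k a0
  have c1 : Continuous fun u : ℝ => Real.cos (k * u) * r.eval (u ^ 2) := by fun_prop
  have c2 : Continuous fun u : ℝ => Real.cos (k * u) * Real.exp (-(a * u ^ 2)) := by fun_prop
  have h2 : |(∫ u in (-1 : ℝ)..1, Real.cos (k * u) * r.eval (u ^ 2)) -
      ∫ u in (-1 : ℝ)..1, Real.cos (k * u) * Real.exp (-(a * u ^ 2))| ≤ 2 * e := by
    rw [← intervalIntegral.integral_sub (c1.intervalIntegrable _ _) (c2.intervalIntegrable _ _)]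
    have := intervalIntegral.norm_integral_le_of_norm_le_const (a := (-1 : ℝ)) (b := 1) (C := e)
      (f := fun u => Real.cos (k * u) * r.eval (u ^ 2) -
        Real.cos (k * u) * Real.exp (-(a * u ^ 2))) fun u hu => by
      rw [uIoc_of_le (by norm_num)] at hu
      rw [← mul_sub, Real.norm_eq_abs, abs_mul, abs_sub_comm, ← neg_mul]
      refine (mul_le_of_le_one_left (abs_nonneg _) (Real.abs_cos_le_one _)).trans
        (hr _ ⟨sq_nonneg u, ?_⟩)
      nlinarith [hu.1, hu.2]
    rw [Real.norm_eq_abs] at this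
    norm_num at this ⊢
    linarith
  have e1 : Phi (r.comp (X ^ 2)) k = ∫ u in (-1 : ℝ)..1, Real.cos (k * u) * r.eval (u ^ 2) := by
    simp only [Phi, eval_comp, eval_pow, eval_X]
  have e2 : √(a / Real.pi) * √(Real.pi / a) = 1 := by
    rw [← Real.sqrt_mul (by positivity), div_mul_div_comm, mul_comm a, div_self (by positivity),
      Real.sqrt_one]
  have e3 : Real.exp (-k ^ 2 / (4 * a)) =
      √(a / Real.pi) * (√(Real.pi / a) * Real.exp (-k ^ 2 / (4 * a))) := by
    rw [← mul_assoc, e2, one_mul]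
  rw [e1, e3, ← mul_sub, abs_mul, abs_of_nonneg (Real.sqrt_nonneg _)]
  refine mul_le_mul_of_nonneg_left ?_ (Real.sqrt_nonneg _)
  exact (abs_sub_le _ _ _).trans (add_le_add h2 h1)

end Pool.Agent.MP_66cee2_co.B
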