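import Pool.Agent.MP_66cee2_co.B.Spec

/-
Row Gauss: mass and cosine transform of the Gaussian.
-/

namespace Pool.Agent.MP_66cee2_co.B

open MeasureTheory Set Filter Metric Topology Polynomial Pool.Agent.MP_66cee2_co.X
  Pool.Agent.MP_66cee2_co.XI
open scoped ENNReal RealInnerProductSpace

theorem gauss_re (a s c : ℝ) :
    (Complex.exp (-(a : ℂ) * (s : ℂ) ^ 2 + Complex.I * (c : ℂ))).re =
      Real.exp (-a * s ^ 2) * Real.cos c := by
  have e1 : -(a : ℂ) * (s : ℂ) ^ 2 + Complex.I * (c : ℂ) =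
      ((-a * s ^ 2 : ℝ) : ℂ) + (c : ℂ) * Complex.I := by
    push_cast
    ring
  rw [e1, Complex.exp_add, ← Complex.ofReal_exp, Complex.re_ofReal_mul,
    Complex.exp_ofReal_mul_I_re]

theorem gauss_cos (d : ℕ) (a : ℝ) (ha : 0 < a) (ξ : E d) :
    Integrable (fun w : E d => Real.exp (-a * ‖w‖ ^ 2) * Real.cos ⟪ξ, w⟫) ∧
    ∫ w : E d, Real.exp (-a * ‖w‖ ^ 2) * Real.cos ⟪ξ, w⟫ =
      (Real.pi / a) ^ ((d : ℝ) / 2) * Real.exp (-‖ξ‖ ^ 2 / (4 * a)) := by
  have hb : 0 < (a : ℂ).re := ha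
  have h1 := GaussianFourier.integrable_cexp_neg_mul_sq_norm_add hb Complex.I ξ
  have h2 := GaussianFourier.integral_cexp_neg_mul_sq_norm_add hb Complex.I ξ
  have h3 := integral_re h1
  have h4 := h1.re
  simp only [RCLike.re_to_complex, gauss_re] at h3 h4
  refine ⟨h4, h3.trans ?_⟩
  rw [h2, finrank_euclideanSpace_fin]
  have e1 : ((Real.pi : ℂ) / (a : ℂ)) ^ ((d : ℂ) / 2) =
      (((Real.pi / a) ^ ((d : ℝ) / 2) : ℝ) : ℂ) := by
    rw [Complex.ofReal_cpow (by positivity)]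
    push_cast
    rfl
  have e2 : Complex.I ^ 2 * (‖ξ‖ : ℂ) ^ 2 / (4 * (a : ℂ)) = ((-‖ξ‖ ^ 2 / (4 * a) : ℝ) : ℂ) := by
    rw [Complex.I_sq]
    push_cast
    ring
  rw [e1, e2, ← Complex.ofReal_exp, ← Complex.ofReal_mul, Complex.ofReal_re]

theorem sGauss : SGauss := by
  intro d a ha
  have hc : (a / Real.pi) ^ ((d : ℝ) / 2) * (Real.pi / a) ^ ((d : ℝ) / 2) = 1 := by
    rw [← Real.mul_rpow (by positivity) (by positivity), div_mul_div_comm, mul_comm a,
      div_self (by positivity), Real.one_rpow]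
  have hct : ∀ ξ, ct (G d a) ξ = Real.exp (-‖ξ‖ ^ 2 / (4 * a)) := fun ξ => by
    unfold ct G
    simp_rw [mul_assoc]
    rw [integral_const_mul, (gauss_cos d a ha ξ).2, ← mul_assoc, hc, one_mul]
  refine ⟨by unfold G; fun_prop, fun w => by unfold G; positivity, ?_, ?_, hct⟩
  · have h := (gauss_cos d a ha 0).1
    simp only [inner_zero_left, Real.cos_zero, mul_one] at h
    exact h.const_mul _
  · have h := hct 0
    unfold ct at h
    simpa using h

end Pool.Agent.MP_66cee2_co.B
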