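import Pool.Agent.MP_66cee2_co.B.Spec
import Pool.Agent.MP_66cee2_co.H17B.Cov

/-
The four classes cover half of a ball.
-/

namespace Pool.Agent.MP_66cee2_co.B

open MeasureTheory Set Filter Metric Topology Pool.Agent.MP_66cee2_co.X
  Pool.Agent.MP_66cee2_co.XI
open scoped ENNReal

theorem sLevB : SLevB := by
  intro d n p P u R hd hu hR
  have v0 : volume (ball (0 : E d) R) ≠ 0 := (measure_ball_pos volume _ hR).ne'
  have v1 : volume (ball (0 : E d) R) ≠ ∞ := measure_ball_lt_top.ne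
  obtain ⟨w, D, j, r, r', a1, a2, a3, a4, h⟩ :=
    H17B.cov p hd hu (ball 0 R) (ENNReal.half_lt_self v0 v1)
  refine ⟨w, D, j, r, r', a1, a2, a3, a4, ?_⟩
  have e : {x | ∃ c, x ∈ Den (Den (Pc u D (4 * D + p + 1) j (Cl c j w)) r) r'} ∩ ball 0 R =
      ⋃ c, Den (Den (Pc u D (4 * D + p + 1) j (Cl c j w)) r) r' ∩ ball 0 R := by
    ext x
    simp only [mem_inter_iff, mem_setOf_eq, mem_iUnion, exists_and_right]
  rw [e] at h
  have f : volume (⋃ c, Den (Den (Pc u D (4 * D + p + 1) j (Cl c j w)) r) r' ∩ ball 0 R) ≠ ∞ :=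
    ((measure_mono (iUnion_subset fun c => inter_subset_right)).trans_lt measure_ball_lt_top).ne
  have := ENNReal.toReal_mono f h.le
  rw [ENNReal.toReal_div] at this
  simp only [Measure.real]
  norm_num at this
  linarith

end Pool.Agent.MP_66cee2_co.B
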