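import Pool.Agent.MP_66cee2_co.B.Spec
import Pool.Agent.MP_66cee2_co.H53.Loc

/-
Explicit base: the local rank bound.
-/

namespace Pool.Agent.MP_66cee2_co.B

open MeasureTheory Set Pool.Agent.MP_66cee2_co.X

theorem sLoc : SLoc := by
  obtain ⟨c, hc, h⟩ := H53.locRank
  refine ⟨c, hc, fun d n ν _ β hβ => ?_⟩
  have h1 := h n (E d) ν β hβ
  rw [div_le_iff₀ (by positivity), mul_comm _ ((n : ℝ) + 2)] at h1
  exact h1

end Pool.Agent.MP_66cee2_co.B
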