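import Pool.Agent.MP_66cee2_co.B.Spec

/-
Explicit base: assembly from the rows.
-/

namespace Pool.Agent.MP_66cee2_co.B

open MeasureTheory Set Filter Metric Topology Polynomial Pool.Agent.MP_66cee2_co.X
  Pool.Agent.MP_66cee2_co.XI

theorem odd_of (hJ : D.SJ3) (hCov : SCov) (hFB : SFB) (hConv : SConv) (hDens : SDens) (hCh : SCh)
    (hGa : SGa1) (hNum : SNum) :
    ∀ᶠ l : ℕ in atTop, ∀ n : ℕ, (n : ℝ) ≤ (31 / 20) ^ (2 * l + 4) → D.SMd (2 * l + 3) n := by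
  obtain ⟨c, hc, hConv⟩ := hConv
  filter_upwards [hNum (c / 1024) (by positivity), eventually_ge_atTop 1] with l hl hl1 n hn P hP
  obtain ⟨u, hu⟩ := hJ _ n (by omega) P hP
  have hl0 : (0 : ℝ) < l := by exact_mod_cast hl1
  set a : ℝ := 22 / 25 * l with ha
  have ha0 : 0 < a := by positivity
  obtain ⟨R, hR, hD⟩ := hDens (2 * l + 3) (2 * a) (by positivity)
  obtain ⟨r, hr, hr'⟩ := hCh l a 4 ha0.le (by norm_num)
  have hm : ∀ k : ℝ, |√(a / Real.pi) * Phi (r.comp (X ^ 2)) k - Real.exp (-k ^ 2 / (4 * a))| ≤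
      mm l := hGa a _ r ha0 hr'
  have hm0 : 0 ≤ mm l := (abs_nonneg _).trans (hm 0)
  rcases hCov _ n (l + 2) P u R (by omega) (by omega) hP hu hR with h | ⟨Y, β, hY, hcov⟩
  · exact h
  exfalso
  set v := volume.real (ball (0 : E (2 * l + 3)) R) with hv
  have hv0 : 0 < v := ENNReal.toReal_pos (measure_ball_pos _ _ hR).ne' measure_ball_lt_top.ne
  have e1 := hD Y (fun c => ⟨(hY c).1.ms, (hY c).2.2⟩) hcov
  have e2 : ∀ k, c * ∫ z, (∫ x in Y k, G _ (2 * a) (x - z)) ^ 2 ≤ (n + 2) * (2 * mm l * v) := by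
    intro k
    refine (hConv _ n (Y k) (β k) a (hY k).1 ha0).trans (mul_le_mul_of_nonneg_left ?_
      (by positivity))
    refine (hFB l n (Y k) (β k) a (mm l) r (hY k).1 (hY k).2.1 ha0 hr hm).trans ?_
    exact mul_le_mul_of_nonneg_left (measureReal_mono (hY k).2.2 measure_ball_lt_top.ne)
      (by positivity)
  have e3 : c * v ≤ 128 * (4 * ((n + 2) * (2 * mm l * v))) := by
    refine (mul_le_mul_of_nonneg_left e1 hc.le).trans ?_
    rw [Fin.sum_univ_four]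
    linarith [e2 0, e2 1, e2 2, e2 3]
  have e4 : ((n : ℝ) + 2) * mm l < c / 1024 :=
    lt_of_le_of_lt (mul_le_mul_of_nonneg_right (by linarith) hm0) hl
  nlinarith [mul_lt_mul_of_pos_right e4 hv0]

theorem base_of (hT : D.STr) (hO : XT.RowODD)
    (h : ∀ᶠ l : ℕ in atTop, ∀ n : ℕ, (n : ℝ) ≤ (31 / 20) ^ (2 * l + 4) → D.SMd (2 * l + 3) n) :
    SBase := by
  obtain ⟨l₀, h⟩ := eventually_atTop.1 h
  refine ⟨2 * l₀ + 3, fun d n hd hn => ?_⟩
  obtain ⟨l, hl, e⟩ : ∃ l, l₀ ≤ l ∧ (d = 2 * l + 3 ∨ d = 2 * l + 3 + 1) :=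
    ⟨(d - 3) / 2, by omega, by omega⟩
  have hn' : (n : ℝ) ≤ (31 / 20) ^ (2 * l + 4) :=
    hn.trans (pow_le_pow_right₀ (by norm_num) (by omega))
  have h1 := hT _ n (by omega) (h l hl n hn')
  rcases e with rfl | rfl
  · exact h1
  · exact hO _ n (by omega) h1

end Pool.Agent.MP_66cee2_co.B
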