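import Pool.Agent.MP_66cee2_co.B.Spec
import Pool.Agent.MP_66cee2_co.H17B.Gap

/-
Density points of a set with almost no unit pair stay away from distance one.
-/

namespace Pool.Agent.MP_66cee2_co.B

open MeasureTheory Set Filter Metric Topology Pool.Agent.MP_66cee2_co.X
  Pool.Agent.MP_66cee2_co.XI

theorem sNoP : SNoP := by
  intro d A r _ hr h
  refine ⟨min (r / 2) 1, by positivity, fun x hx y hy => ?_⟩
  by_cases hne : x = y
  · subst hne
    simp
  · have g := H17B.gap h hr hx hy hne
    refine (min_le_left _ _).trans (g.trans ?_)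
    have e : ‖x - y‖ ^ 2 - 1 = (‖x - y‖ - 1) * (‖x - y‖ + 1) := by ring
    have n0 := norm_nonneg (x - y)
    rw [e, abs_mul, abs_of_nonneg (by linarith : 0 ≤ ‖x - y‖ + 1)]
    exact le_mul_of_one_le_right (abs_nonneg _) (by linarith)

end Pool.Agent.MP_66cee2_co.B
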