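import Pool.Agent.MP_66cee2_co.B.Spec
import Pool.Agent.MP_66cee2_co.H12.Gau

/-
Explicit base: the numerical inequality.
-/

namespace Pool.Agent.MP_66cee2_co.B

open Filter Topology

theorem sNum : SNum := by
  intro c hc
  have t1 := tendsto_self_mul_const_pow_of_lt_one (r := (961 / 962 : ℝ)) (by norm_num)
    (by norm_num)
  filter_upwards [t1.eventually (gt_mem_nhds (show (0 : ℝ) < c / 100 by positivity)),
    eventually_ge_atTop 2] with l b3 hl
  have l2 : (2 : ℝ) ≤ l := by exact_mod_cast hl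
  have a1 : (1 : ℝ) ≤ 22 / 25 * l := by linarith
  have s1 : √(22 / 25 * l / Real.pi) ≤ l := by
    refine Real.sqrt_le_iff.2 ⟨by linarith, ?_⟩
    rw [div_le_iff₀ Real.pi_pos]
    nlinarith [Real.pi_gt_three]
  have q1 : (1 : ℝ) ≤ (961 / 400) ^ l := one_le_pow₀ (by norm_num)
  have b1 : ((4 : ℝ) ^ l)⁻¹ * Real.exp (22 / 25 * l / 2 * ((4 + 4⁻¹) / 2 - 1)) ≤
      (200 / 481) ^ l := by
    have e : (22 / 25 * l / 2 * ((4 + 4⁻¹) / 2 - 1) : ℝ) = l * (99 / 200) := by ring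
    rw [e, Real.exp_nat_mul, ← inv_pow, ← mul_pow]
    refine pow_le_pow_left₀ (by positivity) ?_ _
    linarith [H12.num1]
  have b2 : Real.exp (-(22 / 25 * l)) ≤ (200 / 481) ^ l := by
    have e : (-(22 / 25 * l) : ℝ) = l * -(22 / 25) := by ring
    rw [e, Real.exp_nat_mul]
    exact pow_le_pow_left₀ (Real.exp_pos _).le H12.num2 _
  have b5 : 2 * Real.exp (-(22 / 25 * l)) / (22 / 25 * l) ≤ 2 * Real.exp (-(22 / 25 * l)) :=
    div_le_self (by positivity) a1
  have e1 : ((961 / 962 : ℝ)) ^ l = (200 / 481) ^ l * (961 / 400) ^ l := by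
    rw [← mul_pow]; norm_num
  have e2 : ((31 / 20 : ℝ)) ^ (2 * l + 4) = (961 / 400) ^ l * (31 / 20) ^ 4 := by
    rw [pow_add, pow_mul]; norm_num
  rw [e1] at b3
  have b4 : mm l ≤ l * (8 * (200 / 481) ^ l) :=
    mul_le_mul s1 (by linarith) (by positivity) (by linarith)
  have b6 : (31 / 20 : ℝ) ^ (2 * l + 4) + 2 ≤ 8 * (961 / 400) ^ l := by
    rw [e2]
    nlinarith
  have m0 : 0 ≤ mm l := by
    unfold mm
    positivity
  have p0 : (0 : ℝ) ≤ l * ((200 / 481) ^ l * (961 / 400) ^ l) := by positivity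
  refine (mul_le_mul b6 b4 m0 (by positivity)).trans_lt ?_
  nlinarith

end Pool.Agent.MP_66cee2_co.B
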