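import Pool.Agent.MP_66cee2_co.X.Defs

/-
Explicit base: the weighted autocorrelation is positive definite.
-/

namespace Pool.Agent.MP_66cee2_co.B.H37

open MeasureTheory Set ProbabilityTheory Pool.Agent.MP_66cee2_co.X
open scoped RealInnerProductSpace

theorem intg_bd {X : Type} [MeasurableSpace X] (μ : Measure X) [IsFiniteMeasure μ] {f : X → ℝ}
    (hf : Measurable f) (C : ℝ) (h : ∀ x, |f x| ≤ C) : Integrable f μ :=
  (integrable_const C).mono' hf.aestronglyMeasurable (ae_of_all _ h)

/-- a Gaussian as a mean of cosines. -/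
theorem gauss_cos {n : ℕ} (t : E n) (θ : ℝ) :
    ∫ z, Real.cos (⟪z, t⟫ + θ) ∂(stdGaussian (E n)) = Real.exp (-(‖t‖ ^ 2 / 2)) * Real.cos θ := by
  have h := charFun_stdGaussian t
  rw [charFun_apply] at h
  have hi : Integrable (fun z : E n => Complex.exp ((⟪z, t⟫ : ℝ) * Complex.I) *
      Complex.exp (θ * Complex.I)) (stdGaussian (E n)) := by
    refine (integrable_const (1 : ℝ)).mono' (Continuous.aestronglyMeasurable (by fun_prop))
      (ae_of_all _ fun z => ?_)
    rw [norm_mul, Complex.norm_exp_ofReal_mul_I, Complex.norm_exp_ofReal_mul_I, one_mul]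
  have h2 := integral_re hi
  rw [integral_mul_const, h] at h2
  have e1 : ∀ z : E n, RCLike.re (Complex.exp ((⟪z, t⟫ : ℝ) * Complex.I) *
      Complex.exp (θ * Complex.I)) = Real.cos (⟪z, t⟫ + θ) := by
    intro z
    rw [← Complex.exp_add, ← add_mul, ← Complex.ofReal_add, RCLike.re_to_complex,
      Complex.exp_ofReal_mul_I_re]
  simp only [e1] at h2
  rw [h2]
  have e2 : (-(‖t‖ : ℂ) ^ 2 / 2) = ((-(‖t‖ ^ 2 / 2) : ℝ) : ℂ) := by push_cast; ring
  rw [e2, ← Complex.ofReal_exp, RCLike.re_to_complex, Complex.re_ofReal_mul,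
    Complex.exp_ofReal_mul_I_re]

/-- the cosine kernel is positive. -/
theorem cos_pos {X : Type} [MeasurableSpace X] (ν : Measure X) [IsFiniteMeasure ν] {f : X → ℝ}
    (hf : Measurable f) : 0 ≤ ∫ p : X × X, Real.cos (f p.1 - f p.2) ∂(ν.prod ν) := by
  have hc : Integrable (fun x => Real.cos (f x)) ν :=
    intg_bd ν (by fun_prop) 1 fun x => Real.abs_cos_le_one _
  have hs : Integrable (fun x => Real.sin (f x)) ν :=
    intg_bd ν (by fun_prop) 1 fun x => Real.abs_sin_le_one _
  simp only [Real.cos_sub]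
  rw [integral_add (hc.mul_prod hc) (hs.mul_prod hs),
    integral_prod_mul (fun x => Real.cos (f x)) (fun x => Real.cos (f x)),
    integral_prod_mul (fun x => Real.sin (f x)) (fun x => Real.sin (f x))]
  exact add_nonneg (mul_self_nonneg _) (mul_self_nonneg _)

/-- the Gaussian kernel times the cosine kernel is positive. -/
theorem ker_pos {n : ℕ} {X : Type} [MeasurableSpace X] (ν : Measure X) [IsFiniteMeasure ν]
    {b : X → E n} (hb : Measurable b) {θ : X → ℝ} (hθ : Measurable θ) {lam : ℝ} (hl : 0 ≤ lam) :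
    0 ≤ ∫ p : X × X, Real.exp (-(lam * ‖b p.1 - b p.2‖ ^ 2)) * Real.cos (θ p.1 - θ p.2)
      ∂(ν.prod ν) := by
  set s : ℝ := √(2 * lam) with hs
  have e : ∀ p : X × X, Real.exp (-(lam * ‖b p.1 - b p.2‖ ^ 2)) * Real.cos (θ p.1 - θ p.2) =
      ∫ z, Real.cos ((⟪z, s • b p.1⟫ + θ p.1) - (⟪z, s • b p.2⟫ + θ p.2))
        ∂(stdGaussian (E n)) := by
    intro p
    have h := gauss_cos (s • (b p.1 - b p.2)) (θ p.1 - θ p.2)
    have e1 : ‖s • (b p.1 - b p.2)‖ ^ 2 / 2 = lam * ‖b p.1 - b p.2‖ ^ 2 := by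
      rw [norm_smul, mul_pow, Real.norm_eq_abs, sq_abs, hs, Real.sq_sqrt (by positivity)]
      ring
    rw [e1] at h
    rw [← h]
    refine integral_congr_ae (ae_of_all _ fun z => ?_)
    simp only [smul_sub, inner_sub_right]
    ring_nf
  simp only [e]
  rw [integral_integral_swap]
  · refine integral_nonneg fun z => ?_
    exact cos_pos ν (f := fun x => ⟪z, s • b x⟫ + θ x) (by fun_prop)
  · refine intg_bd _ ?_ 1 fun q => Real.abs_cos_le_one _
    unfold Function.uncurry
    fun_prop

/-- the weighted autocorrelation. -/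
noncomputable def HH {d n : ℕ} (Y : Set (E d)) (b : E d → E n) (lam : ℝ) (w : E d) : ℝ :=
  ∫ x, Y.indicator (fun _ => (1 : ℝ)) x * Y.indicator (fun _ => (1 : ℝ)) (x + w) *
    Real.exp (-(lam * ‖b x - b (x + w)‖ ^ 2))

/-- unfolding of an autocorrelation with a bounded kernel. -/
theorem unfold_gen {d : ℕ} {Y : Set (E d)} (hY : MeasurableSet Y) (hf : volume Y ≠ ⊤)
    {k : E d × E d → ℝ} (hk : Measurable k) (C : ℝ) (hC : ∀ p, |k p| ≤ C) :
    Integrable (fun w : E d => ∫ x, Y.indicator (fun _ => (1 : ℝ)) x *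
      Y.indicator (fun _ => (1 : ℝ)) (x + w) * k (x, x + w)) ∧
    ∫ w : E d, ∫ x, Y.indicator (fun _ => (1 : ℝ)) x *
      Y.indicator (fun _ => (1 : ℝ)) (x + w) * k (x, x + w) =
      ∫ p, k p ∂((volume.restrict Y).prod (volume.restrict Y)) := by
  have : IsFiniteMeasure (volume.restrict Y) := isFiniteMeasure_restrict.2 hf
  set F : E d × E d → ℝ := (Y ×ˢ Y).indicator k with hF
  have e : ∀ x y : E d, Y.indicator (fun _ => (1 : ℝ)) x * Y.indicator (fun _ => (1 : ℝ)) y *
      k (x, y) = F (x, y) := by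
    intro x y
    by_cases hx : x ∈ Y <;> by_cases hy : y ∈ Y <;> simp [hF, hx, hy]
  have hI : Integrable F ((volume : Measure (E d)).prod volume) := by
    rw [hF, integrable_indicator_iff (hY.prod hY), IntegrableOn, ← Measure.prod_restrict]
    exact intg_bd _ hk C hC
  have hm := measurePreserving_prod_add (volume : Measure (E d)) (volume : Measure (E d))
  have hI2 : Integrable (fun z : E d × E d => F (z.1, z.1 + z.2))
      ((volume : Measure (E d)).prod volume) := hm.integrable_comp_of_integrable hI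
  simp only [e]
  refine ⟨hI2.integral_prod_right, ?_⟩
  rw [← integral_prod_symm _ hI2, Measure.prod_restrict, ← integral_indicator (hY.prod hY)]
  exact hm.integral_comp (MeasurableEquiv.shearAddRight (E d)).measurableEmbedding F

theorem meas_ker {d n : ℕ} {b : E d → E n} (hb : Measurable b) (lam : ℝ) :
    Measurable fun p : E d × E d => Real.exp (-(lam * ‖b p.1 - b p.2‖ ^ 2)) := by
  fun_prop

theorem ker_le {n : ℕ} {lam : ℝ} (hl : 0 ≤ lam) (v : E n) :
    |Real.exp (-(lam * ‖v‖ ^ 2))| ≤ 1 := by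
  rw [abs_of_pos (Real.exp_pos _), Real.exp_le_one_iff, neg_nonpos]
  positivity

/-- unfolding against a bounded test function. -/
theorem unfold_HH {d n : ℕ} {Y : Set (E d)} (hY : MeasurableSet Y) (hf : volume Y ≠ ⊤)
    {b : E d → E n} (hb : Measurable b) {lam : ℝ} (hl : 0 ≤ lam) {g : E d → ℝ}
    (hg : Measurable g) (C : ℝ) (hC : ∀ w, |g w| ≤ C) :
    ∫ w, HH Y b lam w * g w = ∫ p : E d × E d, Real.exp (-(lam * ‖b p.1 - b p.2‖ ^ 2)) *
      g (p.2 - p.1) ∂((volume.restrict Y).prod (volume.restrict Y)) := by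
  have h := (unfold_gen hY hf (k := fun p : E d × E d =>
    Real.exp (-(lam * ‖b p.1 - b p.2‖ ^ 2)) * g (p.2 - p.1))
    ((meas_ker hb lam).mul (by fun_prop)) C (fun p => by
      rw [abs_mul]
      exact (mul_le_of_le_one_left (abs_nonneg _) (ker_le hl _)).trans (hC _))).2
  rw [← h]
  refine integral_congr_ae (ae_of_all _ fun w => ?_)
  simp only [HH, add_sub_cancel_left, ← integral_mul_const, mul_assoc]

/-- the weighted autocorrelation is integrable, bounded, even and positive definite. -/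
theorem pd {d n : ℕ} {Y : Set (E d)} (hY : MeasurableSet Y) (hf : volume Y ≠ ⊤)
    {b : E d → E n} (hb : Measurable b) {lam : ℝ} (hl : 0 ≤ lam) :
    Integrable (HH Y b lam) ∧ (∀ w, |HH Y b lam w| ≤ volume.real Y) ∧
      (∀ w, HH Y b lam (-w) = HH Y b lam w) ∧
      ∀ ξ : E d, 0 ≤ ∫ w, HH Y b lam w * Real.cos ⟪ξ, w⟫ := by
  have : IsFiniteMeasure (volume.restrict Y) := isFiniteMeasure_restrict.2 hf
  refine ⟨(unfold_gen hY hf (meas_ker hb lam) 1 fun p => ker_le hl _).1, fun w => ?_,
    fun w => ?_, fun ξ => ?_⟩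
  · have hi : Integrable (Y.indicator fun _ => (1 : ℝ)) :=
      (integrable_indicator_iff hY).2 (integrable_const _)
    have h1 : ∫ x, Y.indicator (fun _ => (1 : ℝ)) x = volume.real Y := by
      rw [integral_indicator hY]; simp
    rw [← h1, ← Real.norm_eq_abs]
    refine norm_integral_le_of_norm_le hi (ae_of_all _ fun x => ?_)
    have := ker_le hl (b x - b (x + w))
    by_cases hx : x ∈ Y <;> by_cases hy : x + w ∈ Y <;> simp_all
  · unfold HH
    rw [← integral_add_right_eq_self _ w]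
    refine integral_congr_ae (ae_of_all _ fun x => ?_)
    simp only [add_neg_cancel_right]
    rw [norm_sub_rev (b (x + w)), mul_comm (Y.indicator _ (x + w))]
  · rw [unfold_HH hY hf hb hl (g := fun w => Real.cos ⟪ξ, w⟫) (by fun_prop) 1
      fun w => Real.abs_cos_le_one _]
    have h := ker_pos (volume.restrict Y) hb (θ := fun x : E d => -⟪ξ, x⟫) (by fun_prop) hl
    refine h.trans_eq (integral_congr_ae (ae_of_all _ fun p => ?_))
    simp only [inner_sub_right]
    ring_nf

end Pool.Agent.MP_66cee2_co.B.H37
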