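import Pool.Agent.MP_66cee2_co.B.Spec
import Pool.Agent.MP_66cee2_co.B.H37PD

/-
Explicit base: positivity of the double integral.
-/

namespace Pool.Agent.MP_66cee2_co.B

open MeasureTheory Set Pool.Agent.MP_66cee2_co.X
open scoped RealInnerProductSpace

theorem sPos : SPos := by
  intro d n Y β lam ξ hY hl
  have : IsFiniteMeasure (volume.restrict Y) :=
    isFiniteMeasure_restrict.2 hY.bdd.measure_lt_top.ne
  have hb := hY.meas
  have h := H37.ker_pos (volume.restrict Y) hb (θ := fun x : E d => -⟪ξ, x⟫) (by fun_prop) hl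
  rw [integral_prod] at h
  · refine h.trans_eq (integral_congr_ae (ae_of_all _ fun x => ?_))
    refine integral_congr_ae (ae_of_all _ fun y => ?_)
    simp only [inner_sub_right]
    rw [mul_comm, neg_mul, neg_sub_neg]
  · refine H37.intg_bd _ ((H37.meas_ker hb lam).mul (by fun_prop)) 1 fun p => ?_
    rw [abs_mul]
    exact mul_le_one₀ (H37.ker_le hl _) (abs_nonneg _) (Real.abs_cos_le_one _)

end Pool.Agent.MP_66cee2_co.B
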