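import Pool.Agent.MP_66cee2_co.B.Spec

/-
Explicit base: bounds for the kernel.
-/

namespace Pool.Agent.MP_66cee2_co.B

namespace Psix

theorem lo (x y : ℝ) : Real.exp x * (y - x) ≤ Real.exp y - Real.exp x := by
  have h := mul_le_mul_of_nonneg_left (Real.add_one_le_exp (y - x)) (Real.exp_pos x).le
  rw [← Real.exp_add, add_sub_cancel] at h
  linarith

theorem up {x y : ℝ} (h : x ≤ y) (hy : y ≤ 0) : (Real.exp y - Real.exp x) ^ 2 ≤ (y - x) ^ 2 := by
  refine pow_le_pow_left₀ (sub_nonneg.2 (Real.exp_le_exp.2 h)) ?_ 2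
  nlinarith [lo y x, mul_le_mul_of_nonneg_right (Real.exp_le_one_iff.2 hy) (sub_nonneg.2 h)]

theorem dn {x y : ℝ} (h : x ≤ y) (hx : -6 ≤ x) :
    (y - x) ^ 2 ≤ Real.exp 12 * (Real.exp y - Real.exp x) ^ 2 := by
  have e : Real.exp 12 = Real.exp 6 ^ 2 := by rw [← Real.exp_nat_mul]; norm_num
  rw [e, ← mul_pow]
  refine pow_le_pow_left₀ (sub_nonneg.2 h) ?_ 2
  have a1 : 1 ≤ Real.exp 6 * Real.exp x := by
    rw [← Real.exp_add]
    exact Real.one_le_exp (by linarith)
  have a2 := mul_le_mul_of_nonneg_left (lo x y) (Real.exp_pos 6).le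
  nlinarith [mul_le_mul_of_nonneg_right a1 (sub_nonneg.2 h)]

end Psix

open Psix

theorem sPsi : SPsi := by
  refine ⟨by unfold psi; fun_prop, fun s => sq_nonneg _, fun s hs => ⟨?_, ?_⟩, fun s hs => ?_,
    fun s hs h6 => ?_⟩
  · have a1 := Real.exp_le_one_iff.2 (neg_nonpos.2 hs)
    have a2 := Real.exp_le_one_iff.2 (show (-1 : ℝ) ≤ 0 by norm_num)
    exact (sq_le_one_iff_abs_le_one _).2
      (abs_le.2 ⟨by linarith [Real.exp_pos (-s)], by linarith [Real.exp_pos (-1)]⟩)
  · unfold psi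
    rcases le_total (-1) (-s) with h | h
    · linarith [up h (neg_nonpos.2 hs)]
    · linarith [up h (by norm_num)]
  · have a1 := Real.exp_neg_one_gt_d9
    have a2 := Real.exp_neg_one_lt_d9
    have a3 : Real.exp (-s) ^ 2 ≤ Real.exp (-1) ^ 3 := by
      rw [← Real.exp_nat_mul, ← Real.exp_nat_mul]
      exact Real.exp_le_exp.2 (by push_cast; linarith)
    have a4 := pow_le_pow_left₀ (Real.exp_pos (-1)).le a2.le 3
    have a5 : Real.exp (-s) ≤ 0.226 :=
      (abs_le_of_sq_le_sq' (by linarith) (by norm_num)).2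
    unfold psi
    nlinarith
  · unfold psi
    rcases le_total (-1) (-s) with h | h
    · linarith [dn h (by norm_num)]
    · linarith [dn h (by linarith)]

end Pool.Agent.MP_66cee2_co.B
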