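import Pool.Agent.MP_66cee2_co.B.Spec

/-
Explicit base: the correlation with the test function is the transform of a signed measure.
-/

namespace Pool.Agent.MP_66cee2_co.B

open MeasureTheory Set Filter Metric Topology Polynomial Pool.Agent.MP_66cee2_co.X
  Pool.Agent.MP_66cee2_co.XI
open scoped ENNReal RealInnerProductSpace

namespace RepX

variable {d n : ℕ}

theorem k_cont (lam : ℝ) : Continuous fun s : ℝ => Real.exp (-lam * s) := by fun_prop

theorem k_bd {lam : ℝ} (hl : 0 ≤ lam) (s : ℝ) (hs : 0 ≤ s) : |Real.exp (-lam * s)| ≤ 1 := by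
  rw [abs_of_pos (Real.exp_pos _), Real.exp_le_one_iff]
  nlinarith [mul_nonneg hl hs]

theorem pd (h2 : SHk) (h3 : SPos) {Y : Set (E d)} {β : E d → E n} (hY : Pre Y β) {lam : ℝ}
    (hl : 0 ≤ lam) : PD (Hk Y β fun s => Real.exp (-lam * s)) (volume.real Y) := by
  obtain ⟨-, a2, a3, a4, a5⟩ := h2 d n Y β _ hY (k_cont lam) (k_bd hl)
  refine ⟨a2, a3, a4, fun ξ => ?_⟩
  have h := a5 (fun w => Real.cos ⟪ξ, w⟫) (by fun_prop)
  have e : ct (Hk Y β fun s => Real.exp (-lam * s)) ξ =
      ∫ w, Real.cos ⟪ξ, w⟫ * Hk Y β (fun s => Real.exp (-lam * s)) w := by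
    unfold ct
    exact integral_congr_ae (Eventually.of_forall fun w => mul_comm _ _)
  rw [e, h]
  exact h3 d n Y β lam ξ hY hl

theorem intOn {Y : Set (E d)} {β : E d → E n} (hY : Pre Y β) {lam : ℝ} (hl : 0 ≤ lam) (w : E d) :
    IntegrableOn (fun x => Real.exp (-lam * ‖β x - β (x + w)‖ ^ 2)) (Y ∩ {x | x + w ∈ Y}) := by
  have hm : Measurable fun x => Real.exp (-lam * ‖β x - β (x + w)‖ ^ 2) :=
    Real.measurable_exp.comp
      (((hY.meas.sub (hY.meas.comp (measurable_add_const w))).norm.pow_const 2).const_mul _)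
  have hf : volume (Y ∩ {x | x + w ∈ Y}) ≠ ⊤ :=
    ((measure_mono inter_subset_left).trans_lt hY.bdd.measure_lt_top).ne
  exact Measure.integrableOn_of_bounded (M := 1) hf hm.aestronglyMeasurable
    (Eventually.of_forall fun x => k_bd hl _ (sq_nonneg _))

theorem psi_eq (s : ℝ) : psi s = Real.exp (-2 * s) - 2 * Real.exp (-1) * Real.exp (-1 * s) +
    Real.exp (-1) ^ 2 * Real.exp (-0 * s) := by
  have e1 : Real.exp (-2 * s) = Real.exp (-s) ^ 2 := by
    rw [sq, ← Real.exp_add]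
    ring_nf
  rw [e1, neg_one_mul, neg_zero, zero_mul, Real.exp_zero, psi]
  ring

theorem int3 {X : Type} [MeasurableSpace X] {μ : Measure X} {f g h F : X → ℝ} (a b : ℝ)
    (hf : Integrable f μ) (hg : Integrable g μ) (hh : Integrable h μ)
    (e : ∀ x, F x = f x - a * g x + b * h x) :
    ∫ x, F x ∂μ = ∫ x, f x ∂μ - a * ∫ x, g x ∂μ + b * ∫ x, h x ∂μ := by
  have i1 : Integrable (fun x => f x - a * g x) μ := hf.sub (hg.const_mul a)
  rw [funext e, integral_add i1 (hh.const_mul b), integral_sub hf (hg.const_mul a),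
    integral_const_mul, integral_const_mul]

theorem hk_eq {Y : Set (E d)} {β : E d → E n} (hY : Pre Y β) (w : E d) :
    Hk Y β psi w = Hk Y β (fun s => Real.exp (-2 * s)) w -
      2 * Real.exp (-1) * Hk Y β (fun s => Real.exp (-1 * s)) w +
      Real.exp (-1) ^ 2 * Hk Y β (fun s => Real.exp (-0 * s)) w := by
  exact int3 _ _ (intOn hY (lam := 2) (by norm_num) w) (intOn hY (lam := 1) (by norm_num) w)
    (intOn hY (lam := 0) le_rfl w) fun x => psi_eq _

theorem ct_cont {φ : E d → ℝ} (hφ : Integrable φ) : Continuous (ct φ) := by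
  unfold ct
  refine continuous_of_dominated (bound := fun w => ‖φ w‖) (fun ξ => ?_) (fun ξ => ?_) hφ.norm ?_
  · exact hφ.1.mul (Continuous.aestronglyMeasurable (by fun_prop))
  · refine Eventually.of_forall fun w => ?_
    rw [norm_mul]
    exact mul_le_of_le_one_right (norm_nonneg _) (Real.abs_cos_le_one _)
  · exact Eventually.of_forall fun w => by fun_prop

theorem ct_bd {φ : E d → ℝ} (hφ : Integrable φ) (ξ : E d) : ‖ct φ ξ‖ ≤ ∫ w, ‖φ w‖ := by
  unfold ct
  refine norm_integral_le_of_norm_le hφ.norm (Eventually.of_forall fun w => ?_)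
  rw [norm_mul]
  exact mul_le_of_le_one_right (norm_nonneg _) (Real.abs_cos_le_one _)

theorem ct_int {φ : E d → ℝ} (hφ : Integrable φ) (μ : Measure (E d)) [IsFiniteMeasure μ] :
    Integrable (ct φ) μ :=
  (integrable_const _).mono' (ct_cont hφ).aestronglyMeasurable (Eventually.of_forall (ct_bd hφ))

theorem mul_int {φ H : E d → ℝ} {A : ℝ} (hφ : Integrable φ) (hH : PD H A) :
    Integrable fun w => φ w * H w :=
  hφ.mul_bdd (c := A) hH.int.1 (Eventually.of_forall hH.bd)

end RepX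

theorem sRep : SBo → SHk → SPos → SRep := by
  intro h1 h2 h3 d n Y β hY
  have p0 := RepX.pd h2 h3 hY (lam := 0) le_rfl
  have p1 := RepX.pd h2 h3 hY (lam := 1) (by norm_num)
  have p2 := RepX.pd h2 h3 hY (lam := 2) (by norm_num)
  obtain ⟨μ0, r0⟩ := h1 d _ _ p0
  obtain ⟨μ1, r1⟩ := h1 d _ _ p1
  obtain ⟨μ2, r2⟩ := h1 d _ _ p2
  have f0 := r0.fin₁
  have f1 := r1.fin₁
  have f2 := r2.fin₁
  have he : 0 < Real.exp (-1) := Real.exp_pos _
  have he' : Real.exp (-1) < 2 / 5 := Real.exp_neg_one_lt_d9.trans (by norm_num)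
  obtain ⟨c0, hc0⟩ : ∃ c : NNReal, (c : ℝ) = Real.exp (-1) ^ 2 := ⟨⟨_, by positivity⟩, rfl⟩
  obtain ⟨c1, hc1⟩ : ∃ c : NNReal, (c : ℝ) = 2 * Real.exp (-1) := ⟨⟨_, by positivity⟩, rfl⟩
  refine ⟨μ2 + c0 • μ0, c1 • μ1, inferInstance, inferInstance, ?_, fun φ hφ => ?_⟩
  · have m0 := r0.mass
    have m1 := r1.mass
    have m2 := r2.mass
    rw [measureReal_zero_apply, add_zero] at m0 m1 m2
    rw [measureReal_add_apply, measureReal_nnreal_smul_apply, measureReal_nnreal_smul_apply,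
      hc0, hc1]
    have hV : 0 ≤ volume.real Y := measureReal_nonneg
    have b0 := mul_le_mul_of_nonneg_left m0 (sq_nonneg (Real.exp (-1)))
    have b1 := mul_le_mul_of_nonneg_left m1 (show 0 ≤ 2 * Real.exp (-1) by positivity)
    have b2 : Real.exp (-1) ^ 2 + 2 * Real.exp (-1) ≤ 1 := by nlinarith
    have b3 := mul_le_mul_of_nonneg_right b2 hV
    linarith
  · have w0 := r0.weak φ hφ
    have w1 := r1.weak φ hφ
    have w2 := r2.weak φ hφ
    rw [integral_zero_measure, sub_zero] at w0 w1 w2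
    have e := RepX.int3 (F := fun w => φ w * Hk Y β psi w) (2 * Real.exp (-1))
      (Real.exp (-1) ^ 2) (RepX.mul_int hφ p2) (RepX.mul_int hφ p1) (RepX.mul_int hφ p0)
      fun w => by
        rw [RepX.hk_eq hY w]
        ring
    rw [integral_add_measure (RepX.ct_int hφ _) (RepX.ct_int hφ _), integral_smul_nnreal_measure,
      integral_smul_nnreal_measure, NNReal.smul_def, NNReal.smul_def, smul_eq_mul, smul_eq_mul,
      hc0, hc1, e, w0, w1, w2]
    ring

end Pool.Agent.MP_66cee2_co.B
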