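import Pool.Agent.MP_66cee2_co.B.Spec

/-
Explicit base: a measurable choice of sign.
-/

namespace Pool.Agent.MP_66cee2_co.B

open MeasureTheory Set Filter Metric Topology Pool.Agent.MP_66cee2_co.X
  Pool.Agent.MP_66cee2_co.XI

namespace Sgnx

theorem contOn {d n p : ℕ} {Z : Set (E d)} {V : E d → Ix n → ℝ} (hp : 1 ≤ p) (h : Flat Z V p)
    (a b : Ix n) : ContinuousOn (fun x => V x a * V x b) Z := by
  obtain ⟨C, r, hr, hC⟩ := h.hol
  intro x hx
  rw [ContinuousWithinAt, tendsto_iff_dist_tendsto_zero]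
  have h1 : Tendsto (fun y : E d => C * ‖y - x‖ ^ p) (𝓝[Z] x) (𝓝 0) := by
    have : Continuous fun y : E d => C * ‖y - x‖ ^ p := by fun_prop
    have h2 := (this.tendsto x).mono_left (nhdsWithin_le_nhds (s := Z))
    simpa [zero_pow (by omega : p ≠ 0)] using h2
  refine squeeze_zero' (Eventually.of_forall fun _ => dist_nonneg) ?_ h1
  have h3 : ∀ᶠ y in 𝓝[Z] x, y ∈ ball x r := mem_nhdsWithin_of_mem_nhds (ball_mem_nhds x hr)
  filter_upwards [h3, self_mem_nhdsWithin] with y hy hyZ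
  rw [Real.dist_eq]
  exact hC y hyZ x hx (by rw [← dist_eq_norm]; exact (mem_ball.1 hy).le) a b

theorem exM {d n p : ℕ} {Z : Set (E d)} {V : E d → Ix n → ℝ} (hp : 1 ≤ p) (hZ : IsClosed Z)
    (h : Flat Z V p) : ∃ M : Ix n → Ix n → E d → ℝ, (∀ a b, Measurable (M a b)) ∧
      ∀ x ∈ Z, ∀ a b, M a b x = V x a * V x b := by
  classical
  refine ⟨fun a b => Z.piecewise (fun x => V x a * V x b) fun _ => 0, fun a b => ?_,
    fun x hx a b => by simp [hx]⟩
  exact (contOn hp h a b).measurable_piecewise continuousOn_const hZ.measurableSet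

theorem sel {n : ℕ} (v : Fin n → ℝ) (hv : ∃ a, v a ≠ 0) : ∃ ε : ℝ, ε ^ 2 = 1 ∧ ∀ i,
    (∑ a, if v a * v a ≠ 0 ∧ ∀ b, b < a → v b * v b = 0 then v a * v i / √(v a * v a) else 0) =
      ε * v i := by
  classical
  obtain ⟨a, ha, hm⟩ := (wellFounded_lt (α := Fin n)).has_min {a | v a ≠ 0} hv
  have ha' : v a ≠ 0 := ha
  have hab : |v a| ≠ 0 := abs_ne_zero.2 ha'
  refine ⟨v a / |v a|, by rw [div_pow, sq_abs, div_self (pow_ne_zero 2 ha')], fun i => ?_⟩
  rw [Finset.sum_eq_single a]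
  · rw [if_pos, Real.sqrt_mul_self_eq_abs]
    · ring
    · refine ⟨mul_ne_zero ha' ha', fun b hb => ?_⟩
      by_contra hn
      exact hm b (fun h0 => hn (by rw [h0, mul_zero])) hb
  · intro b _ hb
    rw [if_neg]
    rintro ⟨h1, h2⟩
    rcases lt_or_gt_of_ne hb with h | h
    · exact hm b (fun h0 => h1 (by rw [h0, mul_zero])) h
    · exact mul_ne_zero ha' ha' (h2 a h)
  · simp

end Sgnx

open Sgnx in
theorem sSgn : SSgn := by
  classical
  intro d n p Z V hp hZ hF hV
  obtain ⟨M, hM, hMZ⟩ := exM hp hZ hF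
  rcases hV with h0 | ⟨g, rfl⟩
  · have hlz : ∀ x y, lz (V x) (V y) = 2 * ∑ i, V x (Sum.inl i) * V y (Sum.inl i) := by
      intro x y
      have h1 : V x (Sum.inr true) = 0 := h0 x
      have h2 : V y (Sum.inr true) = 0 := h0 y
      rw [lz_eq, h1, h2]
      ring
    refine ⟨fun x => WithLp.toLp 2 fun i => ∑ a : Fin n,
      if M (Sum.inl a) (Sum.inl a) x ≠ 0 ∧ ∀ b, b < a → M (Sum.inl b) (Sum.inl b) x = 0 then
        M (Sum.inl a) (Sum.inl i) x / √(M (Sum.inl a) (Sum.inl a) x) else 0, ?_, ?_⟩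
    · refine (WithLp.measurable_toLp 2 _).comp (measurable_pi_lambda _ fun i => ?_)
      refine Finset.measurable_sum _ fun a _ => Measurable.ite ?_
        ((hM _ _).div (hM _ _).sqrt) measurable_const
      refine MeasurableSet.inter (s₁ := {x | M (Sum.inl a) (Sum.inl a) x ≠ 0})
        (s₂ := {x | ∀ b, b < a → M (Sum.inl b) (Sum.inl b) x = 0})
        ((hM _ _) (measurableSet_singleton 0)).compl ?_
      have : {x | ∀ b, b < a → M (Sum.inl b) (Sum.inl b) x = 0} =
          ⋂ b, ⋂ (_ : b < a), M (Sum.inl b) (Sum.inl b) ⁻¹' {0} := by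
        ext x
        simp
      rw [this]
      exact MeasurableSet.iInter fun b => MeasurableSet.iInter fun _ =>
        (hM _ _) (measurableSet_singleton 0)
    · have key : ∀ x ∈ Z, ∃ ε : ℝ, ε ^ 2 = 1 ∧ ∀ i, (∑ a : Fin n,
          if M (Sum.inl a) (Sum.inl a) x ≠ 0 ∧ ∀ b, b < a → M (Sum.inl b) (Sum.inl b) x = 0 then
            M (Sum.inl a) (Sum.inl i) x / √(M (Sum.inl a) (Sum.inl a) x) else 0) =
          ε * V x (Sum.inl i) := by
        intro x hx
        simp only [hMZ x hx]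
        refine sel (fun i => V x (Sum.inl i)) ?_
        by_contra hn
        push Not at hn
        have := hF.one x hx
        rw [hlz] at this
        simp [hn] at this
      intro x hx y hy
      obtain ⟨ε, hε, h1⟩ := key x hx
      obtain ⟨δ, hδ, h2⟩ := key y hy
      have hx1 := hF.one x hx
      have hy1 := hF.one y hy
      rw [hlz] at hx1 hy1 ⊢
      rw [EuclideanSpace.real_norm_sq_eq]
      simp only [PiLp.sub_apply, h1, h2]
      have : ∑ i, (ε * V x (Sum.inl i) - δ * V y (Sum.inl i)) ^ 2 =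
          ε ^ 2 * ∑ i, V x (Sum.inl i) * V x (Sum.inl i) +
            δ ^ 2 * ∑ i, V y (Sum.inl i) * V y (Sum.inl i) -
            2 * (ε * δ) * ∑ i, V x (Sum.inl i) * V y (Sum.inl i) := by
        simp only [Finset.mul_sum, ← Finset.sum_add_distrib, ← Finset.sum_sub_distrib]
        exact Finset.sum_congr rfl fun i _ => by ring
      rw [this, hε, hδ]
      have h3 : 1 - (1 * ∑ i, V x (Sum.inl i) * V x (Sum.inl i) +
          1 * ∑ i, V y (Sum.inl i) * V y (Sum.inl i) -
          2 * (ε * δ) * ∑ i, V x (Sum.inl i) * V y (Sum.inl i)) =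
          (ε * δ) * (2 * ∑ i, V x (Sum.inl i) * V y (Sum.inl i)) := by linarith
      rw [h3, mul_pow, mul_pow ε, hε, hδ]
      ring
  · refine ⟨fun x => WithLp.toLp 2 fun i => M (Sum.inl i) sI x,
      (WithLp.measurable_toLp 2 _).comp (measurable_pi_lambda _ fun i => hM _ _), ?_⟩
    have key : ∀ x ∈ Z, (WithLp.toLp 2 fun i => M (Sum.inl i) sI x : E n) = g x := by
      intro x hx
      ext i
      simp [hMZ x hx, lift]
    intro x hx y hy
    simp only [key x hx, key y hy, lz_lift]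

end Pool.Agent.MP_66cee2_co.B
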