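import Pool.Agent.MP_66cee2_co.B.Spec

/-
Explicit base: the ball integrals of the correlation vanish to order `p` at radius one.
-/

namespace Pool.Agent.MP_66cee2_co.B

open MeasureTheory Set Filter Metric Topology Polynomial Pool.Agent.MP_66cee2_co.X
  Pool.Agent.MP_66cee2_co.XI
open scoped ENNReal RealInnerProductSpace

theorem van_pt (hP : SPsi) {d n p : ℕ} {Y : Set (E d)} {β : E d → E n} (hY : Pre Y β) {B : ℝ}
    (hB : ∀ x ∈ Y, ∀ y ∈ Y, (1 - ‖β x - β y‖ ^ 2) ^ 2 ≤ B * |‖x - y‖ ^ 2 - 1| ^ p) (w : E d) :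
    |Hk Y β psi w| ≤ |B| * |‖w‖ ^ 2 - 1| ^ p * volume.real Y := by
  have hfin : volume Y < ∞ := hY.bdd.measure_lt_top
  have h1 : volume (Y ∩ {x | x + w ∈ Y}) < ∞ := (measure_mono inter_subset_left).trans_lt hfin
  have h2 : ‖∫ x in Y ∩ {x | x + w ∈ Y}, psi (‖β x - β (x + w)‖ ^ 2)‖ ≤
      (|B| * |‖w‖ ^ 2 - 1| ^ p) * volume.real (Y ∩ {x | x + w ∈ Y}) := by
    refine norm_setIntegral_le_of_norm_le_const h1 ?_
    intro x hx
    have h3 := hB x hx.1 (x + w) hx.2
    have h4 : ‖x - (x + w)‖ = ‖w‖ := by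
      rw [show x - (x + w) = -w by abel, norm_neg]
    rw [h4] at h3
    rw [Real.norm_eq_abs, abs_of_nonneg (hP.2.1 _)]
    have h5 := (hP.2.2.1 (‖β x - β (x + w)‖ ^ 2) (by positivity)).2
    have h6 : B * |‖w‖ ^ 2 - 1| ^ p ≤ |B| * |‖w‖ ^ 2 - 1| ^ p :=
      mul_le_mul_of_nonneg_right (le_abs_self B) (by positivity)
    linarith
  have h7 : volume.real (Y ∩ {x | x + w ∈ Y}) ≤ volume.real Y :=
    measureReal_mono inter_subset_left hfin.ne
  have h8 : (|B| * |‖w‖ ^ 2 - 1| ^ p) * volume.real (Y ∩ {x | x + w ∈ Y}) ≤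
      (|B| * |‖w‖ ^ 2 - 1| ^ p) * volume.real Y :=
    mul_le_mul_of_nonneg_left h7 (by positivity)
  unfold Hk
  rw [← Real.norm_eq_abs]
  exact h2.trans h8

theorem sVan : SHk → SPsi → SVan := by
  intro hH hP d n p Y β hY hV
  obtain ⟨B, hB⟩ := hV
  have hk1 : ∀ s : ℝ, 0 ≤ s → |psi s| ≤ 1 := fun s hs => by
    rw [abs_of_nonneg (hP.2.1 s)]; exact (hP.2.2.1 s hs).1
  obtain ⟨-, hint, -, -, -⟩ := hH d n Y β psi hY hP.1 hk1
  refine ⟨|B| * 3 ^ p * volume.real Y * volume.real (ball (0 : E d) 2), ?_⟩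
  intro t ht
  have hi : ∀ s : ℝ, Integrable
      (fun w => (ball (0 : E d) s).indicator (fun _ => (1 : ℝ)) w * Hk Y β psi w) := by
    intro s
    have h1 : (fun w => (ball (0 : E d) s).indicator (fun _ => (1 : ℝ)) w * Hk Y β psi w) =
        (ball (0 : E d) s).indicator (Hk Y β psi) := by
      funext w
      by_cases hw : w ∈ ball (0 : E d) s <;> simp [hw]
    rw [h1]
    exact hint.indicator measurableSet_ball
  rw [← integral_sub (hi t) (hi 1), ← Real.norm_eq_abs]
  set K : ℝ := |B| * 3 ^ p * volume.real Y * (t - 1) ^ p with hK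
  have ht0 : 0 ≤ t - 1 := by linarith [ht.1]
  have hK0 : 0 ≤ K := by
    have : (0 : ℝ) ≤ volume.real Y := measureReal_nonneg
    positivity
  have hb : Integrable ((ball (0 : E d) 2).indicator fun _ => K) := by
    refine (integrable_indicator_iff measurableSet_ball).2 ?_
    exact integrableOn_const (measure_ball_lt_top).ne
  have h2 := norm_integral_le_of_norm_le (f := fun w =>
      (ball (0 : E d) t).indicator (fun _ => (1 : ℝ)) w * Hk Y β psi w -
        (ball (0 : E d) 1).indicator (fun _ => (1 : ℝ)) w * Hk Y β psi w) hb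
    (Eventually.of_forall fun w => by
      by_cases h1 : w ∈ ball (0 : E d) 1
      · have h2 : w ∈ ball (0 : E d) t := ball_subset_ball ht.1 h1
        rw [indicator_of_mem h1, indicator_of_mem h2, sub_self, norm_zero]
        exact indicator_nonneg (fun _ _ => hK0) w
      · by_cases h2 : w ∈ ball (0 : E d) t
        · have h3 : w ∈ ball (0 : E d) 2 := ball_subset_ball ht.2 h2
          rw [indicator_of_notMem h1, indicator_of_mem h2, indicator_of_mem h3, zero_mul, sub_zero,
            one_mul, Real.norm_eq_abs]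
          rw [mem_ball_zero_iff] at h1 h2
          have h4 : 1 ≤ ‖w‖ := not_lt.1 h1
          have h5 : |‖w‖ ^ 2 - 1| ≤ 3 * (t - 1) := by
            rw [abs_of_nonneg (by nlinarith)]
            nlinarith [ht.2]
          have h6 : |‖w‖ ^ 2 - 1| ^ p ≤ (3 * (t - 1)) ^ p :=
            pow_le_pow_left₀ (abs_nonneg _) h5 p
          refine (van_pt hP hY hB w).trans ?_
          have h7 : (0 : ℝ) ≤ volume.real Y := measureReal_nonneg
          calc |B| * |‖w‖ ^ 2 - 1| ^ p * volume.real Y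
              ≤ |B| * (3 * (t - 1)) ^ p * volume.real Y := by gcongr
            _ = K := by rw [hK, mul_pow]; ring
        · rw [indicator_of_notMem h1, indicator_of_notMem h2, sub_self, norm_zero]
          exact indicator_nonneg (fun _ _ => hK0) w)
  refine h2.trans (le_of_eq ?_)
  rw [integral_indicator measurableSet_ball, setIntegral_const, smul_eq_mul, hK]
  ring

end Pool.Agent.MP_66cee2_co.B
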