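import Pool.Agent.MP_66cee2_co.B.Ball
import Pool.Agent.MP_66cee2_co.B.Bo
import Pool.Agent.MP_66cee2_co.B.Ch
import Pool.Agent.MP_66cee2_co.B.Conv
import Pool.Agent.MP_66cee2_co.B.Cov
import Pool.Agent.MP_66cee2_co.B.D1
import Pool.Agent.MP_66cee2_co.B.Dens
import Pool.Agent.MP_66cee2_co.B.Der
import Pool.Agent.MP_66cee2_co.B.FB
import Pool.Agent.MP_66cee2_co.B.GConv
import Pool.Agent.MP_66cee2_co.B.Ga1
import Pool.Agent.MP_66cee2_co.B.Gauss
import Pool.Agent.MP_66cee2_co.B.Hk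
import Pool.Agent.MP_66cee2_co.B.LevB
import Pool.Agent.MP_66cee2_co.B.Loc
import Pool.Agent.MP_66cee2_co.B.Main
import Pool.Agent.MP_66cee2_co.B.NoP
import Pool.Agent.MP_66cee2_co.B.Num
import Pool.Agent.MP_66cee2_co.B.Pos
import Pool.Agent.MP_66cee2_co.B.Psi
import Pool.Agent.MP_66cee2_co.B.Rep
import Pool.Agent.MP_66cee2_co.B.Sgn
import Pool.Agent.MP_66cee2_co.B.Van
import Pool.Agent.MP_66cee2_co.D.AllX
import Pool.Agent.MP_66cee2_co.D.SJ3
import Pool.Agent.MP_66cee2_co.XT.TR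

/-
Explicit base: the theorem.
-/

namespace Pool.Agent.MP_66cee2_co.B

theorem sBase : SBase :=
  base_of D.sTrAll XT.rowODD (odd_of D.sJ3 (sCov sLevB sSgn sNoP)
    (sFB sGauss (sRep sBo sHk sPos) sBall (sVan sHk sPsi) sD1 sDer)
    (sConv sGauss sGConv sHk sPsi sLoc) (sDens sGauss) sCh sGa1 sNum)

end Pool.Agent.MP_66cee2_co.B
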