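import Mathlib

namespace Pool.Agent.MP_66cee2_co.B.H30

open MeasureTheory Set Metric Real
open scoped RealInnerProductSpace

/-- volume of a slice -/
theorem slice_vol (l : ℕ) (r : ℝ) :
    (volume {y : Fin (2 * l + 2) → ℝ | ∑ i, y i ^ 2 < r}).toReal
      = π ^ (l + 1) / ((l + 1).factorial : ℝ) * (max r 0) ^ (l + 1) := by
  rcases le_or_gt r 0 with hr | hr
  · have : {y : Fin (2 * l + 2) → ℝ | ∑ i, y i ^ 2 < r} = ∅ := by
      ext y
      simp only [mem_setOf_eq, mem_empty_iff_false, iff_false, not_lt]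
      exact hr.trans (Finset.sum_nonneg fun i _ => sq_nonneg _)
    rw [this, max_eq_right hr]
    simp
  · have hset : {y : Fin (2 * l + 2) → ℝ | ∑ i, y i ^ 2 < r}
        = (WithLp.toLp 2) ⁻¹' (ball (0 : EuclideanSpace ℝ (Fin (2 * l + 2))) (√r)) := by
      ext y
      simp only [mem_setOf_eq, mem_preimage, mem_ball_zero_iff, EuclideanSpace.norm_eq,
        Real.norm_eq_abs, sq_abs]
      rw [Real.sqrt_lt_sqrt_iff (Finset.sum_nonneg fun i _ => sq_nonneg _)]
    have hk : Module.finrank ℝ (EuclideanSpace ℝ (Fin (2 * l + 2))) = 2 * (l + 1) := by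
      simp; ring
    haveI : Nontrivial (EuclideanSpace ℝ (Fin (2 * l + 2))) := by
      apply Module.nontrivial_of_finrank_pos (R := ℝ)
      rw [hk]; omega
    rw [hset, (PiLp.volume_preserving_toLp (Fin (2 * l + 2))).measure_preimage
      measurableSet_ball.nullMeasurableSet, InnerProductSpace.volume_ball_of_dim_even hk, hk,
      max_eq_left hr.le, ENNReal.toReal_mul, ENNReal.toReal_pow,
      ENNReal.toReal_ofReal (Real.sqrt_nonneg _), ENNReal.toReal_ofReal (by positivity),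
      pow_mul, Real.sq_sqrt hr.le, mul_comm]

theorem ball_coord (l : ℕ) (g : ℝ → ℝ) (hg : Continuous g) (t : ℝ) :
    ∫ w in ball (0 : EuclideanSpace ℝ (Fin (2 * l + 3))) t, g (w 0)
      = if 0 < t then
          ∫ s : ℝ, g s * (π ^ (l + 1) / ((l + 1).factorial : ℝ) * (max (t ^ 2 - s ^ 2) 0) ^ (l + 1))
        else 0 := by
  split_ifs with ht
  swap
  · rw [ball_eq_empty.2 (not_lt.1 ht)]; simp
  have hint : IntegrableOn (fun w : EuclideanSpace ℝ (Fin (2 * l + 3)) => g (w 0)) (ball 0 t) :=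
    ((hg.comp (by fun_prop)).continuousOn.integrableOn_compact (isCompact_closedBall 0 t)).mono_set
      ball_subset_closedBall
  have hint2 := (integrable_indicator_iff measurableSet_ball).2 hint
  rw [← integral_indicator measurableSet_ball]
  have m1 := PiLp.volume_preserving_toLp (Fin (2 * l + 3))
  have m2 := (volume_preserving_piFinSuccAbove (fun _ : Fin (2 * l + 2 + 1) => ℝ) 0).symm
  have e1 : MeasurableEmbedding (@WithLp.toLp 2 (Fin (2 * l + 3) → ℝ)) :=
    (MeasurableEquiv.toLp 2 _).measurableEmbedding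
  have i1 := (m1.integrable_comp_emb e1).2 hint2
  have i2 := (m2.integrable_comp_emb (MeasurableEquiv.measurableEmbedding _)).2 i1
  rw [← m1.integral_comp e1, ← m2.integral_comp']
  have key : ∀ p : ℝ × (Fin (2 * l + 2) → ℝ),
      (ball (0 : EuclideanSpace ℝ (Fin (2 * l + 3))) t).indicator (fun w => g (w 0))
        (WithLp.toLp 2 ((MeasurableEquiv.piFinSuccAbove (fun _ : Fin (2 * l + 2 + 1) => ℝ) 0).symm p))
      = {y : Fin (2 * l + 2) → ℝ | ∑ i, y i ^ 2 < t ^ 2 - p.1 ^ 2}.indicator (fun _ => g p.1) p.2 := by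
    rintro ⟨s, y⟩
    have hm : (WithLp.toLp 2 ((MeasurableEquiv.piFinSuccAbove (fun _ : Fin (2 * l + 2 + 1) => ℝ) 0).symm (s, y))
        ∈ ball (0 : EuclideanSpace ℝ (Fin (2 * l + 3))) t) ↔ ∑ i, y i ^ 2 < t ^ 2 - s ^ 2 := by
      rw [mem_ball_zero_iff, EuclideanSpace.norm_eq, Real.sqrt_lt' ht, Fin.sum_univ_succ]
      simp only [MeasurableEquiv.piFinSuccAbove_symm_apply, Fin.insertNthEquiv, Equiv.coe_fn_mk,
        Fin.insertNth_zero', Fin.cons_zero, Fin.cons_succ, Real.norm_eq_abs, sq_abs]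
      constructor <;> intro h <;> linarith
    by_cases h : ∑ i, y i ^ 2 < t ^ 2 - s ^ 2
    · rw [indicator_of_mem (hm.2 h), indicator_of_mem (by exact h)]
      simp [MeasurableEquiv.piFinSuccAbove_symm_apply, Fin.insertNthEquiv]
    · rw [indicator_of_notMem (fun h' => h (hm.1 h')), indicator_of_notMem (by exact h)]
  have i3 : Integrable (fun p : ℝ × (Fin (2 * l + 2) → ℝ) =>
      {y : Fin (2 * l + 2) → ℝ | ∑ i, y i ^ 2 < t ^ 2 - p.1 ^ 2}.indicator (fun _ => g p.1) p.2)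
      (volume.prod volume) := by
    refine i2.congr (Filter.Eventually.of_forall fun p => ?_)
    exact key p
  simp_rw [key]
  rw [Measure.volume_eq_prod, integral_prod _ i3]
  refine integral_congr_ae (Filter.Eventually.of_forall fun s => ?_)
  have hm : MeasurableSet {y : Fin (2 * l + 2) → ℝ | ∑ i, y i ^ 2 < t ^ 2 - s ^ 2} :=
    measurableSet_lt (by fun_prop) measurable_const
  simp only
  rw [integral_indicator hm, setIntegral_const, Measure.real, slice_vol, smul_eq_mul, mul_comm]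

theorem line_int (l : ℕ) (g : ℝ → ℝ) (t : ℝ) (ht : 0 < t) :
    ∫ s : ℝ, g s * (max (t ^ 2 - s ^ 2) 0) ^ (l + 1)
      = t ^ (2 * l + 3) * ∫ u in (-1 : ℝ)..1, g (t * u) * (1 - u ^ 2) ^ (l + 1) := by
  have h1 : ∫ s : ℝ, g s * (max (t ^ 2 - s ^ 2) 0) ^ (l + 1)
      = ∫ s in (-t)..t, g s * (t ^ 2 - s ^ 2) ^ (l + 1) := by
    rw [intervalIntegral.integral_of_le (by linarith), ← integral_indicator measurableSet_Ioc]
    refine integral_congr_ae (Filter.Eventually.of_forall fun s => ?_)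
    by_cases hs : s ∈ Ioc (-t) t
    · simp only [indicator_of_mem hs]
      rw [max_eq_left (by nlinarith [hs.1, hs.2])]
    · simp only [indicator_of_notMem hs]
      have : t ^ 2 - s ^ 2 ≤ 0 := by
        simp only [mem_Ioc, not_and_or, not_lt, not_le] at hs
        rcases hs with h | h <;> nlinarith
      rw [max_eq_right this]; simp
  have h2 := intervalIntegral.smul_integral_comp_mul_left (a := -1) (b := 1)
    (fun s => g s * (t ^ 2 - s ^ 2) ^ (l + 1)) t
  rw [mul_neg, mul_one] at h2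
  rw [h1, ← h2, smul_eq_mul]
  have h3 : ∀ u : ℝ, g (t * u) * (t ^ 2 - (t * u) ^ 2) ^ (l + 1)
      = t ^ (2 * l + 2) * (g (t * u) * (1 - u ^ 2) ^ (l + 1)) := by
    intro u
    have : t ^ 2 - (t * u) ^ 2 = t ^ 2 * (1 - u ^ 2) := by ring
    rw [this, mul_pow, ← pow_mul]; ring_nf
  simp_rw [h3]
  rw [intervalIntegral.integral_const_mul]; ring

/-- step 3 of the page: the cosine integral over a ball -/
theorem ball_cos (l : ℕ) (ξ : EuclideanSpace ℝ (Fin (2 * l + 3))) (t : ℝ) (ht : 0 < t) :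
    ∫ w in ball (0 : EuclideanSpace ℝ (Fin (2 * l + 3))) t, cos ⟪ξ, w⟫
      = π ^ (l + 1) / ((l + 1).factorial : ℝ) * t ^ (2 * l + 3) *
        ∫ u in (-1 : ℝ)..1, cos (‖ξ‖ * t * u) * (1 - u ^ 2) ^ (l + 1) := by
  set e : EuclideanSpace ℝ (Fin (2 * l + 3)) := EuclideanSpace.single 0 ‖ξ‖ with he
  have hn : ‖e‖ = ‖ξ‖ := by simp [he]
  set R := (ℝ ∙ (e - ξ))ᗮ.reflection with hR
  have hRe : R e = ξ := Submodule.reflection_sub hn
  have hpre : R ⁻¹' (ball 0 t) = ball 0 t := by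
    ext w; simp
  have h1 := R.measurePreserving.setIntegral_preimage_emb R.toHomeomorph.measurableEmbedding
    (fun w => cos ⟪ξ, w⟫) (ball 0 t)
  rw [hpre] at h1
  have h2 : ∀ w, ⟪ξ, R w⟫ = ‖ξ‖ * w 0 := by
    intro w
    conv_lhs => rw [← hRe]
    rw [R.inner_map_map, he, EuclideanSpace.inner_single_left]; simp
  rw [← h1]
  simp_rw [h2]
  rw [ball_coord l (fun s => cos (‖ξ‖ * s)) (by fun_prop) t, if_pos ht]
  have h3 : ∀ s : ℝ, cos (‖ξ‖ * s) *
      (π ^ (l + 1) / ((l + 1).factorial : ℝ) * (max (t ^ 2 - s ^ 2) 0) ^ (l + 1))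
      = π ^ (l + 1) / ((l + 1).factorial : ℝ) *
        (cos (‖ξ‖ * s) * (max (t ^ 2 - s ^ 2) 0) ^ (l + 1)) := fun s => by ring
  simp_rw [h3]
  rw [integral_const_mul, line_int l (fun s => cos (‖ξ‖ * s)) t ht]
  simp_rw [mul_assoc]

end Pool.Agent.MP_66cee2_co.B.H30
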