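import Pool.Agent.MP_66cee2_co.B.Spec
import Pool.Agent.MP_66cee2_co.B.H30Ball

namespace Pool.Agent.MP_66cee2_co.B

open MeasureTheory Set Metric Polynomial Pool.Agent.MP_66cee2_co.X
open scoped RealInnerProductSpace

theorem sBall : SBall := by
  intro l
  refine ⟨Real.pi ^ (l + 1) / ((l + 1).factorial : ℝ), by positivity, fun t ht ξ => ?_⟩
  have h1 : ct ((ball (0 : E (2 * l + 3)) t).indicator fun _ => (1 : ℝ)) ξ
      = ∫ w in ball (0 : E (2 * l + 3)) t, Real.cos ⟪ξ, w⟫ := by
    unfold ct
    rw [← integral_indicator measurableSet_ball]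
    refine integral_congr_ae (Filter.Eventually.of_forall fun w => ?_)
    by_cases hw : w ∈ ball (0 : E (2 * l + 3)) t
    · simp only [indicator_of_mem hw, one_mul]
    · simp only [indicator_of_notMem hw, zero_mul]
  rw [h1, H30.ball_cos l ξ t ht, mul_assoc]
  unfold Phi rho
  simp only [eval_pow, eval_sub, eval_one, eval_X]

end Pool.Agent.MP_66cee2_co.B
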