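import Pool.Agent.MP_66cee2_co.B.Spec
import Pool.Agent.MP_66cee2_co.XI.Dat1

/-
Data at infinity of the class with slope of length different from one, as a lift.
-/

namespace Pool.Agent.MP_66cee2_co.B

open Set Polynomial Pool.Agent.MP_66cee2_co.X Pool.Agent.MP_66cee2_co.XI

open Dat1A in
theorem sDatL : SEdge → SHol → SOne → SDatL := by
  intro hE hH hO d n u hd hu D p j K hp hj hK w hw
  have hE' := hE d n u hd hu D K j (by omega) hj
  set Z := Pc u D K j (Cl1 j w) with hZ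
  have hex : ∀ x, ∃ (Q : Ix n → MP d) (m : ℕ), x ∈ Z → Adm u D K j x Q ∧ GC Q ∧
      DegL (Q sI) w m ∧ (∀ i, DegL (Q (Sum.inl i)) w (m + 1)) ∧ 1 ≤ (j : ℝ) * co (Q sI) w m ^ 2 ∧
      1 ≤ (j : ℝ) * |co (Q sI) w m ^ 2 - ∑ i, co (Q (Sum.inl i)) w (m + 1) ^ 2| := by
    intro x
    by_cases hx : x ∈ Z
    · obtain ⟨-, Q, hA, h0, m, h1⟩ := hx
      exact ⟨Q, m, fun _ => ⟨hA, h0, h1⟩⟩
    · exact ⟨0, 0, fun h => (hx h).elim⟩
  choose Q m hQ using hex
  obtain ⟨C, r, hr, hC⟩ := hH d n u hu D p j hp hj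
  set c : ℝ := ((mons d D).card : ℝ) with hc
  have hc0 : 0 ≤ c := by positivity
  set P : E d → Fin n → ℝ[X] := fun x i => ln (Q x (Sum.inl i)) 0 w with hP
  set q : E d → ℝ[X] := fun x => ln (Q x sI) 0 w with hq
  have hPc : ∀ x ∈ Z, ∀ i k, |(P x i).coeff k| ≤ c := fun x hx i k =>
    abs_co_le ((hQ x hx).1.deg _) ((hQ x hx).1.cf _) hw.le k
  have hqc : ∀ x ∈ Z, ∀ k, |(q x).coeff k| ≤ c := fun x hx k =>
    abs_co_le ((hQ x hx).1.deg _) ((hQ x hx).1.cf _) hw.le k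
  have hPd : ∀ x ∈ Z, ∀ i, (P x i).natDegree ≤ m x + 1 := fun x hx i =>
    degL_iff.1 ((hQ x hx).2.2.2.1 i)
  have hqd : ∀ x ∈ Z, (q x).natDegree ≤ m x := fun x hx => degL_iff.1 (hQ x hx).2.2.1
  have hq0 : ∀ x ∈ Z, (q x).coeff (m x) ≠ 0 ∧ |((q x).coeff (m x))⁻¹| ≤ j := fun x hx =>
    inv_le (hQ x hx).2.2.2.2.1
  have hR : ∀ x ∈ Z, ∀ y ∈ Z, ‖x - y‖ ≤ r → ∀ i k,
      |(P x i * q y - q x * P y i).coeff k| ≤ |C| * ‖x - y‖ ^ p := fun x hx y hy h i k =>
    (hC K (by omega) x y _ _ (hQ x hx).1 (hQ y hy).1 hx.1 h w hw.le (Sum.inl i) sI k).trans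
      (mul_le_mul_of_nonneg_right (le_abs_self C) (by positivity))
  set L : Fin n → E d → ℝ := fun i x => slp (P x i) (q x) (m x) with hL
  set b : Fin n → E d → ℝ := fun i x => ofs (P x i) (q x) (m x) with hb
  have hL1 : ∀ i, ∀ x ∈ Z, |L i x| ≤ c * j := fun i x hx => by
    simp only [hL, slp, div_eq_mul_inv, abs_mul]
    exact mul_le_mul (hPc x hx i _) (hq0 x hx).2 (abs_nonneg _) hc0
  have hL2 : ∀ i, ∀ x ∈ Z, ∀ y ∈ Z, ‖x - y‖ ≤ r →
      |L i x - L i y| ≤ j * j * |C| * ‖x - y‖ ^ p := fun i x hx y hy h => by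
    simp only [hL]
    rw [(diffs (hPd x hx i) (hqd x hx) (hPd y hy i) (hqd y hy) (hq0 x hx).1 (hq0 y hy).1).1,
      abs_mul, abs_mul, mul_assoc (j * j : ℝ)]
    have := (hq0 x hx).2
    have := (hq0 y hy).2
    have := hR x hx y hy h i (m x + m y + 1)
    gcongr
  have bL : ∀ i, BL Z r p (L i) := fun i => BL.mk' (by positivity) (by positivity) (hL1 i) (hL2 i)
  have bb : ∀ i, BL Z r p (b i) := fun i => by
    refine BL.mk' (A := (c + c * j * c) * j) (B := j * j * (|C| + j * j * |C| * (c * c + c * c)))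
      (by positivity) (by positivity) (fun x hx => ?_) fun x hx y hy h => ?_
    · simp only [hb, ofs, div_eq_mul_inv, abs_mul]
      refine mul_le_mul ((abs_sub _ _).trans (add_le_add (hPc x hx i _) ?_)) (hq0 x hx).2
        (abs_nonneg _) (by positivity)
      rw [abs_mul]
      exact mul_le_mul (hL1 i x hx) (abs_X_mul (hqc x hx) _) (abs_nonneg _) (by positivity)
    · simp only [hb]
      rw [(diffs (hPd x hx i) (hqd x hx) (hPd y hy i) (hqd y hy) (hq0 x hx).1 (hq0 y hy).1).2,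
        abs_mul, abs_mul, mul_assoc (j * j : ℝ)]
      refine mul_le_mul (mul_le_mul (hq0 x hx).2 (hq0 y hy).2 (abs_nonneg _) (by positivity))
        ((abs_sub _ _).trans ?_) (abs_nonneg _) (by positivity)
      rw [add_mul, mul_right_comm, abs_mul]
      refine add_le_add (hR x hx y hy h i _) (mul_le_mul (hL2 i x hx y hy h)
        ((abs_add_le _ _).trans ?_) (abs_nonneg _) (by positivity))
      rw [abs_mul, abs_mul]
      exact add_le_add (mul_le_mul (hqc x hx _) (abs_X_mul (hqc y hy) _) (abs_nonneg _) hc0)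
        (mul_le_mul (abs_X_mul (hqc x hx) _) (hqc y hy _) (abs_nonneg _) hc0)
  have hκ : ∀ x ∈ Z, 1 ≤ j * c ^ 2 * |1 - ∑ i, L i x ^ 2| := fun x hx => by
    have e : (q x).coeff (m x) ^ 2 - ∑ i, (P x i).coeff (m x + 1) ^ 2 =
        (q x).coeff (m x) ^ 2 * (1 - ∑ i, L i x ^ 2) := by
      rw [mul_sub, mul_one, Finset.mul_sum]
      congr 1
      refine Finset.sum_congr rfl fun i _ => ?_
      have := (hq0 x hx).1
      simp only [hL, slp]
      field_simp
    refine le_trans (hQ x hx).2.2.2.2.2 ?_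
    change j * |(q x).coeff (m x) ^ 2 - ∑ i, (P x i).coeff (m x + 1) ^ 2| ≤ _
    rw [e, abs_mul, ← mul_assoc, abs_pow]
    have := hqc x hx (m x)
    gcongr
  set g : E d → E n := fun x => WithLp.toLp 2 fun i => b i x * (√|1 - ∑ i, L i x ^ 2|)⁻¹ with hg
  have bg : ∀ i, BL Z r p fun x => g x i := fun i =>
    (bb i).mul (((BL.const 1).sub (BL.sum fun i => (bL i).sq)).invSqrt (by positivity) hκ)
  have bV : ∀ a, BL Z r p fun x => lift (g x) a := by
    rintro (i | _ | _)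
    · exact bg i
    · simp only [lift, EuclideanSpace.real_norm_sq_eq]
      exact (BL.const _).sub (BL.sum fun i => (bg i).sq)
    · exact BL.const 1
  refine ⟨g, ?_, ?_, fun x _ => by simp [lz_lift], fun x hx y hy hxy => ?_⟩
  · choose A h0 h1 _ using bV
    exact ⟨∑ a, A a, fun x hx a => (h1 a x hx).trans
      (Finset.single_le_sum (fun a _ => h0 a) (Finset.mem_univ a))⟩
  · choose A h0 _ h2 using fun a : Ix n × Ix n => (bV a.1).mul (bV a.2)
    refine ⟨∑ a, A a, r, hr, fun x hx y hy h a a' => (h2 (a, a') x hx y hy h).trans ?_⟩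
    exact mul_le_mul_of_nonneg_right
      (Finset.single_le_sum (fun a _ => h0 a) (Finset.mem_univ _)) (by positivity)
  · have hN := nbr_of_edge (hE' x y _ _ (hQ x hx).1 (hQ y hy).1 hxy) (hQ x hx).2.1 (hQ y hy).2.1
      0 hw
    have c3 : q y ≠ 0 := fun h => (hq0 y hy).1 (by rw [h, coeff_zero])
    obtain ⟨e1, e2⟩ := (hO n _ _ _ _ hN c3 (m x) (hqd x hx) (hq0 x hx).1).2 (m y) (hqd y hy)
      (hq0 y hy).1
    change ∀ i, L i x = L i y at e1
    change ∑ i, (b i x - b i y) ^ 2 = 1 - ∑ i, L i x ^ 2 at e2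
    have e3 : 0 ≤ 1 - ∑ i, L i x ^ 2 := e2 ▸ Finset.sum_nonneg fun i _ => sq_nonneg _
    have e4 : 1 - ∑ i, L i x ^ 2 ≠ 0 := fun e => by
      have := hκ x hx
      rw [e] at this; norm_num at this
    rw [lz_lift, EuclideanSpace.real_norm_sq_eq]
    simp only [hg, PiLp.sub_apply, ← e1, ← sub_mul, mul_pow, inv_pow, abs_of_nonneg e3,
      Real.sq_sqrt e3, ← Finset.sum_mul, e2, mul_inv_cancel₀ e4, sub_self]

end Pool.Agent.MP_66cee2_co.B
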