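import Pool.Agent.MP_66cee2_co.B.Spec

/-
The local rank bound averaged over Gaussian windows.
-/

namespace Pool.Agent.MP_66cee2_co.B

open MeasureTheory Set Filter Metric Topology Pool.Agent.MP_66cee2_co.X
open scoped ENNReal RealInnerProductSpace

lemma G_neg42 (d : ℕ) (a : ℝ) (w : E d) : G d a (-w) = G d a w := by simp [G]

lemma G_le42 (d : ℕ) {a : ℝ} (ha : 0 < a) (w : E d) : G d a w ≤ (a / Real.pi) ^ ((d : ℝ) / 2) := by
  unfold G
  refine mul_le_of_le_one_right (by positivity) (Real.exp_le_one_iff.2 ?_)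
  have := sq_nonneg ‖w‖
  nlinarith

theorem sConv42 (hG : SGauss) (hC : SGConv) (hH : SHk) (hP : SPsi) (hL : SLoc) : SConv := by
  obtain ⟨c, c0, hc⟩ := hL
  refine ⟨c, c0, fun d n Y β a hY ha => ?_⟩
  obtain ⟨p1, p2, p3, -, -⟩ := hP
  obtain ⟨g1, g2, g3, g4, -⟩ := hG d (2 * a) (by positivity)
  obtain ⟨k1, k2, -, -, -⟩ := hG d a ha
  have pb : ∀ s, 0 ≤ s → |psi s| ≤ 1 := fun s hs => by
    rw [abs_of_nonneg (p2 s)]
    exact (p3 s hs).1
  obtain ⟨-, -, -, -, h5⟩ := hH d n Y β psi hY p1 pb
  rw [h5 _ k1]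
  have hfin : volume Y < ⊤ := hY.bdd.measure_lt_top
  haveI : IsFiniteMeasure (volume.restrict Y) := isFiniteMeasure_restrict.2 hfin.ne
  set μ : Measure (E d) := volume.restrict Y with hμ
  set M : ℝ := (2 * a / Real.pi) ^ ((d : ℝ) / 2) with hM
  have gM : ∀ w, G d (2 * a) w ≤ M := G_le42 d (by positivity)
  have M0 : 0 ≤ M := by positivity
  let k : E d → E d → ℝ := fun x y => psi (‖β x - β y‖ ^ 2)
  have km : Measurable fun p : E d × E d => k p.1 p.2 :=
    p1.measurable.comp (((hY.meas.comp measurable_fst).sub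
      (hY.meas.comp measurable_snd)).norm.pow_const 2)
  have k0 : ∀ x y, 0 ≤ k x y := fun x y => p2 _
  have kb : ∀ x y, k x y ≤ 1 := fun x y => (p3 _ (sq_nonneg _)).1
  -- the three variable function
  let F : E d → E d × E d → ℝ := fun z p =>
    G d (2 * a) (p.1 - z) * G d (2 * a) (p.2 - z) * k p.1 p.2
  have F0 : ∀ z p, 0 ≤ F z p := fun z p => mul_nonneg (mul_nonneg (g2 _).le (g2 _).le) (k0 _ _)
  have Fm : Measurable (Function.uncurry F) := by
    refine Measurable.mul (Measurable.mul ?_ ?_) (km.comp measurable_snd)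
    · exact g1.measurable.comp ((measurable_fst.comp measurable_snd).sub measurable_fst)
    · exact g1.measurable.comp ((measurable_snd.comp measurable_snd).sub measurable_fst)
  have Fz : ∀ p : E d × E d, Integrable fun z => F z p := fun p => (hC d a ha p.1 p.2).1.mul_const _
  have Iz : ∀ p : E d × E d, ∫ z, F z p = G d a (p.2 - p.1) * k p.1 p.2 := fun p => by
    simp only [F]
    rw [integral_mul_const, (hC d a ha p.1 p.2).2, ← G_neg42, neg_sub]
  have hb : Integrable (fun p : E d × E d => G d a (p.2 - p.1) * k p.1 p.2) (μ.prod μ) := by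
    refine Integrable.of_bound ((k1.measurable.comp (measurable_snd.sub measurable_fst)).mul
      km).aestronglyMeasurable ((a / Real.pi) ^ ((d : ℝ) / 2)) (ae_of_all _ fun p => ?_)
    rw [Real.norm_eq_abs, abs_of_nonneg (mul_nonneg (k2 _).le (k0 _ _))]
    exact (mul_le_of_le_one_right (k2 _).le (kb _ _)).trans (G_le42 d ha _)
  have Fi : Integrable (Function.uncurry F) (volume.prod (μ.prod μ)) := by
    refine (integrable_prod_iff' Fm.aestronglyMeasurable).2 ⟨ae_of_all _ Fz, ?_⟩
    refine hb.congr (ae_of_all _ fun p => ?_)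
    simp only [Function.uncurry]
    rw [← Iz p]
    exact integral_congr_ae (ae_of_all _ fun z => (Real.norm_of_nonneg (F0 z p)).symm)
  have e1 : ∫ x, ∫ y, G d a (y - x) * psi (‖β x - β y‖ ^ 2) ∂μ ∂μ = ∫ z, ∫ p, F z p ∂μ.prod μ := by
    rw [integral_integral_swap Fi, ← integral_prod _ hb]
    exact integral_congr_ae (ae_of_all _ fun p => (Iz p).symm)
  rw [e1, ← integral_const_mul, ← integral_const_mul]
  refine integral_mono_of_nonneg (ae_of_all _ fun z => by positivity)
    (Fi.integral_prod_left.const_mul _) (ae_of_all _ fun z => ?_)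
  have gm : Measurable fun x : E d => G d (2 * a) (x - z) :=
    g1.measurable.comp (measurable_id.sub measurable_const)
  have gi : Integrable (fun x : E d => G d (2 * a) (x - z)) μ :=
    (g3.comp_sub_right z).restrict
  let f : E d → NNReal := fun x => (G d (2 * a) (x - z)).toNNReal
  have fm : Measurable f := gm.real_toNNReal
  have fe : ∀ x, (f x : ℝ) = G d (2 * a) (x - z) := fun x => Real.coe_toNNReal _ (g2 _).le
  haveI : IsFiniteMeasure (μ.withDensity fun x => f x) := isFiniteMeasure_withDensity_ofReal gi.2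
  have h := hc d n (μ.withDensity fun x => f x) β hY.meas
  have e2 : (μ.withDensity fun x => f x).real univ = ∫ x, G d (2 * a) (x - z) ∂μ := by
    have := integral_withDensity_eq_integral_smul (μ := μ) fm fun _ => (1 : ℝ)
    simpa [NNReal.smul_def, fe] using this
  have hz : Integrable (F z) (μ.prod μ) := by
    refine Integrable.of_bound (Fm.comp (measurable_const.prodMk measurable_id)).aestronglyMeasurable
      (M * M) (ae_of_all _ fun p => ?_)
    rw [Real.norm_eq_abs, abs_of_nonneg (F0 z p)]
    exact (mul_le_of_le_one_right (mul_nonneg (g2 _).le (g2 _).le) (kb _ _)).trans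
      (mul_le_mul (gM _) (gM _) (g2 _).le M0)
  have e3 : ∫ x, ∫ y, psi (‖β x - β y‖ ^ 2) ∂(μ.withDensity fun x => f x)
      ∂(μ.withDensity fun x => f x) = ∫ p, F z p ∂μ.prod μ := by
    rw [integral_prod _ hz, integral_withDensity_eq_integral_smul fm]
    refine integral_congr_ae (ae_of_all _ fun x => ?_)
    simp only
    rw [integral_withDensity_eq_integral_smul fm, NNReal.smul_def, smul_eq_mul, ← integral_const_mul]
    refine integral_congr_ae (ae_of_all _ fun y => ?_)
    simp only [F, k, NNReal.smul_def, smul_eq_mul, fe, mul_assoc]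
  rw [e2, e3] at h
  exact h

end Pool.Agent.MP_66cee2_co.B
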