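import Mathlib

/-
A bounded integrable even function with nonnegative Fourier transform is almost everywhere the
cosine transform of a finite measure.
-/

namespace Pool.Agent.MP_66cee2_co.B.H58

open MeasureTheory Set Filter Topology Real
open scoped FourierTransform RealInnerProductSpace ENNReal ContDiff

variable {V : Type} [NormedAddCommGroup V] [InnerProductSpace ℝ V] [MeasurableSpace V]
  [BorelSpace V] [FiniteDimensional ℝ V]

theorem flip {f g : V → ℂ} (hf : Integrable f) (hg : Integrable g) :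
    ∫ ξ, 𝓕 f ξ • g ξ = ∫ x, f x • 𝓕 g x := by
  have h := VectorFourier.integral_fourierIntegral_smul_eq_flip (L := innerₗ V)
    Real.continuous_fourierChar continuous_inner hf hg
  rw [flip_innerₗ] at h
  exact h

theorem cont {f : V → ℂ} (hf : Integrable f) : Continuous (𝓕 f) :=
  VectorFourier.fourierIntegral_continuous (L := innerₗ V) Real.continuous_fourierChar
    continuous_inner hf

theorem int_trig {H : V → ℝ} (hi : Integrable H) {c : ℝ → ℝ} (hc : Continuous c)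
    (hb : ∀ t, |c t| ≤ 1) (a : ℝ) (ξ : V) : Integrable fun v => H v * c (a * ⟪v, ξ⟫) :=
  hi.mul_bdd (c := 1) (Continuous.aestronglyMeasurable (by fun_prop))
    (ae_of_all _ fun v => hb _)

/-- the transform of an even real function. -/
theorem four_even {H : V → ℝ} (hi : Integrable H) (he : ∀ w, H (-w) = H w) (ξ : V) :
    𝓕 (fun w => (H w : ℂ)) ξ = ((∫ v, H v * cos (2 * π * ⟪v, ξ⟫) : ℝ) : ℂ) := by
  have h1 := int_trig hi continuous_cos abs_cos_le_one (2 * π) ξ
  have h2 := int_trig hi continuous_sin abs_sin_le_one (2 * π) ξ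
  have h3 : ∫ v, H v * sin (2 * π * ⟪v, ξ⟫) = 0 := by
    have h := integral_neg_eq_self (fun v => H v * sin (2 * π * ⟪v, ξ⟫)) (volume : Measure V)
    simp only [he, inner_neg_left, mul_neg, sin_neg, integral_neg] at h
    linarith
  rw [Real.fourier_eq']
  have e : ∀ v : V, Complex.exp ((↑(-2 * π * ⟪v, ξ⟫) * Complex.I)) • (H v : ℂ) =
      ((H v * cos (2 * π * ⟪v, ξ⟫) : ℝ) : ℂ) -
        ((H v * sin (2 * π * ⟪v, ξ⟫) : ℝ) : ℂ) * Complex.I := fun v => by
    rw [Complex.exp_mul_I, smul_eq_mul, ← Complex.ofReal_cos, ← Complex.ofReal_sin,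
      show -2 * π * ⟪v, ξ⟫ = -(2 * π * ⟪v, ξ⟫) by ring, cos_neg, sin_neg]
    simp only [Complex.ofReal_mul, Complex.ofReal_neg]
    ring
  simp only [e]
  rw [integral_sub h1.ofReal (h2.ofReal.mul_const _), integral_mul_const,
    integral_complex_ofReal, integral_complex_ofReal, h3]
  simp

theorem gauss {H q : V → ℝ} {A : ℝ} (hi : Integrable H) (hA : ∀ w, |H w| ≤ A)
    (hq : ∀ ξ, 𝓕 (fun w => (H w : ℂ)) ξ = q ξ) {c : ℝ} (hc : 0 < c) :
    ∫ ξ, exp (-c * ‖ξ‖ ^ 2) * q ξ ≤ A := by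
  have hg : Integrable fun v : V => Complex.exp (-(c : ℂ) * (‖v‖ : ℂ) ^ 2) := by
    simpa using GaussianFourier.integrable_cexp_neg_mul_sq_norm_add (b := c) (V := V)
      (by simpa using hc) 0 0
  have h := flip hg hi.ofReal
  have hF : ∀ w : V, 𝓕 (fun v : V => Complex.exp (-(c : ℂ) * (‖v‖ : ℂ) ^ 2)) w =
      (((π / c) ^ (Module.finrank ℝ V / 2 : ℝ) * exp (-(π ^ 2 / c) * ‖w‖ ^ 2) : ℝ) : ℂ) := by
    intro w
    rw [fourier_gaussian_innerProductSpace (by simpa using hc), Complex.ofReal_mul,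
      Complex.ofReal_cpow (by positivity), Complex.ofReal_exp]
    congr 2
    · simp
    · simp
    · push_cast
      ring
  have e1 : ∫ x : V, Complex.exp (-(c : ℂ) * (‖x‖ : ℂ) ^ 2) • 𝓕 (fun w => (H w : ℂ)) x =
      ((∫ ξ, exp (-c * ‖ξ‖ ^ 2) * q ξ : ℝ) : ℂ) := by
    rw [← integral_complex_ofReal]
    refine integral_congr_ae (ae_of_all _ fun x => ?_)
    simp only [hq, smul_eq_mul]
    push_cast
    rfl
  have e2 : ∫ x : V, 𝓕 (fun v : V => Complex.exp (-(c : ℂ) * (‖v‖ : ℂ) ^ 2)) x • (H x : ℂ) =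
      ((∫ w, (π / c) ^ (Module.finrank ℝ V / 2 : ℝ) * exp (-(π ^ 2 / c) * ‖w‖ ^ 2) * H w : ℝ) :
        ℂ) := by
    rw [← integral_complex_ofReal]
    refine integral_congr_ae (ae_of_all _ fun x => ?_)
    simp only [hF, smul_eq_mul]
    exact (Complex.ofReal_mul _ _).symm
  have e3 := Complex.ofReal_injective (e1.symm.trans (h.symm.trans e2))
  have hp : 0 < π ^ 2 / c := by positivity
  have hg2 : Integrable fun w : V => exp (-(π ^ 2 / c) * ‖w‖ ^ 2) := by
    have := (GaussianFourier.integrable_cexp_neg_mul_sq_norm_add (b := ((π ^ 2 / c : ℝ) : ℂ))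
      (V := V) (by rwa [Complex.ofReal_re]) 0 0).norm
    refine this.congr (ae_of_all _ fun w => ?_)
    simp only [zero_mul, add_zero, Complex.norm_exp]
    congr 1
    rw [← Complex.ofReal_pow, ← Complex.ofReal_neg, ← Complex.ofReal_mul, Complex.ofReal_re]
  have hg3 := hg2.const_mul ((π / c) ^ (Module.finrank ℝ V / 2 : ℝ))
  rw [e3]
  calc _ ≤ ∫ w : V, (π / c) ^ (Module.finrank ℝ V / 2 : ℝ) * exp (-(π ^ 2 / c) * ‖w‖ ^ 2) * A :=
        integral_mono (hg3.mul_bdd (c := A) hi.1 (ae_of_all _ hA)) (hg3.mul_const A) fun w =>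
          mul_le_mul_of_nonneg_left ((le_abs_self _).trans (hA w)) (by positivity)
    _ = A := by
        rw [integral_mul_const, integral_const_mul,
          GaussianFourier.integral_rexp_neg_mul_sq_norm hp,
          ← Real.mul_rpow (by positivity) (by positivity),
          show π / c * (π / (π ^ 2 / c)) = 1 by field_simp, Real.one_rpow, one_mul]

theorem mass {q : V → ℝ} {A : ℝ} (hc : Continuous q) (h0 : ∀ ξ, 0 ≤ q ξ) {B : ℝ}
    (hB : ∀ ξ, q ξ ≤ B) (h : ∀ c : ℝ, 0 < c → ∫ ξ, exp (-c * ‖ξ‖ ^ 2) * q ξ ≤ A) :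
    ∫⁻ ξ, ENNReal.ofReal (q ξ) ≤ ENNReal.ofReal A := by
  have ht := lintegral_tendsto_of_tendsto_of_monotone (μ := (volume : Measure V))
    (f := fun (m : ℕ) ξ => ENNReal.ofReal (exp (-(1 / ((m : ℝ) + 1)) * ‖ξ‖ ^ 2) * q ξ))
    (F := fun ξ => ENNReal.ofReal (q ξ))
    (fun m => (Continuous.measurable (by fun_prop)).ennreal_ofReal.aemeasurable)
    (ae_of_all _ fun ξ a b hab => ENNReal.ofReal_le_ofReal
      (mul_le_mul_of_nonneg_right (exp_le_exp.2 (mul_le_mul_of_nonneg_right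
        (neg_le_neg (Nat.one_div_le_one_div hab)) (sq_nonneg _))) (h0 ξ)))
    (ae_of_all _ fun ξ => by
      refine (ENNReal.continuous_ofReal.tendsto _).comp ?_
      have h1 : Tendsto (fun m : ℕ => exp (-(1 / ((m : ℝ) + 1)) * ‖ξ‖ ^ 2) * q ξ) atTop
          (𝓝 (exp (-0 * ‖ξ‖ ^ 2) * q ξ)) :=
        ((continuous_exp.tendsto _).comp
          (tendsto_one_div_add_atTop_nhds_zero_nat.neg.mul_const _)).mul_const _
      simpa using h1)
  refine le_of_tendsto' ht fun m => ?_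
  have hp : (0 : ℝ) < 1 / ((m : ℝ) + 1) := by positivity
  have hg2 : Integrable fun w : V => exp (-(1 / ((m : ℝ) + 1)) * ‖w‖ ^ 2) := by
    have := (GaussianFourier.integrable_cexp_neg_mul_sq_norm_add
      (b := ((1 / ((m : ℝ) + 1) : ℝ) : ℂ)) (V := V) (by rwa [Complex.ofReal_re]) 0 0).norm
    refine this.congr (ae_of_all _ fun w => ?_)
    simp only [zero_mul, add_zero, Complex.norm_exp]
    congr 1
    rw [← Complex.ofReal_pow, ← Complex.ofReal_neg, ← Complex.ofReal_mul, Complex.ofReal_re]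
  rw [← ofReal_integral_eq_lintegral_ofReal (hg2.mul_bdd (c := B) hc.aestronglyMeasurable
    (ae_of_all _ fun ξ => by rw [Real.norm_of_nonneg (h0 ξ)]; exact hB ξ))
    (ae_of_all _ fun ξ => mul_nonneg (exp_pos _).le (h0 ξ))]
  exact ENNReal.ofReal_le_ofReal (h _ hp)

/-- inversion almost everywhere. -/
theorem inv_ae {f : V → ℂ} (hf : Integrable f) (h'f : Integrable (𝓕 f)) :
    ∀ᵐ w, f w = 𝓕 (𝓕⁻ f) w := by
  have h1 : Integrable (𝓕⁻ f) := by
    have : 𝓕⁻ f = fun w => 𝓕 f (-w) := funext fun w => Real.fourierInv_eq_fourier_neg f w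
    rw [this]
    exact h'f.comp_neg
  refine ae_eq_of_integral_contDiff_smul_eq hf.locallyIntegrable (cont h1).locallyIntegrable
    fun g hg hs => ?_
  have hs' : HasCompactSupport fun x => (g x : ℂ) := hs.comp_left Complex.ofReal_zero
  have hg' : ContDiff ℝ ∞ fun x => (g x : ℂ) := Complex.ofRealCLM.contDiff.comp hg
  have i1 : Integrable fun x => (g x : ℂ) := hg'.continuous.integrable_of_hasCompactSupport hs'
  have i2 : Integrable (𝓕 fun x => (g x : ℂ)) := (𝓕 (hs'.toSchwartzMap hg')).integrable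
  have i3 : Integrable (𝓕⁻ fun x => (g x : ℂ)) := by
    have : (𝓕⁻ fun x => (g x : ℂ)) = fun w => 𝓕 (fun x => (g x : ℂ)) (-w) :=
      funext fun w => Real.fourierInv_eq_fourier_neg _ w
    rw [this]
    exact i2.comp_neg
  have e1 := flip i1 h1
  have e2 := flip i3 hf
  rw [hg'.continuous.fourier_fourierInv_eq i1 i2] at e2
  have e3 : ∫ ξ, 𝓕 (fun x => (g x : ℂ)) ξ • 𝓕⁻ f ξ =
      ∫ ξ, 𝓕⁻ (fun x => (g x : ℂ)) ξ • 𝓕 f ξ := by
    rw [← integral_neg_eq_self]
    simp only [Real.fourierInv_eq_fourier_neg, neg_neg]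
  simp only [Complex.real_smul]
  simp only [smul_eq_mul] at e1 e2 e3
  rw [e2, ← e1, e3]

theorem boch_gen (H : V → ℝ) (A : ℝ) (hi : Integrable H) (hA : ∀ w, |H w| ≤ A)
    (he : ∀ w, H (-w) = H w) (hq : ∀ ξ, 0 ≤ ∫ w, H w * cos ⟪ξ, w⟫) :
    ∃ μ : Measure V, IsFiniteMeasure μ ∧ μ.real univ ≤ A ∧ ∀ᵐ w, H w = ∫ ξ, cos ⟪ξ, w⟫ ∂μ := by
  obtain ⟨q, hqd⟩ : ∃ q : V → ℝ, q = fun ξ => ∫ v, H v * cos (2 * π * ⟪v, ξ⟫) := ⟨_, rfl⟩
  have hF : ∀ ξ, 𝓕 (fun w => (H w : ℂ)) ξ = q ξ := fun ξ => by rw [hqd]; exact four_even hi he ξ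
  have h0 : ∀ ξ, 0 ≤ q ξ := fun ξ => by
    have := hq ((2 * π) • ξ)
    simp only [inner_smul_left, conj_trivial, real_inner_comm _ ξ] at this
    rw [hqd]
    exact this
  have hqe : ∀ ξ, q (-ξ) = q ξ := fun ξ => by
    simp only [hqd, inner_neg_right, mul_neg, cos_neg]
  have hc : Continuous q := by
    have : q = fun ξ => (𝓕 (fun w => (H w : ℂ)) ξ).re := funext fun ξ => by
      rw [hF, Complex.ofReal_re]
    rw [this]
    exact Complex.continuous_re.comp (cont hi.ofReal)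
  have hB : ∀ ξ, q ξ ≤ ∫ v, |H v| := fun ξ => by
    rw [hqd]
    refine integral_mono (int_trig hi continuous_cos abs_cos_le_one _ ξ) hi.abs fun v => ?_
    exact (le_abs_self _).trans ((abs_mul _ _).trans_le
      (mul_le_of_le_one_right (abs_nonneg _) (abs_cos_le_one _)))
  have hm := mass hc h0 hB fun c hc => gauss hi hA hF hc
  have hA0 : 0 ≤ A := (abs_nonneg _).trans (hA 0)
  have hqi : Integrable q :=
    ⟨hc.aestronglyMeasurable, (hasFiniteIntegral_iff_ofReal (ae_of_all _ h0)).2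
      (hm.trans_lt ENNReal.ofReal_lt_top)⟩
  have hs : Measurable fun ξ : V => (2 * π) • ξ := measurable_const_smul _
  have hu : ((volume.withDensity fun ξ => ENNReal.ofReal (q ξ)).map
      fun ξ : V => (2 * π) • ξ) univ ≤ ENNReal.ofReal A := by
    rw [Measure.map_apply hs MeasurableSet.univ, preimage_univ,
      withDensity_apply _ MeasurableSet.univ, Measure.restrict_univ]
    exact hm
  refine ⟨(volume.withDensity fun ξ => ENNReal.ofReal (q ξ)).map fun ξ : V => (2 * π) • ξ,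
    ⟨hu.trans_lt ENNReal.ofReal_lt_top⟩, ENNReal.toReal_le_of_le_ofReal hA0 hu, ?_⟩
  have hFi : Integrable (𝓕 fun w => (H w : ℂ)) := by
    rw [funext hF]
    exact hqi.ofReal
  filter_upwards [inv_ae hi.ofReal hFi] with w hw
  have e : (𝓕⁻ fun w => (H w : ℂ)) = fun ξ => (q ξ : ℂ) := funext fun ξ => by
    rw [Real.fourierInv_eq_fourier_neg, hF, hqe]
  have hw' : (H w : ℂ) = 𝓕 (𝓕⁻ fun w => (H w : ℂ)) w := hw
  rw [e, four_even hqi hqe] at hw'
  rw [Complex.ofReal_injective hw',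
    integral_map hs.aemeasurable (Continuous.aestronglyMeasurable (by fun_prop)),
    integral_withDensity_eq_integral_toReal_smul hc.measurable.ennreal_ofReal
      (ae_of_all _ fun _ => ENNReal.ofReal_lt_top)]
  refine integral_congr_ae (ae_of_all _ fun ξ => ?_)
  simp only [ENNReal.toReal_ofReal (h0 ξ), smul_eq_mul, inner_smul_left, conj_trivial]

theorem boch (d : ℕ) (H : EuclideanSpace ℝ (Fin d) → ℝ) (A : ℝ) (hi : Integrable H)
    (hA : ∀ w, |H w| ≤ A) (he : ∀ w, H (-w) = H w) (hq : ∀ ξ, 0 ≤ ∫ w, H w * cos ⟪ξ, w⟫) :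
    ∃ μ : Measure (EuclideanSpace ℝ (Fin d)), IsFiniteMeasure μ ∧ μ.real univ ≤ A ∧
      ∀ᵐ w, H w = ∫ ξ, cos ⟪ξ, w⟫ ∂μ :=
  boch_gen H A hi hA he hq

end Pool.Agent.MP_66cee2_co.B.H58
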