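import Pool.Agent.MP_66cee2_co.B.Spec
import Pool.Agent.MP_66cee2_co.B.H58Boch

/-
The weak representation of a bounded positive definite function.
-/

namespace Pool.Agent.MP_66cee2_co.B.H58

open MeasureTheory Set Filter Pool.Agent.MP_66cee2_co.X
open scoped RealInnerProductSpace

theorem sBo : SBo := by
  intro d H A hH
  obtain ⟨μ, hμ, hm, h⟩ := boch d H A hH.int hH.bd hH.even hH.pos
  refine ⟨μ, hμ, inferInstance, by simpa using hm, fun φ hφ => ?_⟩
  have hi : Integrable (Function.uncurry fun (w ξ : E d) => φ w * Real.cos ⟪ξ, w⟫)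
      (volume.prod μ) :=
    (hφ.comp_fst μ).mul_bdd (c := 1) (Continuous.aestronglyMeasurable (by fun_prop))
      (ae_of_all _ fun z => Real.abs_cos_le_one _)
  rw [integral_zero_measure, sub_zero]
  unfold ct
  rw [← integral_integral_swap hi]
  refine integral_congr_ae (h.mono fun w hw => ?_)
  simp only [hw, integral_const_mul]

end Pool.Agent.MP_66cee2_co.B.H58
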