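import Pool.Agent.MP_66cee2_co.B.Spec

/-
Explicit base: the local rank bound, averaged with Gaussian weights.
-/

namespace Pool.Agent.MP_66cee2_co.B.H68

open MeasureTheory Set Filter Metric Topology Pool.Agent.MP_66cee2_co.X
open scoped ENNReal NNReal

variable {d n : ℕ}

theorem G_le {a : ℝ} (ha : 0 < a) (w : E d) : G d a w ≤ (a / Real.pi) ^ ((d : ℝ) / 2) := by
  have h0 : 0 ≤ (a / Real.pi) ^ ((d : ℝ) / 2) := by positivity
  have h1 : Real.exp (-a * ‖w‖ ^ 2) ≤ 1 := by
    rw [Real.exp_le_one_iff]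
    nlinarith [mul_nonneg ha.le (sq_nonneg ‖w‖)]
  unfold G
  nlinarith

theorem G_neg (a : ℝ) (w : E d) : G d a (-w) = G d a w := by simp [G]

/-- the weighted bound at one centre. -/
theorem loc {c : ℝ} {Y : Set (E d)} {β : E d → E n} (hP : Pre Y β) {g : E d → ℝ}
    (hg : Continuous g) (h0 : ∀ x, 0 < g x) (hi : IntegrableOn g Y)
    (h : ∀ (ν : Measure (E d)) [IsFiniteMeasure ν],
      c * ν.real univ ^ 2 ≤ (n + 2) * ∫ x, ∫ y, psi (‖β x - β y‖ ^ 2) ∂ν ∂ν) :
    c * (∫ x in Y, g x) ^ 2 ≤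
      (n + 2) * ∫ x in Y, ∫ y in Y, g x * g y * psi (‖β x - β y‖ ^ 2) := by
  have hm : Measurable fun x => (g x).toNNReal := hg.measurable.real_toNNReal
  have hc : ∀ x, ((g x).toNNReal : ℝ) = g x := fun x => Real.coe_toNNReal _ (h0 x).le
  have : IsFiniteMeasure ((volume.restrict Y).withDensity fun x => ((g x).toNNReal : ℝ≥0∞)) :=
    isFiniteMeasure_withDensity_ofReal hi.2
  have h1 := h ((volume.restrict Y).withDensity fun x => ((g x).toNNReal : ℝ≥0∞))
  have h2 : ((volume.restrict Y).withDensity fun x => ((g x).toNNReal : ℝ≥0∞)).real univ =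
      ∫ x in Y, g x := by
    have h3 := integral_withDensity_eq_integral_smul (μ := volume.restrict Y) hm
      (fun _ => (1 : ℝ))
    simp only [integral_const, smul_eq_mul, mul_one, NNReal.smul_def, hc] at h3
    exact h3
  rw [h2] at h1
  simp only [integral_withDensity_eq_integral_smul hm, NNReal.smul_def, hc, smul_eq_mul] at h1
  simp only [mul_assoc, integral_const_mul]
  exact h1

theorem sConv (hG : SGauss) (hC : SGConv) (hH : SHk) (hψ : SPsi) (hL : SLoc) : SConv := by
  obtain ⟨c, hc, hL⟩ := hL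
  refine ⟨c, hc, fun d n Y β a hP ha => ?_⟩
  have ha2 : 0 < 2 * a := by linarith
  obtain ⟨g1, g2, g3, g4, -⟩ := hG d (2 * a) ha2
  obtain ⟨f1, f2, -, -, -⟩ := hG d a ha
  obtain ⟨p1, p2, p3, -, -⟩ := hψ
  have hk : ∀ s, 0 ≤ s → |psi s| ≤ 1 := fun s hs => by
    rw [abs_of_nonneg (p2 s)]; exact (p3 s hs).1
  obtain ⟨-, -, -, -, hu⟩ := hH d n Y β psi hP p1 hk
  have hfin : volume Y ≠ ⊤ := hP.bdd.measure_lt_top.ne
  have : IsFiniteMeasure (volume.restrict Y) := ⟨by simpa using hfin.lt_top⟩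
  set K : E d × E d → ℝ := fun q => psi (‖β q.1 - β q.2‖ ^ 2) with hK
  have mK : Measurable K := p1.measurable.comp
    (((hP.meas.comp measurable_fst).sub (hP.meas.comp measurable_snd)).norm.pow_const 2)
  have bK : ∀ q, 0 ≤ K q ∧ K q ≤ 1 := fun q => ⟨p2 _, (p3 _ (sq_nonneg _)).1⟩
  set μ : Measure (E d × E d) := (volume.restrict Y).prod (volume.restrict Y) with hμ
  set F : E d × E d → E d → ℝ :=
    fun q z => G d (2 * a) (q.1 - z) * G d (2 * a) (q.2 - z) * K q with hF
  have mF : Measurable (Function.uncurry F) := by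
    have c1 : Continuous fun p : (E d × E d) × E d =>
        G d (2 * a) (p.1.1 - p.2) * G d (2 * a) (p.1.2 - p.2) := by fun_prop
    exact c1.measurable.mul (mK.comp measurable_fst)
  have hFz : ∀ q, ∫ z, F q z = G d a (q.2 - q.1) * K q := fun q => by
    simp only [hF]
    rw [integral_mul_const, (hC d a ha q.1 q.2).2, ← G_neg a (q.1 - q.2), neg_sub]
  have F0 : ∀ q z, 0 ≤ F q z := fun q z =>
    mul_nonneg (mul_nonneg (g2 _).le (g2 _).le) (bK q).1
  have bG : ∀ q : E d × E d, ‖G d a (q.2 - q.1) * K q‖ ≤ (a / Real.pi) ^ ((d : ℝ) / 2) :=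
    fun q => by
      rw [Real.norm_of_nonneg (mul_nonneg (f2 _).le (bK q).1)]
      nlinarith [G_le ha (q.2 - q.1), f2 (q.2 - q.1), bK q]
  have iG : Integrable (fun q : E d × E d => G d a (q.2 - q.1) * K q) μ := by
    have c1 : Continuous fun q : E d × E d => G d a (q.2 - q.1) := by fun_prop
    exact Integrable.of_bound (c1.measurable.mul mK).aestronglyMeasurable _ (ae_of_all _ bG)
  have iF : Integrable (Function.uncurry F) (μ.prod volume) := by
    refine (integrable_prod_iff mF.aestronglyMeasurable).2 ⟨ae_of_all _ fun q => ?_, ?_⟩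
    · exact (hC d a ha q.1 q.2).1.mul_const (K q)
    · refine iG.congr (ae_of_all _ fun q => ?_)
      simp only [Function.uncurry_apply_pair, Real.norm_of_nonneg (F0 _ _)]
      exact (hFz q).symm
  have sw : ∫ q, ∫ z, F q z ∂volume ∂μ = ∫ z, ∫ q, F q z ∂μ := integral_integral_swap iF
  have iz : Integrable fun z => ∫ q, F q z ∂μ := iF.integral_prod_right
  have e1 : ∫ w, G d a w * Hk Y β psi w = ∫ z, ∫ q, F q z ∂μ := by
    rw [hu _ f1, ← sw]
    simp only [hFz]
    exact (integral_prod _ iG).symm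
  have e2 : ∀ z, c * (∫ x in Y, G d (2 * a) (x - z)) ^ 2 ≤ (n + 2) * ∫ q, F q z ∂μ := fun z => by
    have c1 : Continuous fun x : E d => G d (2 * a) (x - z) := by fun_prop
    have i1 : Integrable (fun q => F q z) μ := by
      refine Integrable.of_bound
        (mF.comp (measurable_id.prodMk measurable_const)).aestronglyMeasurable
        ((2 * a / Real.pi) ^ ((d : ℝ) / 2) * (2 * a / Real.pi) ^ ((d : ℝ) / 2))
        (ae_of_all _ fun q => ?_)
      rw [Real.norm_of_nonneg (F0 _ _)]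
      have h1 := mul_le_mul (G_le ha2 (q.1 - z)) (G_le ha2 (q.2 - z)) (g2 _).le
        ((g2 (q.1 - z)).le.trans (G_le ha2 _))
      have h2 := mul_nonneg (g2 (q.1 - z)).le (g2 (q.2 - z)).le
      simp only [hF]
      nlinarith [bK q]
    rw [integral_prod _ i1]
    exact loc hP c1 (fun x => g2 _) (g3.comp_sub_right z).integrableOn
      fun ν _ => hL d n ν β hP.meas
  rw [e1, ← integral_const_mul, ← integral_const_mul]
  exact integral_mono_of_nonneg
    (ae_of_all _ fun z => mul_nonneg hc.le (sq_nonneg _)) (iz.const_mul _) (ae_of_all _ e2)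

end Pool.Agent.MP_66cee2_co.B.H68
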