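import Mathlib

/-! Gaussian localisation: a local lower bound for a kernel gives a global one. -/

open MeasureTheory Metric Real Function Set Filter Topology

namespace Pool.Agent.MP_66cee2_co.B.H89

section core

variable {X Z : Type} [MeasurableSpace X] [MeasurableSpace Z]

theorem weighted (μ : Measure X) [IsFiniteMeasure μ] (P : X → X → ℝ) (κ M : ℝ)
    (h : ∀ ν : Measure X, IsFiniteMeasure ν → κ * ν.real univ ^ 2 ≤ ∫ x, ∫ y, P x y ∂ν ∂ν)
    (g : X → ℝ) (hg : Measurable g) (g0 : ∀ x, 0 ≤ g x) (g1 : ∀ x, g x ≤ M) :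
    κ * (∫ x, g x ∂μ) ^ 2 ≤ ∫ x, ∫ y, g x * g y * P x y ∂μ ∂μ := by
  have hi : Integrable g μ := Integrable.of_bound hg.aestronglyMeasurable M
    (ae_of_all _ fun x => by rw [Real.norm_eq_abs, abs_of_nonneg (g0 x)]; exact g1 x)
  have e : ∀ f : X → ℝ, ∫ x, f x ∂(μ.withDensity fun x => ENNReal.ofReal (g x)) =
      ∫ x, g x * f x ∂μ := fun f => by
    rw [integral_withDensity_eq_integral_toReal_smul hg.ennreal_ofReal
      (ae_of_all _ fun x => ENNReal.ofReal_lt_top)]
    simp only [ENNReal.toReal_ofReal (g0 _), smul_eq_mul]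
  have hf : IsFiniteMeasure (μ.withDensity fun x => ENNReal.ofReal (g x)) :=
    isFiniteMeasure_withDensity_ofReal hi.2
  have a := h _ hf
  have b := e fun _ => 1
  simp only [integral_const, smul_eq_mul, mul_one] at b
  rw [b] at a
  simp only [e] at a
  simpa only [← integral_const_mul, mul_assoc] using a

theorem core (μ : Measure X) [IsFiniteMeasure μ] (l : Measure Z) [IsFiniteMeasure l]
    (P K : X → X → ℝ) (κ M : ℝ) (hP : Measurable (uncurry P)) (hK : Measurable (uncurry K))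
    (P0 : ∀ x y, 0 ≤ P x y) (P1 : ∀ x y, P x y ≤ 1) (K1 : ∀ x y, |K x y| ≤ M)
    (h : ∀ ν : Measure X, IsFiniteMeasure ν → κ * ν.real univ ^ 2 ≤ ∫ x, ∫ y, P x y ∂ν ∂ν)
    (g : X → Z → ℝ) (hg : Measurable (uncurry g)) (g0 : ∀ x z, 0 ≤ g x z) (g1 : ∀ x z, g x z ≤ M)
    (hk : ∀ x y, ∫ z, g x z * g y z ∂l ≤ K x y)
    (hi : Integrable (fun z => κ * (∫ x, g x z ∂μ) ^ 2) l) :
    ∫ z, κ * (∫ x, g x z ∂μ) ^ 2 ∂l ≤ ∫ x, ∫ y, K x y * P x y ∂μ ∂μ := by
  have m1 : Measurable fun q : Z × (X × X) => g q.2.1 q.1 * g q.2.2 q.1 * P q.2.1 q.2.2 :=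
    ((hg.comp (measurable_snd.fst.prodMk measurable_fst)).mul
      (hg.comp (measurable_snd.snd.prodMk measurable_fst))).mul (hP.comp measurable_snd)
  have bd : ∀ x y z, ‖g x z * g y z * P x y‖ ≤ M * M := fun x y z => by
    have a := g0 x z
    have b := g0 y z
    have c := P0 x y
    rw [Real.norm_eq_abs, abs_of_nonneg (by positivity)]
    exact (mul_le_of_le_one_right (by positivity) (P1 x y)).trans
      (mul_le_mul (g1 x z) (g1 y z) b (a.trans (g1 x z)))
  have i1 : Integrable (fun q : Z × (X × X) => g q.2.1 q.1 * g q.2.2 q.1 * P q.2.1 q.2.2)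
      (l.prod (μ.prod μ)) :=
    Integrable.of_bound m1.aestronglyMeasurable (M * M) (ae_of_all _ fun q => bd _ _ _)
  have i2 : ∀ z, Integrable (fun p : X × X => g p.1 z * g p.2 z * P p.1 p.2) (μ.prod μ) :=
    fun z => Integrable.of_bound (m1.comp measurable_prodMk_left).aestronglyMeasurable (M * M)
      (ae_of_all _ fun q => bd _ _ _)
  have i3 : Integrable (fun p : X × X => K p.1 p.2 * P p.1 p.2) (μ.prod μ) :=
    Integrable.of_bound (hK.mul hP).aestronglyMeasurable M (ae_of_all _ fun p => by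
      rw [Real.norm_eq_abs, abs_mul, abs_of_nonneg (P0 _ _)]
      exact (mul_le_of_le_one_right (abs_nonneg _) (P1 _ _)).trans (K1 _ _))
  calc ∫ z, κ * (∫ x, g x z ∂μ) ^ 2 ∂l
      ≤ ∫ z, ∫ p : X × X, g p.1 z * g p.2 z * P p.1 p.2 ∂(μ.prod μ) ∂l := by
        refine integral_mono hi i1.integral_prod_left fun z => ?_
        dsimp only
        rw [integral_prod _ (i2 z)]
        exact weighted μ P κ M h (fun x => g x z) (hg.comp measurable_prodMk_right)
          (fun x => g0 x z) fun x => g1 x z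
    _ = ∫ p : X × X, ∫ z, g p.1 z * g p.2 z * P p.1 p.2 ∂l ∂(μ.prod μ) :=
        integral_integral_swap (f := fun z (p : X × X) => g p.1 z * g p.2 z * P p.1 p.2) i1
    _ ≤ ∫ p : X × X, K p.1 p.2 * P p.1 p.2 ∂(μ.prod μ) := by
        refine integral_mono i1.integral_prod_right i3 fun p => ?_
        dsimp only
        rw [integral_mul_const]
        exact mul_le_mul_of_nonneg_right (hk _ _) (P0 _ _)
    _ = _ := integral_prod _ i3

end core

variable {d : ℕ}

/-- The normalised Gaussian. -/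
noncomputable def G (b : ℝ) (w : EuclideanSpace ℝ (Fin d)) : ℝ :=
  (b / π) ^ ((d : ℝ) / 2) * exp (-(b * ‖w‖ ^ 2))

theorem G_pos {b : ℝ} (hb : 0 < b) (w : EuclideanSpace ℝ (Fin d)) : 0 < G b w :=
  mul_pos (rpow_pos_of_pos (div_pos hb pi_pos) _) (exp_pos _)

theorem G_le {b : ℝ} (hb : 0 < b) (w : EuclideanSpace ℝ (Fin d)) :
    G b w ≤ (b / π) ^ ((d : ℝ) / 2) :=
  mul_le_of_le_one_right (rpow_pos_of_pos (div_pos hb pi_pos) _).le
    (exp_le_one_iff.2 (neg_nonpos.2 (by positivity)))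

theorem G_cont (b : ℝ) : Continuous (G (d := d) b) := by
  unfold G
  fun_prop

theorem G_int {b : ℝ} (hb : 0 < b) : ∫ w : EuclideanSpace ℝ (Fin d), G b w = 1 := by
  have a := GaussianFourier.integral_rexp_neg_mul_sq_norm (V := EuclideanSpace ℝ (Fin d)) hb
  simp only [neg_mul, finrank_euclideanSpace, Fintype.card_fin] at a
  simp only [G]
  rw [integral_const_mul, a, ← mul_rpow (div_pos hb pi_pos).le (div_pos pi_pos hb).le,
    div_mul_div_cancel₀ pi_pos.ne', div_self hb.ne', one_rpow]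

theorem G_ible {b : ℝ} (hb : 0 < b) : Integrable (G (d := d) b) :=
  Integrable.of_integral_ne_zero (by rw [G_int hb]; exact one_ne_zero)

theorem G_mul {a : ℝ} (ha : 0 < a) (x y z : EuclideanSpace ℝ (Fin d)) :
    G (2 * a) (x - z) * G (2 * a) (y - z) = G a (x - y) * G (4 * a) ((1 / 2 : ℝ) • (x + y) - z) := by
  have p := parallelogram_law_with_norm ℝ (x - z) (y - z)
  have e1 : x - z + (y - z) = (2 : ℝ) • ((1 / 2 : ℝ) • (x + y) - z) := by module
  have e2 : x - z - (y - z) = x - y := by abel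
  rw [e1, e2, norm_smul, Real.norm_ofNat] at p
  have q := pi_pos
  have c : (2 * a / π) ^ ((d : ℝ) / 2) * (2 * a / π) ^ ((d : ℝ) / 2) =
      (a / π) ^ ((d : ℝ) / 2) * (4 * a / π) ^ ((d : ℝ) / 2) := by
    rw [← mul_rpow (by positivity) (by positivity), ← mul_rpow (by positivity) (by positivity)]
    have : 2 * a / π * (2 * a / π) = a / π * (4 * a / π) := by ring
    rw [this]
  have f : -(2 * a * ‖x - z‖ ^ 2) + -(2 * a * ‖y - z‖ ^ 2) =
      -(a * ‖x - y‖ ^ 2) + -(4 * a * ‖(1 / 2 : ℝ) • (x + y) - z‖ ^ 2) := by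
    linear_combination a * p
  simp only [G]
  rw [mul_mul_mul_comm, c, ← exp_add, f, exp_add, mul_mul_mul_comm]

theorem G_conv {a : ℝ} (ha : 0 < a) (S : Set (EuclideanSpace ℝ (Fin d)))
    (x y : EuclideanSpace ℝ (Fin d)) :
    ∫ z in S, G (2 * a) (x - z) * G (2 * a) (y - z) ≤ G a (x - y) := by
  have h4 : 0 < 4 * a := by positivity
  simp only [G_mul ha]
  rw [integral_const_mul]
  refine mul_le_of_le_one_right (G_pos ha _).le ?_
  refine le_of_le_of_eq ?_ ((integral_sub_left_eq_self (G (d := d) (4 * a)) volume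
    ((1 / 2 : ℝ) • (x + y))).trans (G_int h4))
  exact setIntegral_le_integral ((G_ible (d := d) h4).comp_sub_left ((1 / 2 : ℝ) • (x + y)))
    (ae_of_all _ fun z => (G_pos h4 _).le)

theorem exists_L {b : ℝ} (hb : 0 < b) :
    ∃ L : ℝ, 0 < L ∧ 1 / 2 ≤ ∫ w in ball (0 : EuclideanSpace ℝ (Fin d)) L, G b w := by
  have t := tendsto_setIntegral_of_monotone (μ := volume) (f := G (d := d) b)
    (s := fun n : ℕ => ball 0 (n : ℝ)) (fun _ => measurableSet_ball)
    (fun m n h => ball_subset_ball (Nat.cast_le.2 h)) (G_ible hb).integrableOn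
  rw [iUnion_ball_nat, Measure.restrict_univ, G_int hb] at t
  obtain ⟨n, h1, h2⟩ := ((t.eventually (lt_mem_nhds (show (1 / 2 : ℝ) < 1 by norm_num))).and
    (eventually_gt_atTop 0)).exists
  exact ⟨n, Nat.cast_pos.2 h2, h1.le⟩

theorem exists_R {L : ℝ} (hL : 0 < L) : ∃ R : ℝ, 0 < R ∧
    volume.real (ball (0 : EuclideanSpace ℝ (Fin d)) (R + L)) ≤
      2 * volume.real (ball (0 : EuclideanSpace ℝ (Fin d)) R) := by
  have c : Tendsto (fun s : ℝ => (1 + s) ^ d) (𝓝[>] 0) (𝓝 ((1 + 0) ^ d)) :=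
    ((by fun_prop : Continuous fun s : ℝ => (1 + s) ^ d).tendsto 0).mono_left nhdsWithin_le_nhds
  obtain ⟨s, h1, h2⟩ := ((c.eventually (gt_mem_nhds (show ((1 : ℝ) + 0) ^ d < 2 by simp))).and
    self_mem_nhdsWithin).exists
  have s0 : 0 < s := h2
  have r0 := div_pos hL s0
  refine ⟨L / s, r0, ?_⟩
  have e : L / s + L = (1 + s) * (L / s) := by field_simp
  rw [e, measureReal_def, measureReal_def, Measure.addHaar_ball_mul_of_pos _ _ (by positivity),
    ENNReal.toReal_mul, ENNReal.toReal_ofReal (by positivity)]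
  simp only [finrank_euclideanSpace, Fintype.card_fin]
  exact mul_le_mul_of_nonneg_right h1.le ENNReal.toReal_nonneg

theorem mass {b L R : ℝ} (hb : 0 < b) {x : EuclideanSpace ℝ (Fin d)} (hx : x ∈ ball 0 R) :
    ∫ w in ball (0 : EuclideanSpace ℝ (Fin d)) L, G b w ≤ ∫ z in ball 0 (R + L), G b (x - z) := by
  rw [← integral_indicator measurableSet_ball, ← integral_indicator measurableSet_ball,
    ← integral_sub_left_eq_self _ volume x]
  refine integral_mono (((G_ible hb).indicator measurableSet_ball).comp_sub_left x)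
    (((G_ible hb).comp_sub_left x).indicator measurableSet_ball) fun z => ?_
  dsimp only
  by_cases h : x - z ∈ ball (0 : EuclideanSpace ℝ (Fin d)) L
  · have : z ∈ ball (0 : EuclideanSpace ℝ (Fin d)) (R + L) := by
      rw [mem_ball_zero_iff] at *
      have := norm_sub_le x (x - z)
      rw [sub_sub_cancel] at this
      linarith
    rw [indicator_of_mem h, indicator_of_mem this]
  · rw [indicator_of_notMem h]
    exact indicator_nonneg (fun z _ => (G_pos hb _).le) _

theorem conv (d : ℕ) (a : ℝ) (ha : 0 < a) : ∃ R : ℝ, 0 < R ∧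
    ∀ (Y : Set (EuclideanSpace ℝ (Fin d)))
      (P : EuclideanSpace ℝ (Fin d) → EuclideanSpace ℝ (Fin d) → ℝ) (κ : ℝ),
      MeasurableSet Y → Y ⊆ ball 0 R →
      volume.real (ball (0 : EuclideanSpace ℝ (Fin d)) R) ≤ 8 * volume.real Y →
      Measurable (uncurry P) → (∀ x y, 0 ≤ P x y) → (∀ x y, P x y ≤ 1) → 0 ≤ κ →
      (∀ ν : Measure (EuclideanSpace ℝ (Fin d)), IsFiniteMeasure ν →
        κ * ν.real univ ^ 2 ≤ ∫ x, ∫ y, P x y ∂ν ∂ν) →
      κ * volume.real Y / 64 ≤
        ∫ x in Y, ∫ y in Y, (a / π) ^ ((d : ℝ) / 2) * exp (-(a * ‖x - y‖ ^ 2)) * P x y := by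
  have h2 : 0 < 2 * a := by positivity
  obtain ⟨L, L0, hL⟩ := exists_L (d := d) h2
  obtain ⟨R, R0, hR⟩ := exists_R (d := d) L0
  refine ⟨R, R0, fun Y P κ hY hs hv hP P0 P1 k0 h => ?_⟩
  have : IsFiniteMeasure (volume.restrict Y) :=
    isFiniteMeasure_restrict.2 ((measure_mono hs).trans_lt measure_ball_lt_top).ne
  have : IsFiniteMeasure (volume.restrict (ball (0 : EuclideanSpace ℝ (Fin d)) (R + L))) :=
    isFiniteMeasure_restrict.2 measure_ball_lt_top.ne
  set M := max ((a / π) ^ ((d : ℝ) / 2)) ((2 * a / π) ^ ((d : ℝ) / 2)) with hM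
  have hg : Measurable (uncurry fun x z : EuclideanSpace ℝ (Fin d) => G (2 * a) (x - z)) :=
    ((G_cont _).comp (continuous_fst.sub continuous_snd)).measurable
  have hK : Measurable (uncurry fun x z : EuclideanSpace ℝ (Fin d) => G a (x - z)) :=
    ((G_cont _).comp (continuous_fst.sub continuous_snd)).measurable
  have g1 : ∀ w : EuclideanSpace ℝ (Fin d), G (2 * a) w ≤ M := fun w =>
    (G_le h2 w).trans (le_max_right _ _)
  have i1 : Integrable (uncurry fun x z : EuclideanSpace ℝ (Fin d) => G (2 * a) (x - z))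
      ((volume.restrict Y).prod (volume.restrict (ball 0 (R + L)))) :=
    Integrable.of_bound hg.aestronglyMeasurable M (ae_of_all _ fun q => by
      rw [Real.norm_eq_abs]
      exact (abs_of_pos (G_pos h2 _)).trans_le (g1 _))
  have i2 : Integrable (fun z => ∫ x in Y, G (2 * a) (x - z))
      (volume.restrict (ball (0 : EuclideanSpace ℝ (Fin d)) (R + L))) := i1.integral_prod_right
  have i3 : Integrable (fun z => κ * (∫ x in Y, G (2 * a) (x - z)) ^ 2)
      (volume.restrict (ball (0 : EuclideanSpace ℝ (Fin d)) (R + L))) := by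
    refine Integrable.const_mul ?_ κ
    refine Integrable.of_bound (i2.1.pow 2) ((M * (volume.restrict Y).real univ) ^ 2)
      (ae_of_all _ fun z => ?_)
    rw [norm_pow]
    refine pow_le_pow_left₀ (norm_nonneg _) (norm_integral_le_of_norm_le_const
      (ae_of_all _ fun x => ?_)) 2
    rw [Real.norm_eq_abs]
    exact (abs_of_pos (G_pos h2 _)).trans_le (g1 _)
  have c := core (volume.restrict Y) (volume.restrict (ball 0 (R + L))) P
    (fun x y => G a (x - y)) κ M hP hK P0 P1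
    (fun x y => (abs_of_pos (G_pos ha _)).trans_le ((G_le ha _).trans (le_max_left _ _))) h
    (fun x z => G (2 * a) (x - z)) hg (fun x z => (G_pos h2 _).le) (fun x z => g1 _)
    (fun x y => G_conv ha _ x y) i3
  refine le_trans ?_ c
  have m : volume.real Y / 2 ≤ ∫ z in ball 0 (R + L), ∫ x in Y, G (2 * a) (x - z) := by
    rw [← integral_integral_swap i1]
    have : ∫ _ in Y, (1 / 2 : ℝ) ≤ ∫ x in Y, ∫ z in ball 0 (R + L), G (2 * a) (x - z) :=
      setIntegral_mono_on (integrable_const _) i1.integral_prod_left hY fun x hx =>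
        hL.trans (mass h2 (hs hx))
    rw [setIntegral_const, smul_eq_mul] at this
    linarith
  have q : ∫ z in ball 0 (R + L), κ * ((∫ x in Y, G (2 * a) (x - z)) / 16 - 1 / 1024) ≤
      ∫ z in ball 0 (R + L), κ * (∫ x in Y, G (2 * a) (x - z)) ^ 2 :=
    integral_mono (((i2.div_const 16).sub (integrable_const _)).const_mul κ) i3 fun z =>
      mul_le_mul_of_nonneg_left (by nlinarith [sq_nonneg ((∫ x in Y, G (2 * a) (x - z)) - 1 / 32)]) k0
  refine le_trans ?_ q
  rw [integral_const_mul, integral_sub (i2.div_const 16) (integrable_const _), integral_div,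
    setIntegral_const, smul_eq_mul, mul_div_assoc]
  exact mul_le_mul_of_nonneg_left (by linarith) k0

theorem pigeon {X : Type} [MeasurableSpace X] (μ : Measure X) (Y : Fin 4 → Set X) (v : ℝ)
    (hf : ∀ c, μ (Y c) ≠ ⊤) (h : v / 2 ≤ μ.real (⋃ c, Y c)) : ∃ c, v ≤ 8 * μ.real (Y c) := by
  by_contra hn
  push Not at hn
  have a := measureReal_iUnion_fintype_le (μ := μ) Y
  rw [Fin.sum_univ_four] at a
  linarith [hn 0, hn 1, hn 2, hn 3]

end Pool.Agent.MP_66cee2_co.B.H89
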