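import Pool.Agent.MP_66cee2_co.B.Spec
import Pool.Agent.MP_66cee2_co.XI.Kit

/-
Density points of a set with almost no unit pair have no nearly unit pair.
-/

namespace Pool.Agent.MP_66cee2_co.B.H93

open MeasureTheory Set Filter Metric Topology Pool.Agent.MP_66cee2_co.X
  Pool.Agent.MP_66cee2_co.XI
open scoped ENNReal

theorem shift {d : ℕ} {Z : Set (E d)} {r e : ℝ} {x y δ : E d} (hx : x ∈ Den Z r)
    (hy : y ∈ Den Z r) (he : 0 < e) (hr : 2 * e ≤ r) (hδ : ‖δ‖ ≤ e)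
    (hn : ∀ᵐ z : E d, ¬ (z + x ∈ Z ∧ z + (y + δ) ∈ Z)) : False := by
  have h1 := (hx.2 e he (by linarith)).shift (y := 0) (τ := e) (by linarith) x (by simp)
  have h2 := (hy.2 (2 * e) (by linarith) hr).shift (y := 0) (τ := e) (by linarith) (y + δ)
    (by simp only [zero_add, add_sub_cancel_left]; linarith)
  have h3 : ball (0 : E d) e ≤ᵐ[volume]
      (({z | z + x ∈ Zᶜ} ∩ ball 0 e) ∪ ({z | z + (y + δ) ∈ Zᶜ} ∩ ball 0 e) : Set (E d)) := by
    filter_upwards [hn] with z h0 hz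
    by_cases h : z + x ∈ Z
    · exact Or.inr ⟨fun h' => h0 ⟨h, h'⟩, hz⟩
    · exact Or.inl ⟨h, hz⟩
  have h4 := (measure_mono_ae h3).trans ((measure_union_le _ _).trans (add_le_add h1 h2))
  have h5 : (16⁻¹ : ℝ≥0∞) < 2⁻¹ := ENNReal.inv_lt_inv.2 (by norm_num)
  have h6 : (16⁻¹ + 16⁻¹ : ℝ≥0∞) < 1 :=
    (ENNReal.add_lt_add h5 h5).trans_eq ENNReal.inv_two_add_inv_two
  have h7 := ENNReal.mul_lt_mul_left (measure_ball_pos volume (0 : E d) he).ne'
    measure_ball_lt_top.ne h6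
  rw [add_mul, one_mul] at h7
  exact absurd (h4.trans_lt h7) (lt_irrefl _)

theorem sNoP : SNoP := by
  intro d A r _ hr hA
  obtain ⟨e, he₀, h1, h3⟩ : ∃ e : ℝ, 0 < e ∧ 2 * e ≤ r ∧ 2 * e ≤ 1 :=
    ⟨min r 1 / 2, by positivity, by linarith [min_le_left r 1], by linarith [min_le_right r 1]⟩
  refine ⟨e, he₀, fun x hx y hy => ?_⟩
  by_contra hlt
  have he := not_le.1 hlt
  obtain ⟨t, ht⟩ : ∃ t : ℝ, t = ‖y - x‖ := ⟨_, rfl⟩
  have ht0 : 0 ≤ t := ht ▸ norm_nonneg _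
  rw [norm_sub_rev, ← ht] at he
  have ht1 : 0 < t := by
    refine ht0.lt_of_ne fun h' => ?_
    rw [← h'] at he
    norm_num at he
    linarith
  have b0 : |1 - t| ≤ |t ^ 2 - 1| := by
    rw [show t ^ 2 - 1 = (1 - t) * -(1 + t) by ring, abs_mul, abs_neg,
      abs_of_pos (by linarith : 0 < 1 + t)]
    nlinarith [abs_nonneg (1 - t)]
  have b1 : ‖(t⁻¹ - 1) • (y - x)‖ ≤ e := by
    have e1 : |t⁻¹ - 1| * t = |1 - t| := by
      rw [show (1 - t) = (t⁻¹ - 1) * t by field_simp, abs_mul, abs_of_pos ht1]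
    rw [norm_smul, ← ht, Real.norm_eq_abs, e1]
    linarith
  have b2 : ‖t⁻¹ • (y - x)‖ = 1 := by
    rw [norm_smul, ← ht, norm_inv, Real.norm_eq_abs, abs_of_pos ht1, inv_mul_cancel₀ ht1.ne']
  have b3 := (measurePreserving_add_right (volume : Measure (E d)) x).quasiMeasurePreserving.ae
    (hA _ b2)
  refine shift hx hy he₀ h1 b1 ?_
  filter_upwards [b3] with z hz
  rwa [show z + (y + (t⁻¹ - 1) • (y - x)) = z + x + t⁻¹ • (y - x) by module]

end Pool.Agent.MP_66cee2_co.B.H93
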