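import Pool.Agent.MP_66cee2_co.B.Spec
import Pool.Agent.MP_66cee2_co.B.H37PD

/-
Explicit base: elementary facts on correlations.
-/

namespace Pool.Agent.MP_66cee2_co.B

open MeasureTheory Set Pool.Agent.MP_66cee2_co.X
open scoped RealInnerProductSpace

namespace Hkx

theorem unfold_int {d : ℕ} {Y : Set (E d)} (hY : MeasurableSet Y) {k : E d × E d → ℝ}
    (hk : Integrable k ((volume.restrict Y).prod (volume.restrict Y))) :
    Integrable (fun w : E d => ∫ x, (Y ×ˢ Y).indicator k (x, x + w)) ∧
    ∫ w : E d, ∫ x, (Y ×ˢ Y).indicator k (x, x + w) = ∫ x in Y, ∫ y in Y, k (x, y) := by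
  have hI : Integrable ((Y ×ˢ Y).indicator k) ((volume : Measure (E d)).prod volume) := by
    rw [integrable_indicator_iff (hY.prod hY), IntegrableOn, ← Measure.prod_restrict]
    exact hk
  have hm := measurePreserving_prod_add (volume : Measure (E d)) (volume : Measure (E d))
  have hI2 : Integrable (fun z : E d × E d => (Y ×ˢ Y).indicator k (z.1, z.1 + z.2))
      ((volume : Measure (E d)).prod volume) := hm.integrable_comp_of_integrable hI
  refine ⟨hI2.integral_prod_right, ?_⟩
  rw [← integral_prod_symm _ hI2, ← integral_prod _ hk, Measure.prod_restrict,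
    ← integral_indicator (hY.prod hY)]
  exact hm.integral_comp (MeasurableEquiv.shearAddRight (E d)).measurableEmbedding _

theorem hk_eq {d n : ℕ} {Y : Set (E d)} (hY : MeasurableSet Y) (β : E d → E n) (k : ℝ → ℝ)
    (φ : E d → ℝ) (w : E d) : φ w * Hk Y β k w = ∫ x, (Y ×ˢ Y).indicator
      (fun p : E d × E d => φ (p.2 - p.1) * k (‖β p.1 - β p.2‖ ^ 2)) (x, x + w) := by
  have hm : MeasurableSet (Y ∩ {x | x + w ∈ Y}) := hY.inter (measurable_add_const w hY)
  rw [Hk, ← integral_const_mul, ← integral_indicator hm]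
  refine integral_congr_ae (ae_of_all _ fun x => ?_)
  by_cases hx : x ∈ Y <;> by_cases hy : x + w ∈ Y <;> simp [hx, hy]

end Hkx

open Hkx

theorem sHk : SHk := by
  intro d n Y β k hY hk hk1
  have hf : volume Y ≠ ⊤ := hY.bdd.measure_lt_top.ne
  have : IsFiniteMeasure (volume.restrict Y) := isFiniteMeasure_restrict.2 hf
  have hb := hY.meas
  have hkm := hk.measurable
  have hK : Measurable fun p : E d × E d => k (‖β p.1 - β p.2‖ ^ 2) := by fun_prop
  have hint : ∀ φ : E d → ℝ, Continuous φ →
      Integrable (fun p : E d × E d => φ (p.2 - p.1) * k (‖β p.1 - β p.2‖ ^ 2))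
        ((volume.restrict Y).prod (volume.restrict Y)) := by
    intro φ hφ
    obtain ⟨R, hR⟩ := hY.bdd.exists_norm_le
    obtain ⟨C, hC⟩ := (isCompact_closedBall (0 : E d) (R + R)).exists_bound_of_continuousOn
      hφ.continuousOn
    have hφm := hφ.measurable
    refine (integrable_const C).mono' (Measurable.aestronglyMeasurable (by fun_prop)) ?_
    rw [Measure.prod_restrict]
    filter_upwards [ae_restrict_mem (hY.ms.prod hY.ms)] with p hp
    rw [norm_mul]
    refine (mul_le_of_le_one_right (norm_nonneg _) (hk1 _ (by positivity))).trans (hC _ ?_)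
    rw [mem_closedBall_zero_iff]
    exact (norm_sub_le _ _).trans (add_le_add (hR _ hp.2) (hR _ hp.1))
  have e1 : Hk Y β k = fun w => ∫ x, (Y ×ˢ Y).indicator
      (fun p : E d × E d => (1 : ℝ) * k (‖β p.1 - β p.2‖ ^ 2)) (x, x + w) := by
    funext w
    rw [← hk_eq hY.ms β k (fun _ => 1) w, one_mul]
  refine ⟨?_, ?_, fun w => ?_, fun w => ?_, fun φ hφ => ?_⟩
  · rw [e1]
    have hm : Measurable fun z : E d × E d => (Y ×ˢ Y).indicator
        (fun p : E d × E d => (1 : ℝ) * k (‖β p.1 - β p.2‖ ^ 2)) (z.1, z.1 + z.2) :=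
      ((hK.const_mul 1).indicator (hY.ms.prod hY.ms)).comp (by fun_prop)
    exact hm.stronglyMeasurable.integral_prod_left'.measurable
  · rw [e1]
    exact (unfold_int hY.ms (hint (fun _ => 1) continuous_const)).1
  · have hlt : volume (Y ∩ {x | x + w ∈ Y}) < ⊤ :=
      (measure_mono inter_subset_left).trans_lt hf.lt_top
    have h := norm_setIntegral_le_of_norm_le_const (C := 1) hlt
      (f := fun x => k (‖β x - β (x + w)‖ ^ 2)) fun x _ => hk1 _ (by positivity)
    rw [one_mul] at h
    exact h.trans (measureReal_mono inter_subset_left hf)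
  · rw [e1]
    simp only []
    rw [← integral_add_right_eq_self _ w]
    refine integral_congr_ae (ae_of_all _ fun x => ?_)
    simp only [add_neg_cancel_right]
    by_cases hx : x ∈ Y <;> by_cases hy : x + w ∈ Y <;> simp [hx, hy, norm_sub_rev]
  · simp only [hk_eq hY.ms β k φ]
    exact (unfold_int hY.ms (hint φ hφ)).2

end Pool.Agent.MP_66cee2_co.B
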