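import Pool.Agent.MP_66cee2_co.D.Defs
import Pool.Agent.MP_66cee2_co.X.SpecJ

/-
Explicit base: definitions and statements.
-/

namespace Pool.Agent.MP_66cee2_co.B

open MeasureTheory Set Filter Metric Topology Polynomial Pool.Agent.MP_66cee2_co.X
  Pool.Agent.MP_66cee2_co.XI
open scoped ENNReal RealInnerProductSpace

/-- cosine transform of a polynomial density on `[-1, 1]`. -/
noncomputable def Phi (ρ : ℝ[X]) (s : ℝ) : ℝ := ∫ u in (-1 : ℝ)..1, Real.cos (s * u) * ρ.eval u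

/-- the Gaussian of mass one. -/
noncomputable def G (d : ℕ) (a : ℝ) (w : E d) : ℝ :=
  (a / Real.pi) ^ ((d : ℝ) / 2) * Real.exp (-a * ‖w‖ ^ 2)

/-- the test function. -/
noncomputable def psi (s : ℝ) : ℝ := (Real.exp (-s) - Real.exp (-1)) ^ 2

/-- cosine transform in space. -/
noncomputable def ct {d : ℕ} (H : E d → ℝ) (ξ : E d) : ℝ := ∫ w, H w * Real.cos ⟪ξ, w⟫

/-- a bounded measurable set with a measurable map. -/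
structure Pre {d n : ℕ} (Y : Set (E d)) (β : E d → E n) : Prop where
  ms : MeasurableSet Y
  bdd : Bornology.IsBounded Y
  meas : Measurable β

/-- nearly unit pairs go to nearly unit pairs, to order `p`. -/
def Van {d n : ℕ} (Y : Set (E d)) (β : E d → E n) (p : ℕ) : Prop :=
  ∃ B : ℝ, ∀ x ∈ Y, ∀ y ∈ Y, (1 - ‖β x - β y‖ ^ 2) ^ 2 ≤ B * |‖x - y‖ ^ 2 - 1| ^ p

/-- the correlation with kernel `k`. -/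
noncomputable def Hk {d n : ℕ} (Y : Set (E d)) (β : E d → E n) (k : ℝ → ℝ) (w : E d) : ℝ :=
  ∫ x in Y ∩ {x | x + w ∈ Y}, k (‖β x - β (x + w)‖ ^ 2)

/-- bounded positive definite functions. -/
structure PD {d : ℕ} (H : E d → ℝ) (A : ℝ) : Prop where
  int : Integrable H
  bd : ∀ w, |H w| ≤ A
  even : ∀ w, H (-w) = H w
  pos : ∀ ξ, 0 ≤ ct H ξ

/-- `H` is the cosine transform of `μ₁ - μ₂`, weakly. -/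
structure Rep {d : ℕ} (H : E d → ℝ) (A : ℝ) (μ₁ μ₂ : Measure (E d)) : Prop where
  fin₁ : IsFiniteMeasure μ₁
  fin₂ : IsFiniteMeasure μ₂
  mass : μ₁.real univ + μ₂.real univ ≤ A
  weak : ∀ φ : E d → ℝ, Integrable φ → ∫ w, φ w * H w = ∫ ξ, ct φ ξ ∂μ₁ - ∫ ξ, ct φ ξ ∂μ₂

/-- `D - (u ρ)'`. -/
noncomputable def Dd (D : ℕ) (ρ : ℝ[X]) : ℝ[X] := C (D : ℝ) * ρ - derivative (X * ρ)

/-- the density `(1 - u ^ 2) ^ k`. -/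
noncomputable def rho (k : ℕ) : ℝ[X] := (1 - X ^ 2) ^ k

/-- the radial integral. -/
noncomputable def IP {d : ℕ} (μ : Measure (E d)) (ρ : ℝ[X]) (t : ℝ) : ℝ :=
  ∫ ξ, Phi ρ (‖ξ‖ * t) ∂μ

/-- the error of the approximation. -/
noncomputable def mm (l : ℕ) : ℝ :=
  √(22 / 25 * l / Real.pi) *
    (2 * (3 * ((4 : ℝ) ^ l)⁻¹ * Real.exp (22 / 25 * l / 2 * ((4 + 4⁻¹) / 2 - 1))) +
      2 * Real.exp (-(22 / 25 * l)) / (22 / 25 * l))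

/-- the conclusion of the measurable theorem. -/
def Concl {d n : ℕ} (P : E d → Matrix (Ix n) (Ix n) ℝ) : Prop :=
  ∃ g : E d → E n, Iso g ∧ ∀ᵐ x, ∀ a b, P x a b = P x sI sI * lift (g x) a * lift (g x) b

/-! ### Gaussians and positive definite functions -/

def SGauss : Prop :=
  ∀ (d : ℕ) (a : ℝ), 0 < a → Continuous (G d a) ∧ (∀ w, 0 < G d a w) ∧ Integrable (G d a) ∧
    ∫ w, G d a w = 1 ∧ ∀ ξ, ct (G d a) ξ = Real.exp (-‖ξ‖ ^ 2 / (4 * a))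

def SGConv : Prop :=
  ∀ (d : ℕ) (a : ℝ), 0 < a → ∀ x y : E d,
    Integrable (fun z => G d (2 * a) (x - z) * G d (2 * a) (y - z)) ∧
      ∫ z, G d (2 * a) (x - z) * G d (2 * a) (y - z) = G d a (x - y)

def SBo1 : Prop :=
  ∀ (d : ℕ) (H : E d → ℝ) (A : ℝ), PD H A →
    Integrable (ct H) ∧ ∫ ξ, ct H ξ ≤ (2 * Real.pi) ^ d * A

def SBo2 : Prop :=
  ∀ (d : ℕ) (H : E d → ℝ) (A : ℝ), PD H A → Integrable (ct H) →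
    ∀ᵐ w, (2 * Real.pi) ^ d * H w = ct (ct H) w

def SBo : Prop := ∀ (d : ℕ) (H : E d → ℝ) (A : ℝ), PD H A → ∃ μ, Rep H A μ 0

/-- elementary facts on correlations. -/
def SHk : Prop :=
  ∀ (d n : ℕ) (Y : Set (E d)) (β : E d → E n) (k : ℝ → ℝ), Pre Y β → Continuous k →
    (∀ s, 0 ≤ s → |k s| ≤ 1) → Measurable (Hk Y β k) ∧ Integrable (Hk Y β k) ∧
      (∀ w, |Hk Y β k w| ≤ volume.real Y) ∧ (∀ w, Hk Y β k (-w) = Hk Y β k w) ∧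
      ∀ φ : E d → ℝ, Continuous φ →
        ∫ w, φ w * Hk Y β k w = ∫ x in Y, ∫ y in Y, φ (y - x) * k (‖β x - β y‖ ^ 2)

/-- positivity of the double integral. -/
def SPos : Prop :=
  ∀ (d n : ℕ) (Y : Set (E d)) (β : E d → E n) (lam : ℝ) (ξ : E d), Pre Y β → 0 ≤ lam →
    0 ≤ ∫ x in Y, ∫ y in Y, Real.cos ⟪ξ, y - x⟫ * Real.exp (-lam * ‖β x - β y‖ ^ 2)

def SRep : Prop :=
  ∀ (d n : ℕ) (Y : Set (E d)) (β : E d → E n), Pre Y β →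
    ∃ μ₁ μ₂, Rep (Hk Y β psi) (2 * volume.real Y) μ₁ μ₂

/-! ### The ball and the derivatives -/

def SSlice : Prop :=
  ∀ l : ℕ, ∃ v : ℝ, 0 < v ∧ ∀ t : ℝ, 0 < t → ∀ f : ℝ → ℝ, Continuous f →
    ∫ w in ball (0 : E (2 * l + 3)) t, f (w 0) = v * ∫ u in (-t)..t, f u * (t ^ 2 - u ^ 2) ^ (l + 1)

def SBall : Prop :=
  ∀ l : ℕ, ∃ v : ℝ, 0 < v ∧ ∀ t : ℝ, 0 < t → ∀ ξ : E (2 * l + 3),
    ct ((ball (0 : E (2 * l + 3)) t).indicator fun _ => (1 : ℝ)) ξ =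
      v * (t ^ (2 * l + 3) * Phi (rho (l + 1)) (‖ξ‖ * t))

def SVan : Prop :=
  ∀ (d n p : ℕ) (Y : Set (E d)) (β : E d → E n), Pre Y β → Van Y β p → ∃ C : ℝ,
    ∀ t ∈ Icc (1 : ℝ) 2, |(∫ w, (ball (0 : E d) t).indicator (fun _ => (1 : ℝ)) w * Hk Y β psi w) -
      ∫ w, (ball (0 : E d) 1).indicator (fun _ => (1 : ℝ)) w * Hk Y β psi w| ≤ C * (t - 1) ^ p

def SD1 : Prop :=
  ∀ ρ : ℝ[X], Continuous (Phi ρ) ∧ (∃ M, ∀ s, |Phi ρ s| ≤ M) ∧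
    (∀ (σ : ℝ[X]) (c s : ℝ), Phi (ρ + σ) s = Phi ρ s + Phi σ s ∧ Phi (c • ρ) s = c * Phi ρ s) ∧
    (ρ.eval 1 = 0 → ρ.eval (-1) = 0 → ∀ k t : ℝ, t ≠ 0 →
      HasDerivAt (fun t => Phi ρ (k * t)) (-Phi (derivative (X * ρ)) (k * t) / t) t)

def SD2 : Prop :=
  ∀ (d D : ℕ) (μ : Measure (E d)) [IsFiniteMeasure μ] (ρ : ℝ[X]), Continuous (IP μ ρ) ∧
    (∀ (σ : ℝ[X]) (c t : ℝ), IP μ (ρ + σ) t = IP μ ρ t + IP μ σ t ∧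
      IP μ (c • ρ) t = c * IP μ ρ t) ∧
    (ρ.eval 1 = 0 → ρ.eval (-1) = 0 → ∀ t : ℝ, 0 < t →
      HasDerivAt (fun t => t ^ D * IP μ ρ t) (t ^ D * IP μ (Dd D ρ) t / t) t)

def SD3 : Prop :=
  ∀ (l : ℕ) (f : ℕ → ℝ → ℝ) (C : ℝ),
    (∀ j ≤ l, ∀ t : ℝ, 0 < t → HasDerivAt (f j) (f (j + 1) t / t) t) → Continuous (f (l + 1)) →
    (∀ t ∈ Icc (1 : ℝ) 2, |f 0 t - f 0 1| ≤ C * (t - 1) ^ (l + 2)) → ∀ j ≤ l, f (j + 1) 1 = 0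

def SD4 : Prop :=
  ∀ l : ℕ, (∀ j ≤ l, ((Dd (2 * l + 3))^[j] (rho (l + 1))).eval 1 = 0 ∧
      ((Dd (2 * l + 3))^[j] (rho (l + 1))).eval (-1) = 0) ∧
    ∀ L : ℝ[X] →ₗ[ℝ] ℝ, (∀ j ≤ l, L ((Dd (2 * l + 3))^[j + 1] (rho (l + 1))) = 0) →
      ∀ r : ℝ[X], r.natDegree ≤ l → L (r.comp (X ^ 2)) = 0

def SDer : Prop :=
  ∀ (l d : ℕ) (μ₁ μ₂ : Measure (E d)) [IsFiniteMeasure μ₁] [IsFiniteMeasure μ₂] (C : ℝ),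
    (∀ t ∈ Icc (1 : ℝ) 2, |t ^ (2 * l + 3) * (IP μ₁ (rho (l + 1)) t - IP μ₂ (rho (l + 1)) t) -
      (IP μ₁ (rho (l + 1)) 1 - IP μ₂ (rho (l + 1)) 1)| ≤ C * (t - 1) ^ (l + 2)) →
    ∀ r : ℝ[X], r.natDegree ≤ l → IP μ₁ (r.comp (X ^ 2)) 1 = IP μ₂ (r.comp (X ^ 2)) 1

/-! ### Approximation -/

def SCh1 : Prop :=
  ∀ (j l : ℕ) (x : ℝ), 1 ≤ x → ∃ r : ℝ[X], r.natDegree ≤ l ∧ ∀ y ∈ Icc (-1 : ℝ) 1,
    |y ^ j - r.eval y| ≤ 2 * (x ^ l)⁻¹ * ((x + x⁻¹) / 2) ^ j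

def SCh : Prop :=
  ∀ (l : ℕ) (a x : ℝ), 0 ≤ a → 1 ≤ x → ∃ r : ℝ[X], r.natDegree ≤ l ∧ ∀ v ∈ Icc (0 : ℝ) 1,
    |Real.exp (-a * v) - r.eval v| ≤ 3 * (x ^ l)⁻¹ * Real.exp (a / 2 * ((x + x⁻¹) / 2 - 1))

def SGa1 : Prop :=
  ∀ (a ε : ℝ) (r : ℝ[X]), 0 < a → (∀ v ∈ Icc (0 : ℝ) 1, |Real.exp (-a * v) - r.eval v| ≤ ε) →
    ∀ k : ℝ, |√(a / Real.pi) * Phi (r.comp (X ^ 2)) k - Real.exp (-k ^ 2 / (4 * a))| ≤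
      √(a / Real.pi) * (2 * ε + 2 * Real.exp (-a) / a)

def SNum : Prop :=
  ∀ c : ℝ, 0 < c → ∀ᶠ l : ℕ in atTop, ((31 / 20 : ℝ) ^ (2 * l + 4) + 2) * mm l < c

/-- the flat bound. -/
def SFB : Prop :=
  ∀ (l n : ℕ) (Y : Set (E (2 * l + 3))) (β : E (2 * l + 3) → E n) (a m : ℝ) (r : ℝ[X]),
    Pre Y β → Van Y β (l + 2) → 0 < a → r.natDegree ≤ l →
    (∀ k : ℝ, |√(a / Real.pi) * Phi (r.comp (X ^ 2)) k - Real.exp (-k ^ 2 / (4 * a))| ≤ m) →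
    ∫ w, G (2 * l + 3) a w * Hk Y β psi w ≤ 2 * m * volume.real Y

/-! ### The rank bound -/

def SMat : Prop :=
  ∀ (ι : Type) [Fintype ι] [DecidableEq ι] (M J : Matrix ι ι ℝ), M.PosSemidef → J.IsSymm →
    (M * J).trace ^ 2 ≤ Fintype.card ι * (M * J * (M * J)).trace

def SLoc1 : Prop :=
  ∀ (d n : ℕ) (ν : Measure (E d)) [IsFiniteMeasure ν] (β : E d → E n), Measurable β →
    (∃ A, ∀ x, ‖β x‖ ≤ A) →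
    ν.real univ ^ 2 ≤ (n + 2) * ∫ x, ∫ y, (1 - ‖β x - β y‖ ^ 2) ^ 2 ∂ν ∂ν

def SPsi : Prop :=
  Continuous psi ∧ (∀ s, 0 ≤ psi s) ∧ (∀ s, 0 ≤ s → psi s ≤ 1 ∧ psi s ≤ (1 - s) ^ 2) ∧
    (∀ s, 3 / 2 ≤ s → 1 / 50 ≤ psi s) ∧
    ∀ s, 0 ≤ s → s ≤ 6 → (1 - s) ^ 2 ≤ Real.exp 12 * psi s

def SLoc : Prop :=
  ∃ c : ℝ, 0 < c ∧ ∀ (d n : ℕ) (ν : Measure (E d)) [IsFiniteMeasure ν] (β : E d → E n),
    Measurable β → c * ν.real univ ^ 2 ≤ (n + 2) * ∫ x, ∫ y, psi (‖β x - β y‖ ^ 2) ∂ν ∂ν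

def SConv : Prop :=
  ∃ c : ℝ, 0 < c ∧ ∀ (d n : ℕ) (Y : Set (E d)) (β : E d → E n) (a : ℝ), Pre Y β → 0 < a →
    c * ∫ z, (∫ x in Y, G d (2 * a) (x - z)) ^ 2 ≤ (n + 2) * ∫ w, G d a w * Hk Y β psi w

def SDens : Prop :=
  ∀ (d : ℕ) (a : ℝ), 0 < a → ∃ R : ℝ, 0 < R ∧ ∀ Y : Fin 4 → Set (E d),
    (∀ c, MeasurableSet (Y c) ∧ Y c ⊆ ball 0 R) →
    volume.real (ball (0 : E d) R) ≤ 2 * volume.real (⋃ c, Y c) →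
    volume.real (ball (0 : E d) R) ≤ 128 * ∑ c, ∫ z, (∫ x in Y c, G d a (x - z)) ^ 2

/-! ### The data -/

def SLevB : Prop :=
  ∀ (d n p : ℕ) (P : E d → Matrix (Ix n) (Ix n) ℝ) (u : E d → Ix n → ℝ) (R : ℝ), 1 ≤ d →
    JetField P u → 0 < R → ∃ (w : E d) (D j : ℕ) (r r' : ℝ), ‖w‖ = 1 ∧ 1 ≤ j ∧ 0 < r ∧ 0 < r' ∧
      volume.real (ball (0 : E d) R) ≤ 2 * volume.real
        (⋃ c, Den (Den (Pc u D (4 * D + p + 1) j (Cl c j w)) r) r' ∩ ball 0 R)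

def SSgn : Prop :=
  ∀ (d n p : ℕ) (Z : Set (E d)) (V : E d → Ix n → ℝ), 1 ≤ p → IsClosed Z → Flat Z V p →
    ((∀ x, V x sI = 0) ∨ ∃ g : E d → E n, V = fun x => lift (g x)) →
    ∃ β : E d → E n, Measurable β ∧ ∀ x ∈ Z, ∀ y ∈ Z,
      (1 - ‖β x - β y‖ ^ 2) ^ 2 = lz (V x) (V y) ^ 2

def SDatL : Prop :=
  ∀ (d n : ℕ) (u : E d → Ix n → ℝ), 2 ≤ d → UF u → ∀ D p j K : ℕ, 1 ≤ p → 1 ≤ j →
    4 * D + p ≤ K → ∀ w : E d, ‖w‖ = 1 →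
    ∃ g : E d → E n, Flat (Pc u D K j (Cl1 j w)) (fun x => lift (g x)) p

def SNoP : Prop :=
  ∀ (d : ℕ) (A : Set (E d)) (r : ℝ), MeasurableSet A → 0 < r →
    (AllPair fun x y => ¬ (x ∈ A ∧ y ∈ A)) →
    ∃ η : ℝ, 0 < η ∧ ∀ x ∈ Den A r, ∀ y ∈ Den A r, η ≤ |‖x - y‖ ^ 2 - 1|

def SCov : Prop :=
  ∀ (d n p : ℕ) (P : E d → Matrix (Ix n) (Ix n) ℝ) (u : E d → Ix n → ℝ) (R : ℝ), 3 ≤ d → 1 ≤ p →
    Field P → JetField P u → 0 < R → Concl P ∨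
      ∃ (Y : Fin 4 → Set (E d)) (β : Fin 4 → E d → E n),
        (∀ c, Pre (Y c) (β c) ∧ Van (Y c) (β c) p ∧ Y c ⊆ ball 0 R) ∧
        volume.real (ball (0 : E d) R) ≤ 2 * volume.real (⋃ c, Y c)

/-- the theorem. -/
def SBase : Prop :=
  ∃ d₀ : ℕ, ∀ d n : ℕ, d₀ ≤ d → (n : ℝ) ≤ (31 / 20) ^ d → XT.AllIso d n

end Pool.Agent.MP_66cee2_co.B
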